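import Pool.Agent.Lib.MP_678664_lc_CP.Numeric

/-!
# Module G, explicit range: choice of the parameters for `k ^ (C k) ≤ n`
-/

open Finset

namespace CliqueCP

/-- The explicit lifting theorem, as a statement. -/
def LiftingExplicit : Prop :=
  ∀ (q lam p : ℕ), 1 ≤ p →
    2 ^ q * (10 * q + 1) * q * (2 * (4 * (q + 1)) ^ (6 * lam + 2)) * p < 2 ^ p →
    ∀ (g : Fin q → Fin (2 ^ (4 * p)) → Fin (2 ^ (4 * p)) → Bool),
    GadgetGood g (2 ^ q * (8 * p * q + 2 * q + 1)) →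
    ∀ (m : ℕ) (φ : Fin m → Fin 5 → Fin q) (rhs : Fin m → Bool) (r t s : ℕ),
    Expands φ r → 2 * (4 * lam + 5 * t) ≤ r → 2 ≤ r →
    Nonempty (TDag g (XSat φ rhs) t s) →
    2 ^ (p * lam) ≤ 2 * (4 * q + 5) ^ (12 * lam + 3) * s

/-- The split version of the reduction, as a statement. -/
def ReductionSplit : Prop :=
  ∀ {q n' e N : ℕ}, 0 < n' → 2 * (q + 1) * n' ^ 5 + e ≤ N →
    ∀ (φ : Fin (q + 1) → Fin 5 → Fin q)
    (rhs : Fin (q + 1) → Bool), (∀ z, ∃ j, ¬ XSat φ rhs j z) →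
    ∀ (g : Fin q → Fin n' → Fin n' → Bool),
    ∃ G : SimpleGraph (Fin N), G.CliqueFree (2 * (q + 1) + e) ∧
      ∃ P : Finset (Fin (2 * (q + 1) + e)), P.card = q + 1 ∧
      ∀ t s : ℕ, Nonempty (SplitRefutation G P t s) → Nonempty (TDag g (XSat φ rhs) t s)

theorem cube_lt (p : ℕ) : p ^ 3 < 4 ^ p := by
  induction p with
  | zero => norm_num
  | succ p ih =>
    rcases Nat.lt_or_ge p 3 with h | h
    · interval_cases p <;> norm_num
    · rw [pow_succ 4 p]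
      have h1 : (p + 1) ^ 3 ≤ 4 * p ^ 3 := by nlinarith [sq_nonneg (p : ℤ)]
      omega

/-- The arithmetic of the size condition: `k ^ (9 k) ≤ 2 ^ p` gives room for the constants. -/
theorem room {k q lam p : ℕ} (hk : 300 ≤ k) (hq : 2 * (q + 1) ≤ k) (hlam : 6 * lam + 2 ≤ q)
    (hp : k ^ (9 * k) ≤ 2 ^ p) :
    2 ^ q * (10 * q + 1) * q * (2 * (4 * (q + 1)) ^ (6 * lam + 2)) * p < 2 ^ p := by
  have h4 : 4 * (q + 1) ≤ k ^ 2 := by nlinarith
  have h10 : 10 * q + 1 ≤ k ^ 2 := by nlinarith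
  have hk1 : 1 ≤ k := by omega
  have hb : 2 ^ q * (10 * q + 1) * q * (2 * (4 * (q + 1)) ^ (6 * lam + 2)) ≤ k ^ (3 * k) := by
    calc 2 ^ q * (10 * q + 1) * q * (2 * (4 * (q + 1)) ^ (6 * lam + 2))
        ≤ k ^ q * k ^ 2 * k * (k * (k ^ 2) ^ q) := by
          have e1 : 2 ^ q ≤ k ^ q := Nat.pow_le_pow_left (by omega) q
          have e2 : q ≤ k := by omega
          have e3 : (4 * (q + 1)) ^ (6 * lam + 2) ≤ (k ^ 2) ^ q :=
            (Nat.pow_le_pow_left h4 _).trans (Nat.pow_le_pow_right (by positivity) hlam)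
          have e4 : 2 ≤ k := by omega
          gcongr
      _ = k ^ (3 * q + 4) := by
          rw [← pow_mul]
          ring
      _ ≤ k ^ (3 * k) := Nat.pow_le_pow_right hk1 (by omega)
  have h3 : (k ^ (3 * k) * p) ^ 3 < (2 ^ p) ^ 3 := by
    have e1 : (k ^ (3 * k)) ^ 3 = k ^ (9 * k) := by rw [← pow_mul]; congr 1; ring
    have e2 : (2 ^ p) ^ 3 = 2 ^ p * 4 ^ p := by
      rw [show (4 : ℕ) = 2 ^ 2 by norm_num, ← pow_mul, ← pow_mul, ← pow_add]
      congr 1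
      ring
    rw [mul_pow, e1, e2]
    have h5 := cube_lt p
    have h6 : 0 < 2 ^ p := by positivity
    calc k ^ (9 * k) * p ^ 3 ≤ 2 ^ p * p ^ 3 := Nat.mul_le_mul_right _ hp
      _ < 2 ^ p * 4 ^ p := Nat.mul_lt_mul_of_pos_left h5 h6
  have h7 : k ^ (3 * k) * p < 2 ^ p := lt_of_pow_lt_pow_left₀ 3 (by positivity) h3
  exact lt_of_le_of_lt (Nat.mul_le_mul_right _ hb) h7

/-- **Module G, explicit range.** -/
theorem core_bound_of (lifting : LiftingExplicit) (reduction : ReductionSplit)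
    (exists_unsat : ∀ {q : ℕ} (φ : Fin (q + 1) → Fin 5 → Fin q),
      ∃ rhs : Fin (q + 1) → Bool, ∀ z, ∃ j, ¬ XSat φ rhs j z) :
    ∃ c : ℝ, 0 < c ∧ ∃ C k₀ : ℕ, ∀ k ≥ k₀, ∀ n : ℕ, k ^ (C * k) ≤ n →
    ∃ G : SimpleGraph (Fin n), G.CliqueFree k ∧ ∃ P : Finset (Fin k), P.card = k / 2 ∧
      ∀ t s : ℕ, (t : ℝ) ≤ c * k → Nonempty (SplitRefutation G P t s) →
        (n : ℝ) ^ (c * k) ≤ s := by
  obtain ⟨q₀, hexp⟩ := exists_expander
  refine ⟨1 / 10 ^ 7, by norm_num, 200, 2 * q₀ + 2 ^ 20, fun k hk n hn => ?_⟩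
  obtain ⟨q, e, he, hq, hkq⟩ : ∃ q e : ℕ, e ≤ 1 ∧ q₀ ≤ q ∧ k = 2 * (q + 1) + e :=
    ⟨k / 2 - 1, k % 2, by omega, by omega, by omega⟩
  have hk2 : k / 2 = q + 1 := by omega
  obtain ⟨φ, hφ⟩ := hexp q hq
  obtain ⟨rhs, hrhs⟩ := exists_unsat φ
  set r := q / 4000 with hr
  set lam := r / 18 with hlam
  have hkbig : 2 ^ 20 ≤ k := by omega
  have hlam1 : 2 ≤ lam := by omega
  have hlamk : k ≤ 250000 * lam := by omega
  have hlamk' : 144000 * lam ≤ k := by omega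
  set Q := 2 * (q + 1) + 1 with hQ
  set K := Q * 2 ^ 20 with hKdef
  have hQ0 : 0 < Q := by omega
  have hk1 : 1 ≤ k := by omega
  have hQk : Q ≤ k ^ 2 := by nlinarith
  have hKk : K ≤ k ^ 3 := by
    calc K = Q * 2 ^ 20 := rfl
      _ ≤ k ^ 2 * k := Nat.mul_le_mul hQk hkbig
      _ = k ^ 3 := by ring
  set p := Nat.log (2 ^ 20) (n / Q) with hp
  have hQn : Q ≤ n := by
    refine hQk.trans (le_trans (Nat.pow_le_pow_right hk1 (by omega)) hn)
  have hdiv0 : n / Q ≠ 0 := by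
    have := Nat.div_pos hQn hQ0
    omega
  have hple : Q * (2 ^ 20) ^ p ≤ n := by
    have h1 : (2 ^ 20) ^ p ≤ n / Q := Nat.pow_log_le_self _ hdiv0
    rw [Nat.le_div_iff_mul_le hQ0, mul_comm] at h1
    exact h1
  have hplt : n ≤ K * 2 ^ (20 * p) := by
    have h1 : n / Q < (2 ^ 20) ^ (p + 1) := Nat.lt_pow_succ_log_self (by norm_num) _
    rw [Nat.div_lt_iff_lt_mul hQ0] at h1
    refine h1.le.trans (le_of_eq ?_)
    rw [hKdef, pow_succ, pow_mul]
    ring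
  -- the size of `p`
  have hpk : k ^ (9 * k) ≤ 2 ^ p := by
    have h1 : k ^ (200 * k) ≤ k ^ 3 * 2 ^ (20 * p) := hn.trans (hplt.trans (Nat.mul_le_mul_right _ hKk))
    have h2 : k ^ 3 * k ^ (180 * k) ≤ k ^ (200 * k) := by
      rw [← pow_add]
      exact Nat.pow_le_pow_right hk1 (by omega)
    have h3 : k ^ (180 * k) ≤ 2 ^ (20 * p) := Nat.le_of_mul_le_mul_left (h2.trans h1) (by positivity)
    have h4 : (k ^ (9 * k)) ^ 20 ≤ (2 ^ p) ^ 20 := by
      rw [← pow_mul, ← pow_mul]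
      refine le_trans (le_of_eq ?_) (h3.trans (le_of_eq ?_))
      · congr 1; ring
      · congr 1; ring
    exact le_of_pow_le_pow_left₀ (by norm_num) (by positivity) h4
  have hp1 : 1 ≤ p := by
    rcases Nat.eq_zero_or_pos p with h | h
    · rw [h, pow_zero] at hpk
      have h1 : k ≤ k ^ (9 * k) := Nat.le_self_pow (by omega) k
      omega
    · exact h
  obtain ⟨g, hg⟩ := exists_gadget q p
  have hN : 2 * (q + 1) * (2 ^ (4 * p)) ^ 5 + e ≤ n := by
    refine le_trans ?_ hple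
    have h1 : (2 ^ (4 * p)) ^ 5 = (2 ^ 20) ^ p := by
      rw [← pow_mul, ← pow_mul]
      congr 1
      ring
    have h2 : 0 < (2 ^ 20) ^ p := by positivity
    rw [h1, hQ, add_mul]
    have h3 : e ≤ 1 * (2 ^ 20) ^ p := by omega
    omega
  obtain ⟨G, hG, P, hP, hred⟩ := reduction (N := n) (by positivity) hN φ rhs hrhs g
  have hroom := room (k := k) (q := q) (lam := lam) (p := p) (by omega) (by omega) (by omega) hpk
  have hn1 : 1 ≤ n := by
    have : 0 < k ^ (200 * k) := by positivity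
    omega
  have hconst : (2 * (4 * q + 5) ^ (12 * lam + 3)) ^ 40 * K ^ (2 * lam) ≤ n := by
    refine le_trans ?_ hn
    calc (2 * (4 * q + 5) ^ (12 * lam + 3)) ^ 40 * K ^ (2 * lam)
        ≤ (k * (k ^ 2) ^ (12 * lam + 3)) ^ 40 * (k ^ 3) ^ (2 * lam) := by
          have e1 : 2 ≤ k := by omega
          have e2 : 4 * q + 5 ≤ k ^ 2 := by nlinarith
          gcongr
      _ = k ^ (966 * lam + 280) := by
          rw [mul_pow, ← pow_mul, ← pow_mul, ← pow_mul, ← pow_add, ← pow_add]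
          congr 1
          ring
      _ ≤ k ^ (200 * k) := Nat.pow_le_pow_right hk1 (by omega)
  have hbound : ∀ t s : ℕ, t ≤ lam → Nonempty (SplitRefutation G P t s) →
      (n : ℝ) ^ (1 / 10 ^ 7 * (k : ℝ)) ≤ s := by
    intro t s ht hR
    have hT := hred t s hR
    have hs := lifting q lam p hp1 hroom g hg (q + 1) φ rhs r t s hφ (by omega) (by omega) hT
    have hfin := final_bound (C := 2 * (4 * q + 5) ^ (12 * lam + 3)) (K := K) (n := n) (p := p)
      (lam := lam) (s := s) (by omega) hplt hconst (by positivity) (by positivity) hs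
    refine rpow_le_of_pow_le hn1 ?_ hfin
    have : (k : ℝ) ≤ 250000 * lam := by exact_mod_cast hlamk
    linarith
  subst hkq
  refine ⟨G, hG, P, by omega, fun t s ht hR => hbound t s ?_ hR⟩
  have h1 : ((2 * (q + 1) + e : ℕ) : ℝ) ≤ 250000 * lam := by exact_mod_cast hlamk
  have h2 : (t : ℝ) ≤ lam := by
    have h3 : (0 : ℝ) ≤ lam := by positivity
    linarith
  exact_mod_cast h2

end CliqueCP
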