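import Pool.Agent.Lib.MP_678664_lc_CP.Formula

/-!
# Gadgets, parity constraints and triangle dags: definitions used in the proof
-/

open Finset

namespace CliqueCP

/-- Points of one side. -/
abbrev Pt (q n : ℕ) := Fin q → Fin n

/-- The gadget property: among `M` rows and `M` columns, pairwise different at every coordinate
of `C`, some pair shows any given pattern on `C`. -/
def GadgetGood {q n : ℕ} (g : Fin q → Fin n → Fin n → Bool) (M : ℕ) : Prop :=
  ∀ (C : Finset (Fin q)) (x y : Fin M → Pt q n) (ρ : Fin q → Bool),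
    (∀ i ∈ C, Function.Injective fun a => x a i) →
    (∀ i ∈ C, Function.Injective fun a => y a i) →
    ∃ a b, ∀ i ∈ C, g i (x a i) (y b i) = ρ i

/-- The gadget applied to a row and a column. -/
def gval {q n : ℕ} (g : Fin q → Fin n → Fin n → Bool) (x y : Pt q n) : Fin q → Bool :=
  fun i => g i (x i) (y i)

/-- The parity constraint number `j` of the system `φ`, `rhs`. -/
def XSat {q m : ℕ} (φ : Fin m → Fin 5 → Fin q) (rhs : Fin m → Bool) (j : Fin m)
    (z : Fin q → Bool) : Prop :=
  Odd (univ.filter fun p => z (φ j p) = true).card ↔ rhs j = true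

/-- The variables of constraint `j`. -/
def xvars {q m : ℕ} (φ : Fin m → Fin 5 → Fin q) (j : Fin m) : Finset (Fin q) :=
  univ.image (φ j)

/-- Locally consistent partial assignments: `ρ` on `K` extends to a solution of any `r / 2`
constraints. -/
def Cons {q m : ℕ} (φ : Fin m → Fin 5 → Fin q) (rhs : Fin m → Bool) (r : ℕ)
    (K : Finset (Fin q)) (ρ : Fin q → Bool) : Prop :=
  ∀ T : Finset (Fin m), 2 * T.card ≤ r →
    ∃ z : Fin q → Bool, (∀ i ∈ K, z i = ρ i) ∧ ∀ j ∈ T, XSat φ rhs j z

/-- Vertex expansion of the constraint system. -/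
def Expands {q m : ℕ} (φ : Fin m → Fin 5 → Fin q) (r : ℕ) : Prop :=
  ∀ T : Finset (Fin m), T.card ≤ r → 3 * T.card ≤ (T.biUnion (xvars φ)).card

/-- A dag of triangles `{(x, y) | f v x + h v y < 0}` solving the search problem: find a
violated constraint; at a leaf at most `t` candidates remain. -/
structure TDag {q n m : ℕ} (g : Fin q → Fin n → Fin n → Bool)
    (S : Fin m → (Fin q → Bool) → Prop) (t s : ℕ) where
  f : Fin s → Pt q n → ℝ
  h : Fin s → Pt q n → ℝ
  valid : ∀ v, (∃ P : Finset (Fin m), P.card ≤ t ∧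
      ∀ x y, f v x + h v y < 0 → ∃ j ∈ P, ¬ S j (gval g x y)) ∨
    ∃ a b, a < v ∧ b < v ∧ ∀ x y, f v x + h v y < 0 → f a x + h a y < 0 ∨ f b x + h b y < 0
  root : ∃ v, ∀ x y, f v x + h v y < 0

end CliqueCP
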