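import Pool.Agent.Lib.MP_678664_lc_CP.Quant

/-! # Evolution of a row under a list of steps, with costs -/

open Finset

namespace CliqueCP

/-- The steps of the evolution. -/
inductive Step (q : ℕ)
  | peel (o : Option (Fin q))
  | fix (j : Fin q)
  | low
  deriving DecidableEq, Fintype

/-- The chosen peeling. -/
noncomputable def peelF {q n : ℕ} (t : ℕ) (K : Finset (Fin q)) (A : Finset (Pt q n)) :
    Pt q n → PeelOut q n := (exists_peel t K A).choose

theorem peelF_mem {q n : ℕ} {t : ℕ} {K : Finset (Fin q)} {A : Finset (Pt q n)} {x : Pt q n}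
    (hx : x ∈ A) : x ∈ (peelF t K A x).S ∧ (peelF t K A x).S ⊆ A ∧
      ∀ x' ∈ (peelF t K A x).S, peelF t K A x' = peelF t K A x :=
  (exists_peel t K A).choose_spec.1 x hx

theorem peelF_some {q n : ℕ} {t : ℕ} {K : Finset (Fin q)} {A : Finset (Pt q n)} {x : Pt q n}
    (hx : x ∈ A) {i : Fin q} (hi : (peelF t K A x).o = some i) :
    i ∉ K ∧ (∀ x' ∈ (peelF t K A x).S, x' i = x i) ∧
      (peelF t K A x).U ≤ t * (peelF t K A x).S.card :=
  (exists_peel t K A).choose_spec.2.1 x hx i hi

theorem peelF_none {q n : ℕ} {t : ℕ} {K : Finset (Fin q)} {A : Finset (Pt q n)} {x : Pt q n}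
    (hx : x ∈ A) (hi : (peelF t K A x).o = none) :
    Dense t K (peelF t K A x).S ∧ (peelF t K A x).U = (peelF t K A x).S.card :=
  (exists_peel t K A).choose_spec.2.2.1 x hx hi

theorem peelF_pos {q n : ℕ} {t : ℕ} {K : Finset (Fin q)} {A : Finset (Pt q n)} {x : Pt q n}
    (hx : x ∈ A) : 0 < (peelF t K A x).U ∧ (peelF t K A x).U ≤ A.card :=
  (exists_peel t K A).choose_spec.2.2.2.1 x hx

theorem peelF_sum {q n : ℕ} (t : ℕ) (K : Finset (Fin q)) (A : Finset (Pt q n)) :
    ∑ x ∈ A, 1 / √((peelF t K A x).U : ℝ) ≤ 2 * √(A.card : ℝ) :=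
  (exists_peel t K A).choose_spec.2.2.2.2

/-- The set of fixed coordinates after a step. -/
def Step.upd {q : ℕ} (K : Finset (Fin q)) : Step q → Finset (Fin q)
  | .peel (some i) => insert i K
  | .peel none => K
  | .fix j => insert j K
  | .low => K

/-- The low part of a set. -/
noncomputable def lowS {q n : ℕ} (N : ℕ) (f : Pt q n → ℝ) (A : Finset (Pt q n)) :
    Finset (Pt q n) := A.filter fun x => f x < quant N A f

/-- One step. -/
noncomputable def next {q n : ℕ} (N : ℕ) (f : Pt q n → ℝ) (K : Finset (Fin q))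
    (A : Finset (Pt q n)) : Step q → Pt q n → Option (Finset (Pt q n) × ℝ)
  | .peel o, x => if (peelF (N ^ 2) K A x).o = o then
      some ((peelF (N ^ 2) K A x).S, √((A.card : ℝ) / ((peelF (N ^ 2) K A x).U : ℝ))) else none
  | .fix j, x => some (slice A j (x j),
      √(max 1 ((A.card : ℝ) / ((n : ℝ) * ((slice A j (x j)).card : ℝ)))))
  | .low, x => if x ∈ lowS N f A then
      some (lowS N f A, √((A.card : ℝ) / ((lowS N f A).card : ℝ))) else none

/-- The cost of an outcome. -/
def cost {α : Type*} : Option (α × ℝ) → ℝ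
  | none => 0
  | some p => p.2

theorem next_mem {q n : ℕ} {N : ℕ} {f : Pt q n → ℝ} {K : Finset (Fin q)}
    {A : Finset (Pt q n)} {s : Step q} {x : Pt q n} (hx : x ∈ A) {A' : Finset (Pt q n)} {c : ℝ}
    (h : next N f K A s x = some (A', c)) :
    x ∈ A' ∧ A' ⊆ A ∧ ∀ x' ∈ A', next N f K A s x' = some (A', c) := by
  rcases s with o | j | _
  · simp only [next] at h ⊢
    split_ifs at h with h1
    obtain ⟨h2, h3⟩ := Prod.mk.inj (Option.some.inj h)
    obtain ⟨ha, hb, hc⟩ := peelF_mem (t := N ^ 2) (K := K) hx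
    rw [h2] at ha hb hc
    refine ⟨ha, hb, ?_⟩
    intro x' hx'
    rw [hc x' hx', if_pos h1, h2, h3]
  · simp only [next] at h ⊢
    obtain ⟨h2, h3⟩ := Prod.mk.inj (Option.some.inj h)
    subst h2
    refine ⟨mem_slice.mpr ⟨hx, rfl⟩, slice_subset _ _ _, ?_⟩
    intro x' hx'
    rw [mem_slice] at hx'
    rw [hx'.2, h3]
  · simp only [next] at h ⊢
    split_ifs at h with h1
    obtain ⟨h2, h3⟩ := Prod.mk.inj (Option.some.inj h)
    subst h2
    refine ⟨h1, filter_subset _ _, ?_⟩
    intro x' hx'
    rw [if_pos hx', h3]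

theorem one_le_cost {q n : ℕ} {N : ℕ} (hN : 1 ≤ N) {f : Pt q n → ℝ} {K : Finset (Fin q)}
    {A : Finset (Pt q n)} {s : Step q} {x : Pt q n} (hx : x ∈ A) {A' : Finset (Pt q n)} {c : ℝ}
    (h : next N f K A s x = some (A', c)) :
    1 ≤ c ∧ (s = Step.low → (N : ℝ) ≤ c ^ 2) ∧
    (A.card : ℝ) ≤ c ^ 2 * A'.card * (match s with
      | .peel (some _) => (N : ℝ) ^ 2
      | .peel none => 1
      | .fix _ => (n : ℝ)
      | .low => 1) := by
  have hApos : (0 : ℝ) < A.card := by exact_mod_cast card_pos.mpr ⟨x, hx⟩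
  rcases s with o | j | _
  · simp only [next] at h
    split_ifs at h with h1
    obtain ⟨h2, h3⟩ := Prod.mk.inj (Option.some.inj h)
    obtain ⟨hU1, hU2⟩ := peelF_pos (t := N ^ 2) (K := K) hx
    set U := (peelF (N ^ 2) K A x).U with hU
    have hUpos : (0 : ℝ) < U := by exact_mod_cast hU1
    have hUle : (U : ℝ) ≤ A.card := by exact_mod_cast hU2
    have hc2 : c ^ 2 = (A.card : ℝ) / U := by
      rw [← h3, Real.sq_sqrt (by positivity)]
    refine ⟨?_, fun h => by simp at h, ?_⟩
    · rw [← h3, Real.one_le_sqrt, le_div_iff₀ hUpos]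
      linarith
    · rw [hc2]
      rcases o with _ | i
      · simp only [mul_one]
        obtain ⟨-, hnone⟩ := peelF_none (t := N ^ 2) (K := K) hx h1
        rw [← h2, ← hnone, ← hU, div_mul_cancel₀ _ hUpos.ne']
      · simp only
        obtain ⟨-, -, hsome⟩ := peelF_some (t := N ^ 2) (K := K) hx h1
        rw [h2, ← hU] at hsome
        have hsome' : (U : ℝ) ≤ (N : ℝ) ^ 2 * A'.card := by exact_mod_cast hsome
        calc (A.card : ℝ) = (A.card : ℝ) / U * U := by rw [div_mul_cancel₀ _ hUpos.ne']
          _ ≤ (A.card : ℝ) / U * ((N : ℝ) ^ 2 * A'.card) := by gcongr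
          _ = _ := by ring
  · simp only [next] at h
    obtain ⟨h2, h3⟩ := Prod.mk.inj (Option.some.inj h)
    have hSpos : (0 : ℝ) < (slice A j (x j)).card := by
      exact_mod_cast card_pos.mpr ⟨x, mem_slice.mpr ⟨hx, rfl⟩⟩
    have hnpos : (0 : ℝ) < n := by
      have : 0 < n := (Nat.zero_le _).trans_lt (x j).isLt
      exact_mod_cast this
    have hmax : (0 : ℝ) ≤ max 1 ((A.card : ℝ) / ((n : ℝ) * ((slice A j (x j)).card : ℝ))) :=
      le_trans zero_le_one (le_max_left _ _)
    have hc2 : c ^ 2 = max 1 ((A.card : ℝ) / ((n : ℝ) * ((slice A j (x j)).card : ℝ))) := by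
      rw [← h3, Real.sq_sqrt hmax]
    refine ⟨?_, fun h => by simp at h, ?_⟩
    · rw [← h3, Real.one_le_sqrt]
      exact le_max_left _ _
    · simp only
      rw [hc2, ← h2]
      have : (A.card : ℝ) / ((n : ℝ) * ((slice A j (x j)).card : ℝ)) *
          ((slice A j (x j)).card * n) = A.card := by
        rw [mul_comm ((slice A j (x j)).card : ℝ) (n : ℝ), div_mul_cancel₀]
        positivity
      calc (A.card : ℝ) = _ := this.symm
        _ ≤ max 1 ((A.card : ℝ) / ((n : ℝ) * ((slice A j (x j)).card : ℝ))) *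
          ((slice A j (x j)).card * n) := by
            gcongr
            exact le_max_right _ _
        _ = _ := by ring
  · simp only [next] at h
    split_ifs at h with h1
    obtain ⟨h2, h3⟩ := Prod.mk.inj (Option.some.inj h)
    have hLpos : (0 : ℝ) < (lowS N f A).card := by exact_mod_cast card_pos.mpr ⟨x, h1⟩
    have hlt : N * (lowS N f A).card < A.card := quant_lt ⟨x, hx⟩ hN f
    have hlt' : (N : ℝ) * (lowS N f A).card < A.card := by exact_mod_cast hlt
    have hN' : (1 : ℝ) ≤ N := by exact_mod_cast hN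
    have hc2 : c ^ 2 = (A.card : ℝ) / (lowS N f A).card := by
      rw [← h3, Real.sq_sqrt (by positivity)]
    refine ⟨?_, fun _ => ?_, ?_⟩
    · rw [← h3, Real.one_le_sqrt, le_div_iff₀ hLpos]
      nlinarith
    · rw [hc2, le_div_iff₀ hLpos]
      linarith
    · simp only [mul_one]
      rw [hc2, ← h2, div_mul_cancel₀ _ hLpos.ne']

theorem next_const {q n : ℕ} {N : ℕ} {f : Pt q n → ℝ} {K : Finset (Fin q)}
    {A : Finset (Pt q n)} {s : Step q} {x : Pt q n} (hx : x ∈ A) {A' : Finset (Pt q n)} {c : ℝ}
    (h : next N f K A s x = some (A', c)) :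
    ∀ x' ∈ A', ∀ i ∈ s.upd K, i ∈ K ∨ x' i = x i := by
  intro x' hx' i hi
  rcases s with o | j | _
  · simp only [next] at h
    split_ifs at h with h1
    obtain ⟨h2, h3⟩ := Prod.mk.inj (Option.some.inj h)
    rcases o with _ | i'
    · exact Or.inl hi
    · simp only [Step.upd, mem_insert] at hi
      rcases hi with hi | hi
      · right
        subst hi
        obtain ⟨-, hsome, -⟩ := peelF_some (t := N ^ 2) (K := K) hx h1
        rw [h2] at hsome
        exact hsome x' hx'
      · exact Or.inl hi
  · simp only [next] at h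
    obtain ⟨h2, h3⟩ := Prod.mk.inj (Option.some.inj h)
    simp only [Step.upd, mem_insert] at hi
    rcases hi with hi | hi
    · right
      subst hi
      rw [← h2, mem_slice] at hx'
      exact hx'.2
    · exact Or.inl hi
  · exact Or.inl hi

/-- One-step bound for the sum of the costs. -/
theorem sum_cost_next {q n : ℕ} (N : ℕ) (f : Pt q n → ℝ) (K : Finset (Fin q))
    (A : Finset (Pt q n)) (s : Step q) :
    ∑ x ∈ A, cost (next N f K A s x) ≤ 2 * A.card := by
  rcases A.eq_empty_or_nonempty with h0 | hne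
  · rw [h0]; simp
  have hApos : (0 : ℝ) < A.card := by exact_mod_cast hne.card_pos
  have hs0 : 0 < √(A.card : ℝ) := Real.sqrt_pos.mpr hApos
  have hss : √(A.card : ℝ) * √(A.card : ℝ) = A.card := Real.mul_self_sqrt hApos.le
  rcases s with o | j | _
  · calc ∑ x ∈ A, cost (next N f K A (.peel o) x)
        ≤ ∑ x ∈ A, √(A.card : ℝ) * (1 / √((peelF (N ^ 2) K A x).U : ℝ)) := by
          apply sum_le_sum
          intro x hx
          simp only [next]
          split_ifs with h1
          · simp only [cost]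
            rw [Real.sqrt_div' _ (by positivity), mul_one_div]
          · simp only [cost]
            positivity
      _ = √(A.card : ℝ) * ∑ x ∈ A, (1 / √((peelF (N ^ 2) K A x).U : ℝ)) := by
          rw [mul_sum]
      _ ≤ √(A.card : ℝ) * (2 * √(A.card : ℝ)) := by
          gcongr
          exact peelF_sum _ _ _
      _ = 2 * A.card := by linear_combination 2 * hss
  · -- fix
    have hn0 : (0 : ℝ) < n := by
      obtain ⟨x, -⟩ := hne
      have : 0 < n := (Nat.zero_le _).trans_lt (x j).isLt
      exact_mod_cast this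
    have hsqn : 0 < √(n : ℝ) := Real.sqrt_pos.mpr hn0
    have hterm : ∀ x ∈ A, cost (next N f K A (.fix j) x) ≤
        1 + √(A.card : ℝ) / √(n : ℝ) * (1 / √((slice A j (x j)).card : ℝ)) := by
      intro x hx
      simp only [next, cost]
      have hSpos : (0 : ℝ) < (slice A j (x j)).card := by
        exact_mod_cast card_pos.mpr ⟨x, mem_slice.mpr ⟨hx, rfl⟩⟩
      rcases le_total 1 ((A.card : ℝ) / ((n : ℝ) * ((slice A j (x j)).card : ℝ))) with h | h
      · rw [max_eq_right h, Real.sqrt_div' _ (by positivity), Real.sqrt_mul hn0.le,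
          div_mul_div_comm, mul_one]
        linarith
      · rw [max_eq_left h, Real.sqrt_one]
        have : 0 ≤ √(A.card : ℝ) / √(n : ℝ) * (1 / √((slice A j (x j)).card : ℝ)) := by
          positivity
        linarith
    have hsum : ∑ x ∈ A, (1 / √((slice A j (x j)).card : ℝ)) =
        ∑ b : Fin n, √((slice A j b).card : ℝ) := by
      rw [← sum_fiberwise_of_maps_to (s := A) (t := (univ : Finset (Fin n)))
        (g := fun x => x j) (fun x _ => mem_univ _)]
      apply sum_congr rfl
      intro b _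
      have : ∑ x ∈ A with x j = b, 1 / √((slice A j (x j)).card : ℝ) =
          ∑ x ∈ A with x j = b, 1 / √((slice A j b).card : ℝ) := by
        apply sum_congr rfl
        intro x hx
        rw [(mem_filter.mp hx).2]
      rw [this, sum_const, nsmul_eq_mul]
      change ((slice A j b).card : ℝ) * _ = _
      rcases Nat.eq_zero_or_pos (slice A j b).card with h0 | h0
      · rw [h0]; simp
      · have h1 : (0 : ℝ) < (slice A j b).card := by exact_mod_cast h0
        have h2 : 0 < √((slice A j b).card : ℝ) := Real.sqrt_pos.mpr h1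
        rw [mul_one_div, div_eq_iff h2.ne', Real.mul_self_sqrt h1.le]
    have hcard : ∑ b : Fin n, ((slice A j b).card : ℝ) = A.card := by
      have := card_eq_sum_card_fiberwise (f := fun x : Pt q n => x j) (s := A)
        (t := (univ : Finset (Fin n))) (by simp)
      rw [this]
      push_cast
      rfl
    have hCS : (∑ b : Fin n, √((slice A j b).card : ℝ)) ≤ √(n : ℝ) * √(A.card : ℝ) := by
      have h1 := sum_mul_sq_le_sq_mul_sq (univ : Finset (Fin n)) (fun _ => (1 : ℝ))
        (fun b => √((slice A j b).card : ℝ))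
      simp only [one_mul, one_pow, sum_const, card_univ, Fintype.card_fin, nsmul_eq_mul,
        mul_one] at h1
      have h2 : ∑ b : Fin n, √((slice A j b).card : ℝ) ^ 2 = A.card := by
        rw [← hcard]
        apply sum_congr rfl
        intro b _
        exact Real.sq_sqrt (by positivity)
      rw [h2] at h1
      rw [← Real.sqrt_mul hn0.le]
      exact Real.le_sqrt_of_sq_le h1
    calc ∑ x ∈ A, cost (next N f K A (.fix j) x)
        ≤ ∑ x ∈ A, (1 + √(A.card : ℝ) / √(n : ℝ) *
            (1 / √((slice A j (x j)).card : ℝ))) := sum_le_sum hterm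
      _ = A.card + √(A.card : ℝ) / √(n : ℝ) * ∑ b : Fin n, √((slice A j b).card : ℝ) := by
          rw [sum_add_distrib, ← mul_sum, hsum]
          simp
      _ ≤ A.card + √(A.card : ℝ) / √(n : ℝ) * (√(n : ℝ) * √(A.card : ℝ)) := by
          gcongr
      _ = 2 * A.card := by
          have : √(A.card : ℝ) / √(n : ℝ) * (√(n : ℝ) * √(A.card : ℝ)) = A.card := by
            rw [div_mul_eq_mul_div, div_eq_iff hsqn.ne']
            linear_combination √(n : ℝ) * hss
          rw [this]; ring
  · -- low
    have h1 : ∀ x ∈ A, cost (next N f K A .low x) =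
        if x ∈ lowS N f A then √((A.card : ℝ) / ((lowS N f A).card : ℝ)) else 0 := by
      intro x _
      simp only [next]
      split_ifs <;> simp [cost]
    rw [sum_congr rfl h1, ← sum_filter]
    have h2 : (A.filter fun x => x ∈ lowS N f A) = lowS N f A := by
      ext x
      simp only [mem_filter, lowS]
      tauto
    rw [h2, sum_const, nsmul_eq_mul]
    rcases Nat.eq_zero_or_pos (lowS N f A).card with h0 | h0
    · rw [h0]; simp
    · have h3 : (0 : ℝ) < (lowS N f A).card := by exact_mod_cast h0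
      have h4 : 0 < √((lowS N f A).card : ℝ) := Real.sqrt_pos.mpr h3
      have h5 : ((lowS N f A).card : ℝ) ≤ A.card := by
        exact_mod_cast card_le_card (filter_subset _ _)
      have h6 : √((lowS N f A).card : ℝ) ≤ √(A.card : ℝ) := Real.sqrt_le_sqrt h5
      have h7 : ((lowS N f A).card : ℝ) * √((A.card : ℝ) / ((lowS N f A).card : ℝ)) =
          √(A.card : ℝ) * √((lowS N f A).card : ℝ) := by
        rw [Real.sqrt_div' _ h3.le]
        nth_rewrite 1 [← Real.mul_self_sqrt h3.le]
        field_simp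
      rw [h7]
      nlinarith

end CliqueCP
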