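import Pool.Agent.Lib.MP_678664_lc_CP.Defs

/-! Module E1: existence of expanding constraint systems (counting argument). -/

open Finset

namespace CliqueCP

namespace ExpanderAux

/-- Number of maps with all slots of the constraints of `T` in `S`. -/
theorem card_maps {q m : ℕ} (T : Finset (Fin m)) (S : Finset (Fin q)) :
    (univ.filter fun φ : Fin m → Fin 5 → Fin q => ∀ j ∈ T, ∀ s, φ j s ∈ S).card
      = (S.card ^ 5) ^ T.card * (q ^ 5) ^ (m - T.card) := by
  classical
  have h : (univ.filter fun φ : Fin m → Fin 5 → Fin q => ∀ j ∈ T, ∀ s, φ j s ∈ S)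
      = Fintype.piFinset (fun j => if j ∈ T then Fintype.piFinset (fun _ : Fin 5 => S)
          else univ) := by
    ext φ
    simp only [mem_filter, mem_univ, true_and, Fintype.mem_piFinset]
    constructor
    · intro h j
      by_cases hj : j ∈ T
      · simp only [hj, if_true, Fintype.mem_piFinset]
        exact h j hj
      · simp [hj]
    · intro h j hj s
      have := h j
      simp only [hj, if_true, Fintype.mem_piFinset] at this
      exact this s
  rw [h, Fintype.card_piFinset]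
  have h2 : ∀ j : Fin m, (if j ∈ T then Fintype.piFinset (fun _ : Fin 5 => S)
      else (univ : Finset (Fin 5 → Fin q))).card = if j ∈ T then S.card ^ 5 else q ^ 5 := by
    intro j
    split_ifs
    · simp
    · simp
  rw [Finset.prod_congr rfl (fun j _ => h2 j)]
  rw [Finset.prod_ite, Finset.prod_const, Finset.prod_const]
  congr 2
  · rw [Finset.filter_mem_eq_inter, Finset.univ_inter]
  · have : (univ.filter fun j : Fin m => ¬ j ∈ T) = univ \ T := by
      ext; simp
    rw [this, Finset.card_sdiff_of_subset (subset_univ T)]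
    simp

theorem pow_self_le (t : ℕ) : (t : ℝ) ^ t ≤ 3 ^ t * (t.factorial : ℝ) := by
  have h := Real.pow_div_factorial_le_exp (t : ℝ) (by positivity) t
  have h3 : Real.exp (t : ℝ) ≤ 3 ^ t := by
    have : Real.exp (t : ℝ) = Real.exp 1 ^ t := by
      rw [← Real.exp_nat_mul]; simp
    rw [this]
    exact pow_le_pow_left₀ (Real.exp_pos _).le (by linarith [Real.exp_one_lt_d9]) t
  have hf : (0 : ℝ) < (t.factorial : ℝ) := by exact_mod_cast t.factorial_pos
  calc (t : ℝ) ^ t = (t : ℝ) ^ t / (t.factorial : ℝ) * (t.factorial : ℝ) := by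
        field_simp
    _ ≤ 3 ^ t * (t.factorial : ℝ) := by
        gcongr
        exact h.trans h3

theorem choose_le (n t : ℕ) (ht : 0 < t) : (n.choose t : ℝ) ≤ (3 * n / t) ^ t := by
  have h := Nat.choose_le_pow_div (α := ℝ) t n
  have hf : (0 : ℝ) < (t.factorial : ℝ) := by exact_mod_cast t.factorial_pos
  have ht' : (0 : ℝ) < (t : ℝ) ^ t := by positivity
  refine h.trans ?_
  rw [div_pow, mul_pow, div_le_div_iff₀ hf ht']
  have := pow_self_le t
  have hn : (0 : ℝ) ≤ (n : ℝ) ^ t := by positivity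
  nlinarith [mul_le_mul_of_nonneg_left this hn]

theorem term_le {q t : ℕ} (hq : 0 < q) (ht : 0 < t) (htq : 4000 * t ≤ q) :
    ((q + 1).choose t : ℝ) * (q.choose (3 * t) : ℝ) * (((3 * t : ℕ) : ℝ) ^ 5) ^ t
      ≤ (1 / 2) ^ t * ((q : ℝ) ^ 5) ^ t := by
  have h1 := choose_le (q + 1) t ht
  have h2 := choose_le q (3 * t) (by omega)
  have hq' : (1 : ℝ) ≤ q := by exact_mod_cast hq
  have ht' : (0 : ℝ) < t := by exact_mod_cast ht
  have htq' : (4000 : ℝ) * t ≤ q := by exact_mod_cast htq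
  have e2 : (3 * (q : ℝ) / ((3 * t : ℕ) : ℝ)) ^ (3 * t) = (((q : ℝ) / t) ^ 3) ^ t := by
    rw [pow_mul]
    congr 2
    push_cast
    field_simp
  rw [e2] at h2
  calc ((q + 1).choose t : ℝ) * (q.choose (3 * t) : ℝ) * (((3 * t : ℕ) : ℝ) ^ 5) ^ t
      ≤ (3 * ((q + 1 : ℕ) : ℝ) / t) ^ t * (((q : ℝ) / t) ^ 3) ^ t
          * (((3 * t : ℕ) : ℝ) ^ 5) ^ t := by gcongr
    _ = (3 * ((q + 1 : ℕ) : ℝ) / t * ((q : ℝ) / t) ^ 3 * ((3 * t : ℕ) : ℝ) ^ 5) ^ t := by
        rw [mul_pow, mul_pow]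
    _ ≤ (1 / 2 * (q : ℝ) ^ 5) ^ t := by
        apply pow_le_pow_left₀ (by positivity)
        have : 3 * ((q + 1 : ℕ) : ℝ) / t * ((q : ℝ) / t) ^ 3 * ((3 * t : ℕ) : ℝ) ^ 5
            = 729 * ((q : ℝ) + 1) * q ^ 3 * t := by
          push_cast
          field_simp
          ring
        rw [this]
        have h3 : (q : ℝ) + 1 ≤ 2 * q := by linarith
        calc 729 * ((q : ℝ) + 1) * q ^ 3 * t ≤ 729 * (2 * q) * q ^ 3 * t := by gcongr
          _ = 1458 * (t : ℝ) * (q : ℝ) ^ 4 := by ring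
          _ ≤ 1 / 2 * (q : ℝ) * (q : ℝ) ^ 4 := by
              apply mul_le_mul_of_nonneg_right _ (by positivity)
              linarith
          _ = 1 / 2 * (q : ℝ) ^ 5 := by ring
    _ = (1 / 2) ^ t * ((q : ℝ) ^ 5) ^ t := by rw [mul_pow]

end ExpanderAux

open ExpanderAux in
theorem exists_expander : ∃ q₀ : ℕ, ∀ q ≥ q₀, ∃ φ : Fin (q + 1) → Fin 5 → Fin q,
    Expands φ (q / 4000) := by
  classical
  refine ⟨1, fun q hq => ?_⟩
  by_contra hcon
  push Not at hcon
  set r := q / 4000 with hr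
  have hq0 : 0 < q := hq
  -- the union bound
  set A : Finset (Fin (q + 1)) → Finset (Fin q) → Finset (Fin (q + 1) → Fin 5 → Fin q) :=
    fun T S => univ.filter fun φ => ∀ j ∈ T, ∀ s, φ j s ∈ S with hA
  have hcover : (univ : Finset (Fin (q + 1) → Fin 5 → Fin q)) ⊆
      (Finset.Icc 1 r).biUnion fun t => (powersetCard t univ).biUnion fun T =>
        (powersetCard (3 * t) univ).biUnion fun S => A T S := by
    intro φ _
    have h := hcon φ
    unfold Expands at h
    push Not at h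
    obtain ⟨T, hT, hTc⟩ := h
    have hT0 : 0 < T.card := by
      rcases Nat.eq_zero_or_pos T.card with h0 | h0
      · rw [h0] at hTc; omega
      · exact h0
    have h3q : 3 * T.card ≤ q := by
      have : T.card ≤ q / 4000 := hT
      omega
    obtain ⟨S, hS1, hS2⟩ := Finset.exists_superset_card_eq (s := T.biUnion (xvars φ))
      (n := 3 * T.card) hTc.le (by simpa using h3q)
    simp only [mem_biUnion]
    refine ⟨T.card, Finset.mem_Icc.2 ⟨hT0, hT⟩, T, ?_, S, ?_, ?_⟩
    · simp [mem_powersetCard]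
    · simp [mem_powersetCard, hS2]
    · simp only [hA, mem_filter, mem_univ, true_and]
      intro j hj s
      apply hS1
      simp only [mem_biUnion]
      exact ⟨j, hj, by simp [xvars]⟩
  have hcard := Finset.card_le_card hcover
  have h1 : (univ : Finset (Fin (q + 1) → Fin 5 → Fin q)).card = (q ^ 5) ^ (q + 1) := by
    simp
  have h2 : ((Finset.Icc 1 r).biUnion fun t => (powersetCard t
      (univ : Finset (Fin (q + 1)))).biUnion fun T =>
        (powersetCard (3 * t) (univ : Finset (Fin q))).biUnion fun S => A T S).card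
      ≤ ∑ t ∈ Finset.Icc 1 r, (q + 1).choose t * (q.choose (3 * t) *
          (((3 * t) ^ 5) ^ t * (q ^ 5) ^ (q + 1 - t))) := by
    refine Finset.card_biUnion_le.trans (Finset.sum_le_sum fun t _ => ?_)
    refine (Finset.card_biUnion_le_card_mul _ _ (q.choose (3 * t) *
          (((3 * t) ^ 5) ^ t * (q ^ 5) ^ (q + 1 - t))) ?_).trans ?_
    · intro T hT
      refine (Finset.card_biUnion_le_card_mul _ _
          (((3 * t) ^ 5) ^ t * (q ^ 5) ^ (q + 1 - t)) ?_).trans ?_
      · intro S hS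
        rw [hA]
        simp only
        rw [card_maps, (mem_powersetCard.1 hT).2, (mem_powersetCard.1 hS).2]
      · simp
    · simp
  have h3 : ((q ^ 5 : ℕ) ^ (q + 1) : ℝ) ≤ ∑ t ∈ Finset.Icc 1 r, (1 / 2 : ℝ) ^ t
      * ((q ^ 5 : ℕ) : ℝ) ^ (q + 1) := by
    rw [h1] at hcard
    have h4 : (((q ^ 5) ^ (q + 1) : ℕ) : ℝ) ≤ ((∑ t ∈ Finset.Icc 1 r, (q + 1).choose t *
        (q.choose (3 * t) * (((3 * t) ^ 5) ^ t * (q ^ 5) ^ (q + 1 - t))) : ℕ) : ℝ) := by
      exact_mod_cast hcard.trans h2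
    rw [Nat.cast_sum] at h4
    push_cast at h4 ⊢
    refine h4.trans (Finset.sum_le_sum fun t ht => ?_)
    obtain ⟨ht1, ht2⟩ := Finset.mem_Icc.1 ht
    have htq : 4000 * t ≤ q := by omega
    have hle : t ≤ q + 1 := by omega
    have h5 := term_le hq0 (by omega : 0 < t) htq
    push_cast at h5
    calc ((q + 1).choose t : ℝ) * ((q.choose (3 * t) : ℝ) * (((3 * (t : ℝ)) ^ 5) ^ t
          * ((q : ℝ) ^ 5) ^ (q + 1 - t)))
        = (((q + 1).choose t : ℝ) * (q.choose (3 * t) : ℝ) * ((3 * (t : ℝ)) ^ 5) ^ t)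
          * ((q : ℝ) ^ 5) ^ (q + 1 - t) := by ring
      _ ≤ ((1 / 2) ^ t * ((q : ℝ) ^ 5) ^ t) * ((q : ℝ) ^ 5) ^ (q + 1 - t) := by
          gcongr
      _ = (1 / 2) ^ t * ((q : ℝ) ^ 5) ^ (q + 1) := by
          rw [mul_assoc, ← pow_add]
          congr 2
          omega
  have h6 : ∑ t ∈ Finset.Icc 1 r, (1 / 2 : ℝ) ^ t < 1 := by
    have : ∀ r : ℕ, ∑ t ∈ Finset.Icc 1 r, (1 / 2 : ℝ) ^ t = 1 - (1 / 2) ^ r := by
      intro r
      induction r with
      | zero => simp
      | succ r ih =>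
        rw [Finset.sum_Icc_succ_top (by omega), ih, pow_succ]
        ring
    rw [this]
    have : (0 : ℝ) < (1 / 2) ^ r := by positivity
    linarith
  rw [← Finset.sum_mul] at h3
  have h7 : (0 : ℝ) < ((q ^ 5 : ℕ) : ℝ) ^ (q + 1) := by positivity
  nlinarith

end CliqueCP
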