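import Pool.Agent.Lib.MP_678664_lc_CP.Defs

/-! # Expanding parity systems: local consistency -/

open Finset

namespace CliqueCP

theorem exists_unsat {q : ℕ} (φ : Fin (q + 1) → Fin 5 → Fin q) :
    ∃ rhs : Fin (q + 1) → Bool, ∀ z, ∃ j, ¬ XSat φ rhs j z := by
  classical
  set R : (Fin q → Bool) → (Fin (q + 1) → Bool) :=
    fun z j => decide (Odd (univ.filter fun p => z (φ j p) = true).card) with hR
  have hns : ¬ Function.Surjective R := by
    intro hs
    have h1 := Fintype.card_le_of_surjective R hs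
    simp only [Fintype.card_fun, Fintype.card_bool, Fintype.card_fin] at h1
    rw [pow_succ] at h1
    have : 0 < 2 ^ q := by positivity
    omega
  unfold Function.Surjective at hns
  push Not at hns
  obtain ⟨rhs, hrhs⟩ := hns
  refine ⟨rhs, fun z => ?_⟩
  by_contra hcon
  push Not at hcon
  apply hrhs z
  funext j
  have h := hcon j
  unfold XSat at h
  simp only [hR]
  cases hb : rhs j
  · rw [hb] at h
    simp only [decide_eq_false_iff_not]
    intro ho
    have := h.mp ho
    simp at this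
  · rw [hb] at h
    simp only [decide_eq_true_eq]
    exact h.mpr rfl

theorem xsat_congr {q m : ℕ} (φ : Fin m → Fin 5 → Fin q) (rhs : Fin m → Bool) (j : Fin m)
    (z z' : Fin q → Bool) (h : ∀ i ∈ xvars φ j, z i = z' i) (hz : XSat φ rhs j z) :
    XSat φ rhs j z' := by
  unfold XSat at hz ⊢
  have : (univ.filter fun p => z' (φ j p) = true) = univ.filter fun p => z (φ j p) = true := by
    apply filter_congr
    intro p _
    rw [h (φ j p) (mem_image_of_mem _ (mem_univ _))]
  rw [this]
  exact hz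

/-- The slots of the constraints in `T` that hold the variable `i`. -/
def slots {q m : ℕ} (φ : Fin m → Fin 5 → Fin q) (T : Finset (Fin m)) (i : Fin q) :
    Finset (Fin m × Fin 5) := (T ×ˢ univ).filter fun jp => φ jp.1 jp.2 = i

/-- The variables in exactly one slot. -/
def uniq {q m : ℕ} (φ : Fin m → Fin 5 → Fin q) (T : Finset (Fin m)) : Finset (Fin q) :=
  (T.biUnion (xvars φ)).filter fun i => (slots φ T i).card = 1

theorem card_uniq {q m : ℕ} (φ : Fin m → Fin 5 → Fin q) (T : Finset (Fin m)) :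
    2 * (T.biUnion (xvars φ)).card ≤ (uniq φ T).card + 5 * T.card := by
  classical
  have h1 : (T ×ˢ (univ : Finset (Fin 5))).card =
      ∑ i ∈ T.biUnion (xvars φ), (slots φ T i).card := by
    apply card_eq_sum_card_fiberwise (f := fun jp : Fin m × Fin 5 => φ jp.1 jp.2)
    intro jp hjp
    have hjp' := (mem_product.mp (mem_coe.mp hjp)).1
    exact mem_coe.mpr (mem_biUnion.mpr ⟨jp.1, hjp', mem_image_of_mem _ (mem_univ _)⟩)
  rw [card_product, card_univ, Fintype.card_fin] at h1
  have hpos : ∀ i ∈ T.biUnion (xvars φ), 1 ≤ (slots φ T i).card := by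
    intro i hi
    obtain ⟨j, hj, hi'⟩ := mem_biUnion.mp hi
    obtain ⟨p, -, hp⟩ := mem_image.mp hi'
    apply card_pos.mpr
    refine ⟨(j, p), mem_filter.mpr ⟨mem_product.mpr ⟨hj, mem_univ _⟩, hp⟩⟩
  have h2 : ∑ i ∈ T.biUnion (xvars φ), (2 - (if (slots φ T i).card = 1 then 1 else 0)) ≤
      ∑ i ∈ T.biUnion (xvars φ), (slots φ T i).card := by
    apply sum_le_sum
    intro i hi
    have := hpos i hi
    split_ifs with h
    · omega
    · omega
  have h3 : ∑ i ∈ T.biUnion (xvars φ), (2 - (if (slots φ T i).card = 1 then 1 else 0)) +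
      (uniq φ T).card = 2 * (T.biUnion (xvars φ)).card := by
    unfold uniq
    rw [card_filter, ← sum_add_distrib]
    have : ∀ i ∈ T.biUnion (xvars φ), (2 - (if (slots φ T i).card = 1 then 1 else 0)) +
        (if (slots φ T i).card = 1 then 1 else 0) = 2 := by
      intro i _
      split_ifs <;> omega
    rw [sum_congr rfl this, sum_const, smul_eq_mul, mul_comm]
  omega

/-- Flipping a variable in exactly one slot. -/
theorem exists_flip {q m : ℕ} (φ : Fin m → Fin 5 → Fin q) (rhs : Fin m → Bool)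
    (T : Finset (Fin m)) (i₀ : Fin q) (hi₀ : i₀ ∈ uniq φ T) :
    ∃ j₀ ∈ T, ∀ z : Fin q → Bool, (∀ j ∈ T.erase j₀, XSat φ rhs j z) →
      ∃ b, ∀ j ∈ T, XSat φ rhs j (Function.update z i₀ b) := by
  classical
  have hc := (mem_filter.mp hi₀).2
  obtain ⟨⟨j₀, p₀⟩, hjp⟩ := card_eq_one.mp hc
  have hmem : (j₀, p₀) ∈ slots φ T i₀ := by rw [hjp]; exact mem_singleton_self _
  have hmem' := mem_filter.mp hmem
  have hj₀ : j₀ ∈ T := (mem_product.mp hmem'.1).1
  have hp₀ : φ j₀ p₀ = i₀ := hmem'.2
  have honly : ∀ j ∈ T, ∀ p, φ j p = i₀ → j = j₀ ∧ p = p₀ := by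
    intro j hj p hp
    have h1 : (j, p) ∈ slots φ T i₀ :=
      mem_filter.mpr ⟨mem_product.mpr ⟨hj, mem_univ _⟩, hp⟩
    rw [hjp, mem_singleton, Prod.mk.injEq] at h1
    exact h1
  refine ⟨j₀, hj₀, fun z hz => ?_⟩
  have hcard : ∀ b : Bool, (univ.filter fun p => Function.update z i₀ b (φ j₀ p) = true).card =
      ((univ.erase p₀).filter fun p => z (φ j₀ p) = true).card + (if b = true then 1 else 0) := by
    intro b
    have h1 : (univ : Finset (Fin 5)) = insert p₀ (univ.erase p₀) :=
      (insert_erase (mem_univ p₀)).symm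
    have h2 : ((univ.erase p₀).filter fun p => Function.update z i₀ b (φ j₀ p) = true) =
        (univ.erase p₀).filter fun p => z (φ j₀ p) = true := by
      apply filter_congr
      intro p hp
      have hne : φ j₀ p ≠ i₀ := by
        intro h
        exact (mem_erase.mp hp).1 (honly j₀ hj₀ p h).2
      rw [Function.update_of_ne hne]
    rw [h1, filter_insert, hp₀, Function.update_self, erase_insert_eq_erase, erase_idem, h2]
    split_ifs with hb
    · rw [card_insert_of_notMem]
      intro h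
      exact (mem_erase.mp (mem_filter.mp h).1).1 rfl
    · rfl
  have hother : ∀ b, ∀ j ∈ T, j ≠ j₀ → XSat φ rhs j (Function.update z i₀ b) := by
    intro b j hj hne
    refine xsat_congr φ rhs j z _ ?_ (hz j (mem_erase.mpr ⟨hne, hj⟩))
    intro i hi
    obtain ⟨p, -, hp⟩ := mem_image.mp hi
    have : i ≠ i₀ := by
      intro h
      rw [h] at hp
      exact hne (honly j hj p hp).1
    rw [Function.update_of_ne this]
  have hgood : ∃ b, XSat φ rhs j₀ (Function.update z i₀ b) := by
    unfold XSat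
    simp only [hcard]
    rcases Nat.even_or_odd ((univ.erase p₀).filter fun p => z (φ j₀ p) = true).card with he | ho
    · refine ⟨rhs j₀, ?_⟩
      cases rhs j₀
      · simp [he]
      · simpa using he.add_one
    · refine ⟨!(rhs j₀), ?_⟩
      cases rhs j₀
      · simpa using ho.add_one
      · simpa using ho
  obtain ⟨b, hb⟩ := hgood
  refine ⟨b, fun j hj => ?_⟩
  by_cases hne : j = j₀
  · rw [hne]; exact hb
  · exact hother b j hj hne

/-- If `ρ` on `K` is consistent with all small subsystems of `T`, then with `T`. -/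
theorem core_sat {q m : ℕ} {φ : Fin m → Fin 5 → Fin q} {rhs : Fin m → Bool} {r : ℕ}
    (hφ : Expands φ r) (K : Finset (Fin q)) (ρ : Fin q → Bool) (T : Finset (Fin m))
    (hT : T.card ≤ r)
    (hsmall : ∀ T' ⊆ T, T'.card ≤ K.card →
      ∃ z : Fin q → Bool, (∀ i ∈ K, z i = ρ i) ∧ ∀ j ∈ T', XSat φ rhs j z) :
    ∃ z : Fin q → Bool, (∀ i ∈ K, z i = ρ i) ∧ ∀ j ∈ T, XSat φ rhs j z := by
  classical
  induction hc : T.card using Nat.strong_induction_on generalizing T with
  | _ c ih =>
    by_cases hTK : T.card ≤ K.card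
    · exact hsmall T (Subset.refl _) hTK
    · push Not at hTK
      have h1 := hφ T hT
      have h2 := card_uniq φ T
      have h3 : K.card < (uniq φ T).card := by omega
      obtain ⟨i₀, hi₀, hi₀K⟩ := exists_mem_notMem_of_card_lt_card h3
      obtain ⟨j₀, hj₀, hflip⟩ := exists_flip φ rhs T i₀ hi₀
      have hcard := card_erase_of_mem hj₀
      have hTpos : 0 < T.card := card_pos.mpr ⟨j₀, hj₀⟩
      obtain ⟨z, hzK, hzT⟩ := ih (T.erase j₀).card (by omega) (T.erase j₀) (by omega)
        (fun T' hT' hc' => hsmall T' (hT'.trans (erase_subset _ _)) hc') rfl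
      obtain ⟨b, hb⟩ := hflip z hzT
      refine ⟨Function.update z i₀ b, ?_, hb⟩
      intro i hi
      have : i ≠ i₀ := fun h => hi₀K (h ▸ hi)
      rw [Function.update_of_ne this]
      exact hzK i hi

theorem cons_empty {q m : ℕ} (φ : Fin m → Fin 5 → Fin q) (rhs : Fin m → Bool) (r : ℕ)
    (hφ : Expands φ r) (ρ : Fin q → Bool) : Cons φ rhs r ∅ ρ := by
  intro T hT
  refine core_sat hφ ∅ ρ T (by omega) ?_
  intro T' _ hT'
  refine ⟨ρ, fun _ _ => rfl, ?_⟩
  intro j hj
  rw [card_empty, Nat.le_zero, card_eq_zero] at hT'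
  rw [hT'] at hj
  simp at hj

theorem Cons.mono {q m : ℕ} {φ : Fin m → Fin 5 → Fin q} {rhs : Fin m → Bool} {r : ℕ}
    {K K' : Finset (Fin q)} {ρ : Fin q → Bool} (h : Cons φ rhs r K ρ) (hK : K' ⊆ K) :
    Cons φ rhs r K' ρ := by
  intro T hT
  obtain ⟨z, h1, h2⟩ := h T hT
  exact ⟨z, fun i hi => h1 i (hK hi), h2⟩

theorem Cons.congr {q m : ℕ} {φ : Fin m → Fin 5 → Fin q} {rhs : Fin m → Bool} {r : ℕ}
    {K : Finset (Fin q)} {ρ ρ' : Fin q → Bool} (h : Cons φ rhs r K ρ)
    (hρ : ∀ i ∈ K, ρ i = ρ' i) : Cons φ rhs r K ρ' := by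
  intro T hT
  obtain ⟨z, h1, h2⟩ := h T hT
  exact ⟨z, fun i hi => (h1 i hi).trans (hρ i hi), h2⟩

theorem Cons.extend {q m : ℕ} {φ : Fin m → Fin 5 → Fin q} {rhs : Fin m → Bool} {r : ℕ}
    (hφ : Expands φ r) {K : Finset (Fin q)} {ρ : Fin q → Bool} (h : Cons φ rhs r K ρ)
    (hK : 2 * K.card ≤ r) (i : Fin q) (hi : i ∉ K) :
    ∃ b : Bool, Cons φ rhs r (insert i K) (Function.update ρ i b) := by
  classical
  by_contra hcon
  push Not at hcon
  unfold Cons at hcon
  push Not at hcon
  choose T hT1 hT2 using hcon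
  obtain ⟨z, hzK, hzT⟩ := core_sat hφ K ρ (T true ∪ T false) (by
      have h1 := card_union_le (T true) (T false)
      have h2 := hT1 true
      have h3 := hT1 false
      omega) (fun T' _ hT' => h T' (by omega))
  obtain ⟨j, hj, hjn⟩ := hT2 (z i) z (by
    intro i' hi'
    rcases mem_insert.mp hi' with h1 | h1
    · rw [h1, Function.update_self]
    · have : i' ≠ i := fun h2 => hi (h2 ▸ h1)
      rw [Function.update_of_ne this]
      exact hzK i' h1)
  apply hjn
  apply hzT
  cases hz : z i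
  · rw [hz] at hj; exact mem_union_right _ hj
  · rw [hz] at hj; exact mem_union_left _ hj

/-- Extension to any set of small size. -/
theorem Cons.extendTo {q m : ℕ} {φ : Fin m → Fin 5 → Fin q} {rhs : Fin m → Bool} {r : ℕ}
    (hφ : Expands φ r) {K K' : Finset (Fin q)} {ρ : Fin q → Bool} (h : Cons φ rhs r K ρ)
    (hKK : K ⊆ K') (hK : 2 * K'.card ≤ r) :
    ∃ ρ' : Fin q → Bool, (∀ i ∈ K, ρ' i = ρ i) ∧ Cons φ rhs r K' ρ' := by
  classical
  have key : ∀ D : Finset (Fin q), 2 * (K ∪ D).card ≤ r →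
      ∃ ρ' : Fin q → Bool, (∀ i ∈ K, ρ' i = ρ i) ∧ Cons φ rhs r (K ∪ D) ρ' := by
    intro D
    induction D using Finset.induction_on with
    | empty =>
      intro _
      rw [union_empty]
      exact ⟨ρ, fun _ _ => rfl, h⟩
    | insert i D hiD ih =>
      intro hc
      have hle : (K ∪ D).card ≤ (K ∪ insert i D).card :=
        card_le_card (union_subset_union_right (subset_insert _ _))
      obtain ⟨ρ', h1, h2⟩ := ih (by omega)
      by_cases hi : i ∈ K ∪ D
      · refine ⟨ρ', h1, ?_⟩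
        rw [union_insert, insert_eq_of_mem hi]
        exact h2
      · obtain ⟨b, hb⟩ := h2.extend hφ (by omega) i hi
        refine ⟨Function.update ρ' i b, ?_, ?_⟩
        · intro i' hi'
          have : i' ≠ i := fun h3 => hi (mem_union_left _ (h3 ▸ hi'))
          rw [Function.update_of_ne this]
          exact h1 i' hi'
        · rw [union_insert]
          exact hb
  obtain ⟨ρ', h1, h2⟩ := key K' (by rw [union_eq_right.mpr hKK]; exact hK)
  rw [union_eq_right.mpr hKK] at h2
  exact ⟨ρ', h1, h2⟩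

theorem Cons.sat {q m : ℕ} {φ : Fin m → Fin 5 → Fin q} {rhs : Fin m → Bool} {r : ℕ}
    {K : Finset (Fin q)} {ρ : Fin q → Bool} (h : Cons φ rhs r K ρ) (hr : 2 ≤ r) (j : Fin m)
    (hj : xvars φ j ⊆ K) : XSat φ rhs j ρ := by
  obtain ⟨z, h1, h2⟩ := h {j} (by rw [card_singleton]; omega)
  exact xsat_congr φ rhs j z ρ (fun i hi => h1 i (hj hi)) (h2 j (mem_singleton_self _))

end CliqueCP
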