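import Pool.Agent.Lib.MP_678664_lc_CP.Lifting
import Pool.Agent.Lib.MP_678664_lc_CP.Parity

/-! # The lifting theorem for expanding parity systems -/

open Finset

namespace CliqueCP

theorem card_step (q : ℕ) : Fintype.card (Step q) = 2 * q + 2 := by
  have e : Step q ≃ (Option (Fin q) ⊕ Fin q) ⊕ Unit :=
    { toFun := fun s => match s with
        | .peel o => Sum.inl (Sum.inl o)
        | .fix j => Sum.inl (Sum.inr j)
        | .low => Sum.inr ()
      invFun := fun s => match s with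
        | Sum.inl (Sum.inl o) => .peel o
        | Sum.inl (Sum.inr j) => .fix j
        | Sum.inr _ => .low
      left_inv := by rintro (o | j | _) <;> rfl
      right_inv := by rintro ((o | j) | u) <;> rfl }
  rw [Fintype.card_congr e]
  simp only [Fintype.card_sum, Fintype.card_option, Fintype.card_fin, Fintype.card_unit]
  ring

theorem lifting_explicit (q lam p : ℕ) (hp1 : 1 ≤ p)
    (hp : 2 ^ q * (10 * q + 1) * q * (2 * (4 * (q + 1)) ^ (6 * lam + 2)) * p < 2 ^ p)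
    (g : Fin q → Fin (2 ^ (4 * p)) → Fin (2 ^ (4 * p)) → Bool)
    (hg : GadgetGood g (2 ^ q * (8 * p * q + 2 * q + 1)))
    (m : ℕ) (φ : Fin m → Fin 5 → Fin q) (rhs : Fin m → Bool) (r t s : ℕ)
    (hφ : Expands φ r) (hr : 2 * (4 * lam + 5 * t) ≤ r) (hr2 : 2 ≤ r)
    (hT : Nonempty (TDag g (XSat φ rhs) t s)) :
    2 ^ (p * lam) ≤ 2 * (4 * q + 5) ^ (12 * lam + 3) * s := by
  classical
  obtain ⟨T⟩ := hT
  have hN : 2 ≤ 2 ^ p := by
    calc 2 = 2 ^ 1 := by norm_num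
      _ ≤ 2 ^ p := Nat.pow_le_pow_right (by norm_num) hp1
  have hM : (2 ^ q * (8 * p * q + 2 * q + 1)) * q *
      (2 * (4 * (q + 1)) ^ (6 * lam + 2)) < 2 ^ p := by
    calc (2 ^ q * (8 * p * q + 2 * q + 1)) * q * (2 * (4 * (q + 1)) ^ (6 * lam + 2))
        ≤ (2 ^ q * ((10 * q + 1) * p)) * q * (2 * (4 * (q + 1)) ^ (6 * lam + 2)) := by
          gcongr
          nlinarith
      _ = 2 ^ q * (10 * q + 1) * q * (2 * (4 * (q + 1)) ^ (6 * lam + 2)) * p := by ring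
      _ < 2 ^ p := hp
  have h := lifting_abs (N := 2 ^ p) (lam := lam) (L := 12 * lam + 3) (w := 4 * lam + 5 * t) hN
    (by rw [← pow_mul]; ring_nf) (le_refl _) hM hg (XSat φ rhs) (xvars φ)
    (fun j => by
      unfold xvars
      calc (univ.image (φ j)).card ≤ (univ : Finset (Fin 5)).card := card_image_le
        _ = 5 := by simp)
    (fun j z z' hz h => xsat_congr φ rhs j z z' hz h)
    (Cons φ rhs r) ⟨fun _ => false, cons_empty φ rhs r hφ _⟩
    (fun K K' ρ h hK => h.mono hK)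
    (fun K K' ρ h hK hKc => h.extendTo hφ hK (by omega))
    (fun K ρ j h hj => h.sat hr2 j hj) (by omega) (by omega) T
  rw [card_step] at h
  have h2 : ((2 ^ (p * lam) : ℕ) : ℝ) ≤
      ((2 * (4 * q + 5) ^ (12 * lam + 3) * s : ℕ) : ℝ) := by
    push_cast at h ⊢
    rw [pow_mul]
    calc ((2 : ℝ) ^ p) ^ lam ≤ 2 * (1 + 2 * (2 * (q : ℝ) + 2)) ^ (12 * lam + 3) * s := h
      _ = 2 * (4 * (q : ℝ) + 5) ^ (12 * lam + 3) * s := by ring_nf
  exact_mod_cast h2

theorem sq_lt_two_pow (p : ℕ) (hp : 5 ≤ p) : p * p < 2 ^ p := by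
  induction p, hp using Nat.le_induction with
  | base => norm_num
  | succ p hp ih =>
    rw [pow_succ]
    nlinarith

theorem lifting (q : ℕ) (lam : ℕ) : ∃ C : ℕ, ∃ p₀ : ℕ, ∀ p ≥ p₀,
    ∀ g : Fin q → Fin (2 ^ (4 * p)) → Fin (2 ^ (4 * p)) → Bool,
    GadgetGood g (2 ^ q * (8 * p * q + 2 * q + 1)) →
    ∀ (m : ℕ) (φ : Fin m → Fin 5 → Fin q) (rhs : Fin m → Bool) (r t s : ℕ),
    Expands φ r → 2 * (4 * lam + 5 * t) ≤ r → 2 ≤ r →
    Nonempty (TDag g (XSat φ rhs) t s) → 2 ^ (p * lam) ≤ C * s := by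
  set K0 := 2 ^ q * (10 * q + 1) * q * (2 * (4 * (q + 1)) ^ (6 * lam + 2)) with hK0
  refine ⟨2 * (4 * q + 5) ^ (12 * lam + 3), K0 + 5, ?_⟩
  intro p hp g hg m φ rhs r t s hφ hr hr2 hT
  refine lifting_explicit q lam p (by omega) ?_ g hg m φ rhs r t s hφ hr hr2 hT
  rw [← hK0]
  calc K0 * p ≤ p * p := by
        apply Nat.mul_le_mul_right
        omega
    _ < 2 ^ p := sq_lt_two_pow p (by omega)

end CliqueCP
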