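import Mathlib

/-!
# Cutting planes and resolution refutations of the clique formula: definitions

The clique formula of a graph `G` on the vertex set `Fin n` has a Boolean variable `z i v` for
every position `i : Fin k` and every vertex `v : Fin n` (the `i`-th member of the clique is `v`).
-/

open Finset

namespace CliqueCP

/-- A truth assignment to the variables `z i v`. -/
abbrev Assg (k n : ℕ) := Fin k → Fin n → Bool

/-- A real linear inequality `∑ i, ∑ v, coef i v * z i v ≥ rhs`. -/
structure Ineq (k n : ℕ) where
  coef : Fin k → Fin n → ℝ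
  rhs : ℝ

/-- The inequality holds at the 0/1 point `z`. -/
def Ineq.Holds {k n : ℕ} (I : Ineq k n) (z : Assg k n) : Prop :=
  I.rhs ≤ ∑ i, ∑ v, if z i v = true then I.coef i v else 0

/-- `z` satisfies all constraints of the `k`-clique formula of `G` about the positions in `P`:
every position of `P` holds exactly one vertex, and the vertices at different positions of `P`
are adjacent. -/
def CliqueOn {k n : ℕ} (G : SimpleGraph (Fin n)) (P : Finset (Fin k)) (z : Assg k n) : Prop :=
  (∀ i ∈ P, ∃! v, z i v = true) ∧
    ∀ i ∈ P, ∀ j ∈ P, i ≠ j → ∀ u v, z i u = true → z j v = true → G.Adj u v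

/-- Axioms of locality `t`: the inequality is implied by the constraints of the clique formula
about some `t` positions. -/
def LocalAxiom {k n : ℕ} (G : SimpleGraph (Fin n)) (t : ℕ) (I : Ineq k n) : Prop :=
  ∃ P : Finset (Fin k), P.card ≤ t ∧ ∀ z, CliqueOn G P z → I.Holds z

/-- A refutation with `s` lines: every line is an axiom of locality `t` or is implied (on all
0/1 points) by two earlier lines; some line has no 0/1 solution. -/
structure Refutation {n : ℕ} (G : SimpleGraph (Fin n)) (k t s : ℕ) where
  line : Fin s → Ineq k n
  valid : ∀ m, LocalAxiom G t (line m) ∨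
    ∃ a b, a < m ∧ b < m ∧ ∀ z, (line a).Holds z → (line b).Holds z → (line m).Holds z
  contra : ∃ m, ∀ z, ¬ (line m).Holds z

/-- A split threshold line with respect to the set `P` of positions: the condition
`0 ≤ f z + h z`, where `f` is an arbitrary real function of the variables at the positions in
`P` and `h` an arbitrary real function of the other variables. -/
structure SplitLine (k n : ℕ) (P : Finset (Fin k)) where
  f : Assg k n → ℝ
  h : Assg k n → ℝ
  f_dep : ∀ z z' : Assg k n, (∀ i ∈ P, z i = z' i) → f z = f z'
  h_dep : ∀ z z' : Assg k n, (∀ i, i ∉ P → z i = z' i) → h z = h z'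

/-- The line holds at the 0/1 point `z`. -/
def SplitLine.Holds {k n : ℕ} {P : Finset (Fin k)} (I : SplitLine k n P) (z : Assg k n) :
    Prop := 0 ≤ I.f z + I.h z

/-- A refutation with `s` split threshold lines: every line is implied by the constraints of the
clique formula about some `t` positions, or is implied by two earlier lines; some line has no
0/1 solution. -/
structure SplitRefutation {k n : ℕ} (G : SimpleGraph (Fin n)) (P : Finset (Fin k))
    (t s : ℕ) where
  line : Fin s → SplitLine k n P
  valid : ∀ m, (∃ Q : Finset (Fin k), Q.card ≤ t ∧ ∀ z, CliqueOn G Q z → (line m).Holds z) ∨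
    ∃ a b, a < m ∧ b < m ∧ ∀ z, (line a).Holds z → (line b).Holds z → (line m).Holds z
  contra : ∃ m, ∀ z, ¬ (line m).Holds z

/-- Clauses: sets of literals; the literal `(i, v, true)` is `z i v`, `(i, v, false)` is its
negation. -/
abbrev Clause (k n : ℕ) := Finset (Fin k × Fin n × Bool)

/-- The clauses of the `k`-clique formula of `G`. -/
def IsAxiom {k n : ℕ} (G : SimpleGraph (Fin n)) (C : Clause k n) : Prop :=
  (∃ i : Fin k, C = univ.image fun v => (i, v, true)) ∨
  (∃ (i : Fin k) (u v : Fin n), u ≠ v ∧ C = {(i, u, false), (i, v, false)}) ∨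
  (∃ (i j : Fin k) (u v : Fin n), i ≠ j ∧ ¬ G.Adj u v ∧ C = {(i, u, false), (j, v, false)})

/-- A resolution refutation (with weakening) with `s` clauses of the `k`-clique formula of `G`. -/
structure ResRefutation {n : ℕ} (G : SimpleGraph (Fin n)) (k s : ℕ) where
  line : Fin s → Clause k n
  valid : ∀ m, IsAxiom G (line m) ∨
    (∃ a, a < m ∧ line a ⊆ line m) ∨
    ∃ a b, a < m ∧ b < m ∧ ∃ (i : Fin k) (v : Fin n),
      line a ⊆ insert (i, v, true) (line m) ∧ line b ⊆ insert (i, v, false) (line m)
  contra : ∃ m, line m = ∅

end CliqueCP
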