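import Pool.Agent.Lib.MP_678664_lc_CP.GapFormula

/-! # Cutting planes and resolution refutations as split threshold refutations -/

open Finset

namespace CliqueGap

/-- A linear inequality as a split line. -/
noncomputable def Ineq.split {k n B : ℕ} (I : Ineq k B) (enc : Fin n → Fin B → Bool)
    (P : Finset (Fin k)) : SplitLine k n P := by
  classical
  exact
  { f := fun v => (∑ i ∈ P, ∑ l, if enc (v i) l = true then I.coef i l else 0) - I.rhs
    h := fun v => ∑ i ∈ Pᶜ, ∑ l, if enc (v i) l = true then I.coef i l else 0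
    f_dep := by
      intro v w h
      congr 1
      apply sum_congr rfl
      intro i hi
      rw [h i hi]
    h_dep := by
      intro v w h
      apply sum_congr rfl
      intro i hi
      rw [h i (mem_compl.mp hi)] }

theorem Ineq.split_holds {k n B : ℕ} (I : Ineq k B) (enc : Fin n → Fin B → Bool)
    (P : Finset (Fin k)) (v : Fin k → Fin n) :
    (I.split enc P).Holds v ↔ I.Holds (fun i => enc (v i)) := by
  classical
  unfold SplitLine.Holds Ineq.Holds Ineq.split
  simp only
  have h := sum_add_sum_compl P (fun i => ∑ l, if enc (v i) l = true then I.coef i l else 0)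
  constructor
  · intro h1; linarith
  · intro h1; linarith

theorem Refutation.toSplit {n k t s B : ℕ} {G : SimpleGraph (Fin n)}
    {enc : Fin n → Fin B → Bool}
    (R : Refutation G enc k t s) (P : Finset (Fin k)) : Nonempty (SplitRefutation G P t s) := by
  refine ⟨⟨fun m => (R.line m).split enc P, ?_, ?_⟩⟩
  · intro m
    rcases R.valid m with ⟨Q, hQ, h⟩ | ⟨a, b, ha, hb, hab⟩
    · left
      refine ⟨Q, hQ, fun v hv => ?_⟩
      rw [Ineq.split_holds]
      exact h _ ⟨v, fun i _ => rfl, hv⟩
    · right
      refine ⟨a, b, ha, hb, fun v => ?_⟩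
      simp only [Ineq.split_holds]
      exact hab _
  · obtain ⟨m, hm⟩ := R.contra
    refine ⟨m, fun v => ?_⟩
    rw [Ineq.split_holds]
    exact hm _

/-! ## Resolution -/

/-- The inequality of a clause. -/
def clauseIneq {k n : ℕ} (C : Clause k n) : Ineq k n where
  coef i v := (if (i, v, true) ∈ C then 1 else 0) - (if (i, v, false) ∈ C then 1 else 0)
  rhs := 1 - ∑ i, ∑ v, if (i, v, false) ∈ C then (1 : ℝ) else 0

/-- The truth value of a clause. -/
def ClauseTrue {k n : ℕ} (C : Clause k n) (z : Fin k → Fin n → Bool) : Prop :=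
  ∃ i v, (i, v, z i v) ∈ C

theorem clauseIneq_holds {k n : ℕ} (C : Clause k n) (z : Fin k → Fin n → Bool) :
    (clauseIneq C).Holds z ↔ ClauseTrue C z := by
  classical
  unfold Ineq.Holds clauseIneq
  simp only
  have hsum : (∑ i, ∑ v, if z i v = true then
        ((if (i, v, true) ∈ C then (1 : ℝ) else 0) - (if (i, v, false) ∈ C then 1 else 0)) else 0)
      + ∑ i, ∑ v, (if (i, v, false) ∈ C then (1 : ℝ) else 0)
      = ∑ i, ∑ v, if (i, v, z i v) ∈ C then (1 : ℝ) else 0 := by
    rw [← Finset.sum_add_distrib]
    refine Finset.sum_congr rfl fun i _ => ?_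
    rw [← Finset.sum_add_distrib]
    refine Finset.sum_congr rfl fun v _ => ?_
    cases z i v <;> simp
  have hnn : ∀ i v, (0 : ℝ) ≤ if (i, v, z i v) ∈ C then (1 : ℝ) else 0 := by
    intro i v; split_ifs <;> norm_num
  constructor
  · intro h
    by_contra hno
    unfold ClauseTrue at hno
    push Not at hno
    have h0 : (∑ i, ∑ v, if (i, v, z i v) ∈ C then (1 : ℝ) else 0) = 0 := by
      refine Finset.sum_eq_zero fun i _ => Finset.sum_eq_zero fun v _ => ?_
      rw [if_neg (hno i v)]
    linarith
  · rintro ⟨i, v, hiv⟩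
    have h1 : (1 : ℝ) ≤ ∑ i, ∑ v, if (i, v, z i v) ∈ C then (1 : ℝ) else 0 := by
      calc (1 : ℝ) = if (i, v, z i v) ∈ C then (1 : ℝ) else 0 := by rw [if_pos hiv]
        _ ≤ ∑ v, if (i, v, z i v) ∈ C then (1 : ℝ) else 0 :=
          Finset.single_le_sum (f := fun v => if (i, v, z i v) ∈ C then (1 : ℝ) else 0)
            (fun v _ => hnn i v) (mem_univ v)
        _ ≤ ∑ i, ∑ v, if (i, v, z i v) ∈ C then (1 : ℝ) else 0 :=
          Finset.single_le_sum (f := fun i => ∑ v, if (i, v, z i v) ∈ C then (1 : ℝ) else 0)
            (fun i _ => Finset.sum_nonneg fun v _ => hnn i v) (mem_univ i)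
    linarith

theorem ClauseTrue.mono {k n : ℕ} {C D : Clause k n} {z : Fin k → Fin n → Bool}
    (h : ClauseTrue C z) (hCD : C ⊆ D) : ClauseTrue D z := by
  obtain ⟨i, v, hiv⟩ := h
  exact ⟨i, v, hCD hiv⟩

theorem isAxiom_local {k n : ℕ} {G : SimpleGraph (Fin n)} {C : Clause k n}
    (h : IsAxiom G C) : ∃ P : Finset (Fin k), P.card ≤ 2 ∧
      ∀ z, CliqueOn G (unary n) P z → (clauseIneq C).Holds z := by
  classical
  rcases h with ⟨i, rfl⟩ | ⟨i, u, v, huv, rfl⟩ | ⟨i, j, u, v, hij, hadj, rfl⟩
  · refine ⟨{i}, by simp, fun z hz => ?_⟩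
    rw [clauseIneq_holds]
    obtain ⟨w, hw, -⟩ := hz
    refine ⟨i, w i, ?_⟩
    have h1 : z i (w i) = true := by
      rw [hw i (mem_singleton_self i)]
      simp [unary]
    rw [h1]
    exact mem_image_of_mem _ (mem_univ _)
  · refine ⟨{i}, by simp, fun z hz => ?_⟩
    rw [clauseIneq_holds]
    obtain ⟨w, hw, -⟩ := hz
    have hwi := hw i (mem_singleton_self i)
    by_cases hu : u = w i
    · refine ⟨i, v, ?_⟩
      have h1 : z i v = false := by
        rw [hwi]
        simp only [unary, decide_eq_false_iff_not]
        rintro rfl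
        exact huv hu
      rw [h1]
      exact mem_insert_of_mem (mem_singleton_self _)
    · refine ⟨i, u, ?_⟩
      have h1 : z i u = false := by
        rw [hwi]
        simp only [unary, decide_eq_false_iff_not]
        exact hu
      rw [h1]
      exact mem_insert_self _ _
  · refine ⟨{i, j}, Finset.card_le_two, fun z hz => ?_⟩
    rw [clauseIneq_holds]
    obtain ⟨w, hw, hwa⟩ := hz
    have hwi := hw i (by simp)
    have hwj := hw j (by simp)
    by_cases hu : u = w i
    · refine ⟨j, v, ?_⟩
      have h1 : z j v = false := by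
        rw [hwj]
        simp only [unary, decide_eq_false_iff_not]
        rintro rfl
        apply hadj
        rw [hu]
        exact hwa i (by simp) j (by simp) hij
      rw [h1]
      exact mem_insert_of_mem (mem_singleton_self _)
    · refine ⟨i, u, ?_⟩
      have h1 : z i u = false := by
        rw [hwi]
        simp only [unary, decide_eq_false_iff_not]
        exact hu
      rw [h1]
      exact mem_insert_self _ _

/-- A resolution refutation is a cutting planes refutation with axioms of locality two. -/
theorem ResRefutation.toRefutation {n k s : ℕ} {G : SimpleGraph (Fin n)}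
    (R : ResRefutation G k s) : Nonempty (Refutation G (unary n) k 2 s) := by
  classical
  refine ⟨⟨fun m => clauseIneq (R.line m), ?_, ?_⟩⟩
  · intro m
    rcases R.valid m with h | ⟨a, ha, hsub⟩ | ⟨a, b, ha, hb, i, v, h1, h2⟩
    · exact Or.inl (isAxiom_local h)
    · right
      refine ⟨a, a, ha, ha, fun z hz _ => ?_⟩
      rw [clauseIneq_holds] at hz ⊢
      exact hz.mono hsub
    · right
      refine ⟨a, b, ha, hb, fun z hz hz' => ?_⟩
      rw [clauseIneq_holds] at hz hz' ⊢
      cases hzv : z i v
      · obtain ⟨i', v', h⟩ := hz.mono h1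
        rw [mem_insert] at h
        rcases h with h | h
        · simp only [Prod.mk.injEq] at h
          obtain ⟨rfl, rfl, h⟩ := h
          rw [hzv] at h
          exact absurd h (by simp)
        · exact ⟨i', v', h⟩
      · obtain ⟨i', v', h⟩ := hz'.mono h2
        rw [mem_insert] at h
        rcases h with h | h
        · simp only [Prod.mk.injEq] at h
          obtain ⟨rfl, rfl, h⟩ := h
          rw [hzv] at h
          exact absurd h (by simp)
        · exact ⟨i', v', h⟩
  · obtain ⟨m, hm⟩ := R.contra
    refine ⟨m, fun z hz => ?_⟩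
    rw [clauseIneq_holds, hm] at hz
    obtain ⟨i, v, h⟩ := hz
    exact absurd h (by simp)

end CliqueGap
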