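import Pool.Agent.Lib.MP_678664_lc_CP.Expander

/-! Existence of expanding constraint systems with `32 q` constraints. -/

open Finset

namespace CliqueCP

namespace GapExpanderAux

open ExpanderAux

theorem term_le {q t : ℕ} (hq : 0 < q) (ht : 0 < t) (htq : 50000 * t ≤ q) :
    ((32 * q).choose t : ℝ) * (q.choose (3 * t) : ℝ) * (((3 * t : ℕ) : ℝ) ^ 5) ^ t
      ≤ (1 / 2) ^ t * ((q : ℝ) ^ 5) ^ t := by
  have h1 := choose_le (32 * q) t ht
  have h2 := choose_le q (3 * t) (by omega)
  have hq' : (1 : ℝ) ≤ q := by exact_mod_cast hq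
  have ht' : (0 : ℝ) < t := by exact_mod_cast ht
  have htq' : (50000 : ℝ) * t ≤ q := by exact_mod_cast htq
  have e2 : (3 * (q : ℝ) / ((3 * t : ℕ) : ℝ)) ^ (3 * t) = (((q : ℝ) / t) ^ 3) ^ t := by
    rw [pow_mul]
    congr 2
    push_cast
    field_simp
  rw [e2] at h2
  calc ((32 * q).choose t : ℝ) * (q.choose (3 * t) : ℝ) * (((3 * t : ℕ) : ℝ) ^ 5) ^ t
      ≤ (3 * ((32 * q : ℕ) : ℝ) / t) ^ t * (((q : ℝ) / t) ^ 3) ^ t
          * (((3 * t : ℕ) : ℝ) ^ 5) ^ t := by gcongr
    _ = (3 * ((32 * q : ℕ) : ℝ) / t * ((q : ℝ) / t) ^ 3 * ((3 * t : ℕ) : ℝ) ^ 5) ^ t := by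
        rw [mul_pow, mul_pow]
    _ ≤ (1 / 2 * (q : ℝ) ^ 5) ^ t := by
        apply pow_le_pow_left₀ (by positivity)
        have : 3 * ((32 * q : ℕ) : ℝ) / t * ((q : ℝ) / t) ^ 3 * ((3 * t : ℕ) : ℝ) ^ 5
            = 729 * (32 * (q : ℝ)) * q ^ 3 * t := by
          push_cast
          field_simp
          ring
        rw [this]
        calc 729 * (32 * (q : ℝ)) * q ^ 3 * t = 23328 * (t : ℝ) * (q : ℝ) ^ 4 := by ring
          _ ≤ 1 / 2 * (q : ℝ) * (q : ℝ) ^ 4 := by
              apply mul_le_mul_of_nonneg_right _ (by positivity)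
              linarith
          _ = 1 / 2 * (q : ℝ) ^ 5 := by ring
    _ = (1 / 2) ^ t * ((q : ℝ) ^ 5) ^ t := by rw [mul_pow]

end GapExpanderAux

open ExpanderAux in
theorem exists_gap_expander (q : ℕ) (hq0 : 0 < q) : ∃ φ : Fin (32 * q) → Fin 5 → Fin q,
    Expands φ (q / 50000) := by
  classical
  by_contra hcon
  push Not at hcon
  set r := q / 50000 with hr
  -- the union bound
  set A : Finset (Fin (32 * q)) → Finset (Fin q) → Finset (Fin (32 * q) → Fin 5 → Fin q) :=
    fun T S => univ.filter fun φ => ∀ j ∈ T, ∀ s, φ j s ∈ S with hA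
  have hcover : (univ : Finset (Fin (32 * q) → Fin 5 → Fin q)) ⊆
      (Finset.Icc 1 r).biUnion fun t => (powersetCard t univ).biUnion fun T =>
        (powersetCard (3 * t) univ).biUnion fun S => A T S := by
    intro φ _
    have h := hcon φ
    unfold Expands at h
    push Not at h
    obtain ⟨T, hT, hTc⟩ := h
    have hT0 : 0 < T.card := by
      rcases Nat.eq_zero_or_pos T.card with h0 | h0
      · rw [h0] at hTc; omega
      · exact h0
    have h3q : 3 * T.card ≤ q := by
      have : T.card ≤ q / 50000 := hT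
      omega
    obtain ⟨S, hS1, hS2⟩ := Finset.exists_superset_card_eq (s := T.biUnion (xvars φ))
      (n := 3 * T.card) hTc.le (by simpa using h3q)
    simp only [mem_biUnion]
    refine ⟨T.card, Finset.mem_Icc.2 ⟨hT0, hT⟩, T, ?_, S, ?_, ?_⟩
    · simp [mem_powersetCard]
    · simp [mem_powersetCard, hS2]
    · simp only [hA, mem_filter, mem_univ, true_and]
      intro j hj s
      apply hS1
      simp only [mem_biUnion]
      exact ⟨j, hj, by simp [xvars]⟩
  have hcard := Finset.card_le_card hcover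
  have h1 : (univ : Finset (Fin (32 * q) → Fin 5 → Fin q)).card = (q ^ 5) ^ (32 * q) := by
    simp
  have h2 : ((Finset.Icc 1 r).biUnion fun t => (powersetCard t
      (univ : Finset (Fin (32 * q)))).biUnion fun T =>
        (powersetCard (3 * t) (univ : Finset (Fin q))).biUnion fun S => A T S).card
      ≤ ∑ t ∈ Finset.Icc 1 r, (32 * q).choose t * (q.choose (3 * t) *
          (((3 * t) ^ 5) ^ t * (q ^ 5) ^ (32 * q - t))) := by
    refine Finset.card_biUnion_le.trans (Finset.sum_le_sum fun t _ => ?_)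
    refine (Finset.card_biUnion_le_card_mul _ _ (q.choose (3 * t) *
          (((3 * t) ^ 5) ^ t * (q ^ 5) ^ (32 * q - t))) ?_).trans ?_
    · intro T hT
      refine (Finset.card_biUnion_le_card_mul _ _
          (((3 * t) ^ 5) ^ t * (q ^ 5) ^ (32 * q - t)) ?_).trans ?_
      · intro S hS
        rw [hA]
        simp only
        rw [card_maps, (mem_powersetCard.1 hT).2, (mem_powersetCard.1 hS).2]
      · simp
    · simp
  have h3 : ((q ^ 5 : ℕ) ^ (32 * q) : ℝ) ≤ ∑ t ∈ Finset.Icc 1 r, (1 / 2 : ℝ) ^ t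
      * ((q ^ 5 : ℕ) : ℝ) ^ (32 * q) := by
    rw [h1] at hcard
    have h4 : (((q ^ 5) ^ (32 * q) : ℕ) : ℝ) ≤ ((∑ t ∈ Finset.Icc 1 r, (32 * q).choose t *
        (q.choose (3 * t) * (((3 * t) ^ 5) ^ t * (q ^ 5) ^ (32 * q - t))) : ℕ) : ℝ) := by
      exact_mod_cast hcard.trans h2
    rw [Nat.cast_sum] at h4
    push_cast at h4 ⊢
    refine h4.trans (Finset.sum_le_sum fun t ht => ?_)
    obtain ⟨ht1, ht2⟩ := Finset.mem_Icc.1 ht
    have htq : 50000 * t ≤ q := by omega
    have hle : t ≤ 32 * q := by omega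
    have h5 := GapExpanderAux.term_le hq0 (by omega : 0 < t) htq
    push_cast at h5
    calc ((32 * q).choose t : ℝ) * ((q.choose (3 * t) : ℝ) * (((3 * (t : ℝ)) ^ 5) ^ t
          * ((q : ℝ) ^ 5) ^ (32 * q - t)))
        = (((32 * q).choose t : ℝ) * (q.choose (3 * t) : ℝ) * ((3 * (t : ℝ)) ^ 5) ^ t)
          * ((q : ℝ) ^ 5) ^ (32 * q - t) := by ring
      _ ≤ ((1 / 2) ^ t * ((q : ℝ) ^ 5) ^ t) * ((q : ℝ) ^ 5) ^ (32 * q - t) := by
          gcongr
      _ = (1 / 2) ^ t * ((q : ℝ) ^ 5) ^ (32 * q) := by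
          rw [mul_assoc, ← pow_add]
          congr 2
          omega
  have h6 : ∑ t ∈ Finset.Icc 1 r, (1 / 2 : ℝ) ^ t < 1 := by
    have : ∀ r : ℕ, ∑ t ∈ Finset.Icc 1 r, (1 / 2 : ℝ) ^ t = 1 - (1 / 2) ^ r := by
      intro r
      induction r with
      | zero => simp
      | succ r ih =>
        rw [Finset.sum_Icc_succ_top (by omega), ih, pow_succ]
        ring
    rw [this]
    have : (0 : ℝ) < (1 / 2) ^ r := by positivity
    linarith
  rw [← Finset.sum_mul] at h3
  have h7 : (0 : ℝ) < ((q ^ 5 : ℕ) : ℝ) ^ (32 * q) := by positivity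
  nlinarith

/-- Some right-hand side makes every assignment violate more than `12 q` of the `32 q`
constraints. -/
theorem exists_gap_rhs {q : ℕ} (hq : 0 < q) (φ : Fin (32 * q) → Fin 5 → Fin q) :
    ∃ rhs : Fin (32 * q) → Bool, ∀ (z : Fin q → Bool) (T : Finset (Fin (32 * q))),
      (∀ j ∈ T, XSat φ rhs j z) → T.card < 20 * q := by
  classical
  by_contra hcon
  push Not at hcon
  -- weight of a right-hand side with respect to an assignment
  let w : (Fin q → Bool) → (Fin (32 * q) → Bool) → ℕ := fun z rhs =>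
    ∏ j, if (Odd (univ.filter fun p => z (φ j p) = true).card ↔ rhs j = true) then 2 else 1
  have hw : ∀ z, ∑ rhs, w z rhs = 3 ^ (32 * q) := by
    intro z
    have h := Finset.prod_univ_sum (fun _ : Fin (32 * q) => (univ : Finset Bool))
      (fun j b => if (Odd (univ.filter fun p => z (φ j p) = true).card ↔ b = true)
        then (2 : ℕ) else 1)
    have h2 : ∀ j : Fin (32 * q), (∑ b : Bool,
        if (Odd (univ.filter fun p => z (φ j p) = true).card ↔ b = true)
        then (2 : ℕ) else 1) = 3 := by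
      intro j
      by_cases ho : Odd (univ.filter fun p => z (φ j p) = true).card <;> simp [ho]
    rw [Finset.prod_congr rfl (fun j _ => h2 j)] at h
    simp only [Fintype.piFinset_univ] at h
    simp only [w]
    rw [← h]
    simp
  have hbad : ∀ rhs, ∃ z, 2 ^ (20 * q) ≤ w z rhs := by
    intro rhs
    obtain ⟨z, T, hT, hc⟩ := hcon rhs
    refine ⟨z, ?_⟩
    calc 2 ^ (20 * q) ≤ 2 ^ T.card := Nat.pow_le_pow_right (by norm_num) hc
      _ = ∏ j ∈ T, 2 := by rw [Finset.prod_const]
      _ = ∏ j ∈ T, (if (Odd (univ.filter fun p => z (φ j p) = true).card ↔ rhs j = true)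
            then 2 else 1) := by
          apply Finset.prod_congr rfl
          intro j hj
          have h1 : (Odd (univ.filter fun p => z (φ j p) = true).card ↔ rhs j = true) := hT j hj
          rw [if_pos h1]
      _ ≤ w z rhs := by
          apply Finset.prod_le_prod_of_subset_of_one_le' (subset_univ T)
          intro j _ _
          split_ifs <;> norm_num
  have h1 : Fintype.card (Fin (32 * q) → Bool) * 2 ^ (20 * q) ≤
      ∑ rhs : Fin (32 * q) → Bool, ∑ z : Fin q → Bool, w z rhs := by
    calc Fintype.card (Fin (32 * q) → Bool) * 2 ^ (20 * q)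
        = ∑ _rhs : Fin (32 * q) → Bool, 2 ^ (20 * q) := by
          rw [Finset.sum_const, Finset.card_univ, smul_eq_mul]
      _ ≤ _ := by
          apply Finset.sum_le_sum
          intro rhs _
          obtain ⟨z, hz⟩ := hbad rhs
          exact hz.trans (Finset.single_le_sum (f := fun z => w z rhs)
            (fun _ _ => Nat.zero_le _) (mem_univ z))
  rw [Finset.sum_comm, Finset.sum_congr rfl (fun z _ => hw z), Finset.sum_const,
    Finset.card_univ, smul_eq_mul] at h1
  simp only [Fintype.card_fun, Fintype.card_bool, Fintype.card_fin] at h1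
  have h2 : (2 : ℕ) ^ (32 * q) * 2 ^ (20 * q) = (2 ^ 52) ^ q := by
    rw [← pow_add, ← pow_mul]
    congr 1
    ring
  have h3 : (2 : ℕ) ^ q * 3 ^ (32 * q) = (2 * 3 ^ 32) ^ q := by
    rw [mul_pow, ← pow_mul]
  rw [h2, h3] at h1
  have h4 : ((2 : ℕ) * 3 ^ 32) ^ q < (2 ^ 52) ^ q :=
    Nat.pow_lt_pow_left (by norm_num) hq.ne'
  omega

/-- Groups of constraints: every family of `θ` groups contains all but `6 q` constraints. -/
theorem exists_groups {q K θ ℓ : ℕ} (hq : 0 < q) (hK : 32 * q ≤ K) (hθ : 7 * K ≤ ℓ * θ) :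
    ∃ ψ : Fin K → Fin ℓ → Fin (32 * q), ∀ I : Finset (Fin K), θ ≤ I.card →
      26 * q ≤ (I.biUnion fun i => univ.image (ψ i)).card := by
  classical
  by_contra hcon
  push Not at hcon
  -- the number of maps with the groups in `I` inside `S`
  let A : Finset (Fin K) → Finset (Fin (32 * q)) → Finset (Fin K → Fin ℓ → Fin (32 * q)) :=
    fun I S => univ.filter fun ψ => ∀ i ∈ I, ∀ c, ψ i c ∈ S
  have hA : ∀ I S, (A I S).card = (S.card ^ ℓ) ^ I.card * ((32 * q) ^ ℓ) ^ (K - I.card) := by
    intro I S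
    have h : A I S = Fintype.piFinset (fun i => if i ∈ I then
        Fintype.piFinset (fun _ : Fin ℓ => S) else univ) := by
      ext ψ
      simp only [A, mem_filter, mem_univ, true_and, Fintype.mem_piFinset]
      constructor
      · intro h i
        by_cases hi : i ∈ I
        · simp only [hi, if_true, Fintype.mem_piFinset]
          exact h i hi
        · simp [hi]
      · intro h i hi c
        have := h i
        simp only [hi, if_true, Fintype.mem_piFinset] at this
        exact this c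
    rw [h, Fintype.card_piFinset]
    have h2 : ∀ i : Fin K, (if i ∈ I then Fintype.piFinset (fun _ : Fin ℓ => S)
        else (univ : Finset (Fin ℓ → Fin (32 * q)))).card =
        if i ∈ I then S.card ^ ℓ else (32 * q) ^ ℓ := by
      intro i
      split_ifs
      · simp
      · simp
    rw [Finset.prod_congr rfl (fun i _ => h2 i), Finset.prod_ite, Finset.prod_const,
      Finset.prod_const]
    congr 2
    · rw [Finset.filter_mem_eq_inter, Finset.univ_inter]
    · have : (univ.filter fun j : Fin K => ¬ j ∈ I) = univ \ I := by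
        ext; simp
      rw [this, Finset.card_sdiff_of_subset (subset_univ I)]
      simp
  have hcover : (univ : Finset (Fin K → Fin ℓ → Fin (32 * q))) ⊆
      (univ.filter fun I : Finset (Fin K) => θ ≤ I.card).biUnion fun I =>
        (univ.filter fun S : Finset (Fin (32 * q)) => S.card = 26 * q).biUnion fun S => A I S := by
    intro ψ _
    obtain ⟨I, hI, hc⟩ := hcon ψ
    obtain ⟨S, hS1, hS2⟩ := Finset.exists_superset_card_eq
      (s := I.biUnion fun i => univ.image (ψ i)) (n := 26 * q) hc.le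
      (by rw [Fintype.card_fin]; omega)
    simp only [mem_biUnion, mem_filter, mem_univ, true_and, A]
    refine ⟨I, hI, S, hS2, fun i hi c => hS1 ?_⟩
    rw [mem_biUnion]
    exact ⟨i, hi, mem_image_of_mem _ (mem_univ c)⟩
  have hcard := Finset.card_le_card hcover
  have htot : (univ : Finset (Fin K → Fin ℓ → Fin (32 * q))).card = ((32 * q) ^ ℓ) ^ K := by
    simp
  -- each pair contributes little
  have hq2 : 0 < 32 * q := by omega
  have hone : ∀ I : Finset (Fin K), θ ≤ I.card → ∀ S : Finset (Fin (32 * q)),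
      S.card = 26 * q → (A I S).card * 4 ^ K ≤ ((32 * q) ^ ℓ) ^ K - 1 := by
    intro I hI S hS
    apply Nat.le_sub_one_of_lt
    rw [hA, hS]
    have hIK : I.card ≤ K := by
      have := Finset.card_le_univ I
      rwa [Fintype.card_fin] at this
    have hrat : ∀ N : ℕ, 7 * K ≤ N → (26 * q) ^ N * 4 ^ K < (32 * q) ^ N := by
      intro N hN
      obtain ⟨c, rfl⟩ := Nat.exists_eq_add_of_le hN
      have e1 : (26 * q) ^ (7 * K + c) = (2 * q) ^ (7 * K) * 13 ^ (7 * K) * (26 * q) ^ c := by
        rw [pow_add, ← mul_pow]; ring_nf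
      have e2 : (32 * q) ^ (7 * K + c) = (2 * q) ^ (7 * K) * 16 ^ (7 * K) * (32 * q) ^ c := by
        rw [pow_add, ← mul_pow]; ring_nf
      have h4 : (13 : ℕ) ^ (7 * K) * 4 ^ K < 16 ^ (7 * K) := by
        rw [pow_mul, pow_mul, ← mul_pow]
        exact Nat.pow_lt_pow_left (by norm_num) (by omega)
      have h5 : (26 * q) ^ c ≤ (32 * q) ^ c := Nat.pow_le_pow_left (by omega) c
      have h6 : 0 < (2 * q) ^ (7 * K) := by positivity
      have h7 : 0 < (32 * q) ^ c := by positivity
      rw [e1, e2]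
      calc (2 * q) ^ (7 * K) * 13 ^ (7 * K) * (26 * q) ^ c * 4 ^ K
          = (2 * q) ^ (7 * K) * (13 ^ (7 * K) * 4 ^ K) * (26 * q) ^ c := by ring
        _ ≤ (2 * q) ^ (7 * K) * (13 ^ (7 * K) * 4 ^ K) * (32 * q) ^ c :=
            Nat.mul_le_mul_left _ h5
        _ < (2 * q) ^ (7 * K) * 16 ^ (7 * K) * (32 * q) ^ c :=
            Nat.mul_lt_mul_of_pos_right (Nat.mul_lt_mul_of_pos_left h4 h6) h7
    have hN : 7 * K ≤ ℓ * I.card := hθ.trans (Nat.mul_le_mul_left ℓ hI)
    have h8 : 0 < ((32 * q) ^ ℓ) ^ (K - I.card) := by positivity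
    calc ((26 * q) ^ ℓ) ^ I.card * ((32 * q) ^ ℓ) ^ (K - I.card) * 4 ^ K
        = ((26 * q) ^ (ℓ * I.card) * 4 ^ K) * ((32 * q) ^ ℓ) ^ (K - I.card) := by
          rw [pow_mul]; ring
      _ < (32 * q) ^ (ℓ * I.card) * ((32 * q) ^ ℓ) ^ (K - I.card) :=
          Nat.mul_lt_mul_of_pos_right (hrat _ hN) h8
      _ = ((32 * q) ^ ℓ) ^ K := by
          rw [pow_mul, ← pow_add]
          congr 1
          omega
  set tot := ((32 * q) ^ ℓ) ^ K with htotdef
  have htot0 : 0 < tot := by positivity
  have hsum : tot * 4 ^ K ≤ 4 ^ K * (tot - 1) := by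
    calc tot * 4 ^ K ≤ (∑ I ∈ univ.filter fun I : Finset (Fin K) => θ ≤ I.card,
          ∑ S ∈ univ.filter fun S : Finset (Fin (32 * q)) => S.card = 26 * q,
            (A I S).card) * 4 ^ K := by
          apply Nat.mul_le_mul_right
          rw [← htot]
          refine hcard.trans (Finset.card_biUnion_le.trans (Finset.sum_le_sum fun I _ => ?_))
          exact Finset.card_biUnion_le
      _ = ∑ I ∈ univ.filter fun I : Finset (Fin K) => θ ≤ I.card,
          ∑ S ∈ univ.filter fun S : Finset (Fin (32 * q)) => S.card = 26 * q,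
            (A I S).card * 4 ^ K := by
          rw [Finset.sum_mul]
          exact Finset.sum_congr rfl fun I _ => Finset.sum_mul _ _ _
      _ ≤ ∑ I ∈ univ.filter fun I : Finset (Fin K) => θ ≤ I.card,
          ∑ S ∈ univ.filter fun S : Finset (Fin (32 * q)) => S.card = 26 * q,
            (tot - 1) := by
          apply Finset.sum_le_sum
          intro I hI
          apply Finset.sum_le_sum
          intro S hS
          exact hone I (mem_filter.1 hI).2 S (mem_filter.1 hS).2
      _ ≤ ∑ _I : Finset (Fin K), ∑ _S : Finset (Fin (32 * q)), (tot - 1) := by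
          refine (Finset.sum_le_sum_of_subset (filter_subset _ _)).trans ?_
          apply Finset.sum_le_sum
          intro I _
          exact Finset.sum_le_sum_of_subset (filter_subset _ _)
      _ = 2 ^ K * (2 ^ (32 * q) * (tot - 1)) := by
          simp [Finset.sum_const, Finset.card_univ, smul_eq_mul]
      _ ≤ 2 ^ K * (2 ^ K * (tot - 1)) := by
          apply Nat.mul_le_mul_left
          apply Nat.mul_le_mul_right
          exact Nat.pow_le_pow_right (by norm_num) hK
      _ = 4 ^ K * (tot - 1) := by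
          rw [← mul_assoc, ← mul_pow]
          norm_num
  have h9 : 4 ^ K * (tot - 1) < 4 ^ K * tot :=
    Nat.mul_lt_mul_of_pos_left (by omega) (by positivity)
  rw [mul_comm] at hsum
  omega

end CliqueCP
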