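import Mathlib

/-!
# Cutting planes and resolution refutations of the clique formula, in any encoding: definitions

The clique formula of a graph `G` on the vertex set `Fin n` says that the vertices `v 0`, ...,
`v (k - 1)` (the vertices at the positions `i : Fin k`) are pairwise adjacent. An encoding `enc`
represents the vertex `v i` at every position by the values of `B` Boolean variables `z i l`.
-/

open Finset

namespace CliqueGap

/-- The unary encoding: the variable `z i u` says that the vertex at position `i` is `u`. -/
def unary (n : ℕ) : Fin n → Fin n → Bool := fun v u => decide (u = v)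

/-- A real linear inequality `∑ i, ∑ l, coef i l * z i l ≥ rhs`. -/
structure Ineq (k B : ℕ) where
  coef : Fin k → Fin B → ℝ
  rhs : ℝ

/-- The inequality holds at the 0/1 point `z`. -/
def Ineq.Holds {k B : ℕ} (I : Ineq k B) (z : Fin k → Fin B → Bool) : Prop :=
  I.rhs ≤ ∑ i, ∑ l, if z i l = true then I.coef i l else 0

/-- `z` satisfies all constraints of the `k`-clique formula of `G` about the positions in `P`:
every position of `P` holds the code of a vertex, and the vertices at different positions of `P`
are adjacent. -/
def CliqueOn {k n B : ℕ} (G : SimpleGraph (Fin n)) (enc : Fin n → Fin B → Bool)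
    (P : Finset (Fin k)) (z : Fin k → Fin B → Bool) : Prop :=
  ∃ v : Fin k → Fin n, (∀ i ∈ P, z i = enc (v i)) ∧
    ∀ i ∈ P, ∀ j ∈ P, i ≠ j → G.Adj (v i) (v j)

/-- A refutation in semantic cutting planes with `s` lines: every line is implied by the
constraints of the clique formula about some `t` positions, or is implied (on all 0/1 points) by
two earlier lines; some line has no 0/1 solution. -/
structure Refutation {n B : ℕ} (G : SimpleGraph (Fin n)) (enc : Fin n → Fin B → Bool)
    (k t s : ℕ) where
  line : Fin s → Ineq k B
  valid : ∀ m, (∃ P : Finset (Fin k), P.card ≤ t ∧ ∀ z, CliqueOn G enc P z → (line m).Holds z) ∨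
    ∃ a b, a < m ∧ b < m ∧ ∀ z, (line a).Holds z → (line b).Holds z → (line m).Holds z
  contra : ∃ m, ∀ z, ¬ (line m).Holds z

/-- A split threshold line with respect to the set `P` of positions: the condition
`0 ≤ f v + h v`, where `f` is an arbitrary real function of the vertices at the positions in `P`
and `h` an arbitrary real function of the other vertices. -/
structure SplitLine (k n : ℕ) (P : Finset (Fin k)) where
  f : (Fin k → Fin n) → ℝ
  h : (Fin k → Fin n) → ℝ
  f_dep : ∀ v w : Fin k → Fin n, (∀ i ∈ P, v i = w i) → f v = f w
  h_dep : ∀ v w : Fin k → Fin n, (∀ i, i ∉ P → v i = w i) → h v = h w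

/-- The line holds at the tuple `v` of vertices. -/
def SplitLine.Holds {k n : ℕ} {P : Finset (Fin k)} (I : SplitLine k n P) (v : Fin k → Fin n) :
    Prop := 0 ≤ I.f v + I.h v

/-- A refutation with `s` split threshold lines: every line is implied by the adjacency of the
vertices at some `t` positions, or is implied by two earlier lines; some line has no solution. -/
structure SplitRefutation {k n : ℕ} (G : SimpleGraph (Fin n)) (P : Finset (Fin k))
    (t s : ℕ) where
  line : Fin s → SplitLine k n P
  valid : ∀ m, (∃ Q : Finset (Fin k), Q.card ≤ t ∧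
      ∀ v, (∀ i ∈ Q, ∀ j ∈ Q, i ≠ j → G.Adj (v i) (v j)) → (line m).Holds v) ∨
    ∃ a b, a < m ∧ b < m ∧ ∀ v, (line a).Holds v → (line b).Holds v → (line m).Holds v
  contra : ∃ m, ∀ v, ¬ (line m).Holds v

/-- Clauses in the unary encoding: sets of literals; the literal `(i, v, true)` is `z i v`,
`(i, v, false)` is its negation. -/
abbrev Clause (k n : ℕ) := Finset (Fin k × Fin n × Bool)

/-- The clauses of the `k`-clique formula of `G` in the unary encoding. -/
def IsAxiom {k n : ℕ} (G : SimpleGraph (Fin n)) (C : Clause k n) : Prop :=
  (∃ i : Fin k, C = univ.image fun v => (i, v, true)) ∨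
  (∃ (i : Fin k) (u v : Fin n), u ≠ v ∧ C = {(i, u, false), (i, v, false)}) ∨
  (∃ (i j : Fin k) (u v : Fin n), i ≠ j ∧ ¬ G.Adj u v ∧ C = {(i, u, false), (j, v, false)})

/-- A resolution refutation (with weakening) with `s` clauses of the `k`-clique formula of `G`
in the unary encoding. -/
structure ResRefutation {n : ℕ} (G : SimpleGraph (Fin n)) (k s : ℕ) where
  line : Fin s → Clause k n
  valid : ∀ m, IsAxiom G (line m) ∨
    (∃ a, a < m ∧ line a ⊆ line m) ∨
    ∃ a b, a < m ∧ b < m ∧ ∃ (i : Fin k) (v : Fin n),
      line a ⊆ insert (i, v, true) (line m) ∧ line b ⊆ insert (i, v, false) (line m)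
  contra : ∃ m, line m = ∅

end CliqueGap
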