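import Pool.Agent.Lib.MP_678664_lc_CP.Defs
import Pool.Agent.Lib.MP_678664_lc_CP.GapFormula

/-!
# The graph of a lifted parity system whose positions are groups of constraints

`ψ i` is the list of the `ℓ` constraints of group `i`.
-/

open Finset

namespace CliqueGap

open CliqueCP

/-- Positions: `inl (true, i)` is the part of the `x`-values of group `i`, `inl (false, i)`
that of the `y`-values, `inr u` the `u`-th universal vertex. -/
abbrev Pos (K e : ℕ) := (Bool × Fin K) ⊕ Fin e

/-- Vertices. -/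
abbrev Vtx (K ℓ n e : ℕ) := (Bool × Fin K × (Fin ℓ → Fin 5 → Fin n)) ⊕ Fin e

/-- The part of a vertex. -/
def vpos {K ℓ n e : ℕ} : Vtx K ℓ n e → Pos K e
  | Sum.inl (b, i, _) => Sum.inl (b, i)
  | Sum.inr u => Sum.inr u

/-- The values of a point at the slots of a group. -/
def grp {q m K ℓ n : ℕ} (φ : Fin m → Fin 5 → Fin q) (ψ : Fin K → Fin ℓ → Fin m) (i : Fin K)
    (x : Pt q n) : Fin ℓ → Fin 5 → Fin n := fun c p => x (φ (ψ i c) p)

/-- A row part and a column part of two groups satisfy the common constraints. -/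
def RowCol {q m K ℓ n : ℕ} (φ : Fin m → Fin 5 → Fin q) (ψ : Fin K → Fin ℓ → Fin m)
    (rhs : Fin m → Bool) (g : Fin q → Fin n → Fin n → Bool) (i i' : Fin K)
    (a b : Fin ℓ → Fin 5 → Fin n) : Prop :=
  ∃ x y : Pt q n, a = grp φ ψ i x ∧ b = grp φ ψ i' y ∧
    ∀ c c', ψ i c = ψ i' c' → XSat φ rhs (ψ i c) (gval g x y)

/-- Whether two vertices in different parts are compatible. -/
def Compat {q m K ℓ n e : ℕ} (φ : Fin m → Fin 5 → Fin q) (ψ : Fin K → Fin ℓ → Fin m)
    (rhs : Fin m → Bool) (g : Fin q → Fin n → Fin n → Bool) : Vtx K ℓ n e → Vtx K ℓ n e → Prop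
  | Sum.inl (true, i, a), Sum.inl (true, i', a') =>
      ∃ x : Pt q n, a = grp φ ψ i x ∧ a' = grp φ ψ i' x
  | Sum.inl (false, i, b), Sum.inl (false, i', b') =>
      ∃ y : Pt q n, b = grp φ ψ i y ∧ b' = grp φ ψ i' y
  | Sum.inl (true, i, a), Sum.inl (false, i', b) => RowCol φ ψ rhs g i i' a b
  | Sum.inl (false, i', b), Sum.inl (true, i, a) => RowCol φ ψ rhs g i i' a b
  | Sum.inr _, _ => True
  | Sum.inl _, Sum.inr _ => True

theorem Compat.symm {q m K ℓ n e : ℕ} {φ : Fin m → Fin 5 → Fin q} {ψ : Fin K → Fin ℓ → Fin m}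
    {rhs : Fin m → Bool} {g : Fin q → Fin n → Fin n → Bool} {u v : Vtx K ℓ n e}
    (h : Compat φ ψ rhs g u v) : Compat φ ψ rhs g v u := by
  rcases u with ⟨b, j, a⟩ | u <;> rcases v with ⟨b', j', a'⟩ | v
  · cases b <;> cases b'
    · obtain ⟨x, h1, h2⟩ := h
      exact ⟨x, h2, h1⟩
    · exact h
    · exact h
    · obtain ⟨x, h1, h2⟩ := h
      exact ⟨x, h2, h1⟩
  · trivial
  · cases b' <;> trivial
  · trivial

/-- The graph before padding. -/
def liftGraph {q m K ℓ n : ℕ} (e : ℕ) (φ : Fin m → Fin 5 → Fin q) (ψ : Fin K → Fin ℓ → Fin m)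
    (rhs : Fin m → Bool) (g : Fin q → Fin n → Fin n → Bool) : SimpleGraph (Vtx K ℓ n e) where
  Adj u v := vpos u ≠ vpos v ∧ Compat φ ψ rhs g u v
  symm := ⟨fun _ _ h => ⟨h.1.symm, h.2.symm⟩⟩
  loopless := ⟨fun _ h => h.1 rfl⟩

/-- Two points with the same values at a group give the same truth values of its constraints. -/
theorem xsat_congr_grp {q m K ℓ n : ℕ} (φ : Fin m → Fin 5 → Fin q) (ψ : Fin K → Fin ℓ → Fin m)
    (rhs : Fin m → Bool) (g : Fin q → Fin n → Fin n → Bool) {i i' : Fin K} {c c' : Fin ℓ}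
    (hcc : ψ i c = ψ i' c') {x y x' y' : Pt q n} (hx : grp φ ψ i x = grp φ ψ i x')
    (hy : grp φ ψ i' y = grp φ ψ i' y') (h : XSat φ rhs (ψ i c) (gval g x y)) :
    XSat φ rhs (ψ i c) (gval g x' y') := by
  have hval : ∀ p, gval g x y (φ (ψ i c) p) = gval g x' y' (φ (ψ i c) p) := by
    intro p
    have h1 : x (φ (ψ i c) p) = x' (φ (ψ i c) p) := congrFun (congrFun hx c) p
    have h2 : y (φ (ψ i c) p) = y' (φ (ψ i c) p) := by
      rw [hcc]
      exact congrFun (congrFun hy c') p
    simp only [gval, h1, h2]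
  unfold XSat at h ⊢
  simpa only [hval] using h

/-- A family of value tuples, for the groups in `I`, which are pairwise consistent comes from one
point. -/
theorem exists_point {q m K ℓ n : ℕ} (hn : 0 < n) (φ : Fin m → Fin 5 → Fin q)
    (ψ : Fin K → Fin ℓ → Fin m) (I : Finset (Fin K)) (a : Fin K → Fin ℓ → Fin 5 → Fin n)
    (h : ∀ i ∈ I, ∀ i' ∈ I, ∃ x : Pt q n, a i = grp φ ψ i x ∧ a i' = grp φ ψ i' x) :
    ∃ x : Pt q n, ∀ i ∈ I, a i = grp φ ψ i x := by
  classical
  refine ⟨fun v => if h : ∃ r : Fin K × Fin ℓ × Fin 5, r.1 ∈ I ∧ φ (ψ r.1 r.2.1) r.2.2 = v then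
    a h.choose.1 h.choose.2.1 h.choose.2.2 else ⟨0, hn⟩, fun i hi => ?_⟩
  funext c p
  have hex : ∃ r : Fin K × Fin ℓ × Fin 5, r.1 ∈ I ∧ φ (ψ r.1 r.2.1) r.2.2 = φ (ψ i c) p :=
    ⟨(i, c, p), hi, rfl⟩
  simp only [grp, dif_pos hex]
  obtain ⟨h0, h1⟩ := hex.choose_spec
  obtain ⟨x, h2, h3⟩ := h i hi _ h0
  rw [h3, h2, grp, grp, h1]

/-- The graph has no large clique. -/
theorem liftGraph_cliqueFree {q m K ℓ n e θ A B : ℕ} (hn : 0 < n) (hθ : 1 ≤ θ)
    (φ : Fin m → Fin 5 → Fin q)
    (ψ : Fin K → Fin ℓ → Fin m) (rhs : Fin m → Bool)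
    (hun : ∀ (z : Fin q → Bool) (T : Finset (Fin m)), (∀ j ∈ T, XSat φ rhs j z) → T.card < A)
    (hcov : ∀ I : Finset (Fin K), θ ≤ I.card →
      B ≤ (I.biUnion fun i => univ.image (ψ i)).card)
    (hAB : A + m ≤ 2 * B)
    (g : Fin q → Fin n → Fin n → Bool) :
    (liftGraph e φ ψ rhs g).CliqueFree (K + θ + e) := by
  classical
  intro S hS
  have hcl := hS.isClique
  have hcard := hS.card_eq
  -- the groups of the two sides
  let J : Bool → Finset (Fin K) := fun b => univ.filter fun i => ∃ a, Sum.inl (b, i, a) ∈ S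
  have hinj : Set.InjOn (vpos (K := K) (ℓ := ℓ) (n := n) (e := e)) (S : Set (Vtx K ℓ n e)) := by
    intro u hu v hv huv
    by_contra hne
    exact (hcl hu hv hne).1 huv
  have hle : S.card ≤ (J true).card + (J false).card + e := by
    have h1 : S.image vpos ⊆ ((J true).image fun i => Sum.inl (true, i)) ∪
        ((J false).image fun i => Sum.inl (false, i)) ∪
        (univ : Finset (Fin e)).image Sum.inr := by
      intro P hP
      obtain ⟨v, hv, rfl⟩ := mem_image.1 hP
      rcases v with ⟨b, i, a⟩ | u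
      · cases b
        · refine mem_union_left _ (mem_union_right _ (mem_image_of_mem _ ?_))
          exact mem_filter.2 ⟨mem_univ _, a, hv⟩
        · refine mem_union_left _ (mem_union_left _ (mem_image_of_mem _ ?_))
          exact mem_filter.2 ⟨mem_univ _, a, hv⟩
      · exact mem_union_right _ (mem_image_of_mem _ (mem_univ u))
    rw [← Finset.card_image_of_injOn hinj]
    refine (Finset.card_le_card h1).trans ?_
    refine (Finset.card_union_le _ _).trans ?_
    refine Nat.add_le_add ((Finset.card_union_le _ _).trans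
      (Nat.add_le_add Finset.card_image_le Finset.card_image_le)) ?_
    exact Finset.card_image_le.trans (by simp)
  have hJK : ∀ b, (J b).card ≤ K := by
    intro b
    have := Finset.card_le_univ (J b)
    rwa [Fintype.card_fin] at this
  have ht := hJK true
  have hf := hJK false
  have hbig : θ ≤ (J true).card ∧ θ ≤ (J false).card := by omega
  -- values on the two sides
  let a : Bool → Fin K → Fin ℓ → Fin 5 → Fin n := fun b i =>
    if h : ∃ a, Sum.inl (b, i, a) ∈ S then h.choose else fun _ _ => ⟨0, hn⟩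
  have ha : ∀ b, ∀ i ∈ J b, (Sum.inl (b, i, a b i) : Vtx K ℓ n e) ∈ S := by
    intro b i hi
    have hex := (mem_filter.1 hi).2
    simp only [a, dif_pos hex]
    exact hex.choose_spec
  have hRC : ∀ i ∈ J true, ∀ i' ∈ J false, RowCol φ ψ rhs g i i' (a true i) (a false i') := by
    intro i hi i' hi'
    have hne : (Sum.inl (true, i, a true i) : Vtx K ℓ n e) ≠ Sum.inl (false, i', a false i') := by
      simp
    exact (hcl (ha true i hi) (ha false i' hi') hne).2
  obtain ⟨i₁, hi₁⟩ : (J true).Nonempty := Finset.card_pos.1 (by omega)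
  obtain ⟨i₂, hi₂⟩ : (J false).Nonempty := Finset.card_pos.1 (by omega)
  have hrow : ∀ i ∈ J true, ∀ i' ∈ J true,
      ∃ x : Pt q n, a true i = grp φ ψ i x ∧ a true i' = grp φ ψ i' x := by
    intro i hi i' hi'
    by_cases hii : i = i'
    · subst hii
      obtain ⟨x, y, hx, -, -⟩ := hRC i hi i₂ hi₂
      exact ⟨x, hx, hx⟩
    · have hne : (Sum.inl (true, i, a true i) : Vtx K ℓ n e) ≠
          Sum.inl (true, i', a true i') := by
        simp [hii]
      exact (hcl (ha true i hi) (ha true i' hi') hne).2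
  have hcol : ∀ i ∈ J false, ∀ i' ∈ J false,
      ∃ y : Pt q n, a false i = grp φ ψ i y ∧ a false i' = grp φ ψ i' y := by
    intro i hi i' hi'
    by_cases hii : i = i'
    · subst hii
      obtain ⟨x, y, -, hy, -⟩ := hRC i₁ hi₁ i hi
      exact ⟨y, hy, hy⟩
    · have hne : (Sum.inl (false, i, a false i) : Vtx K ℓ n e) ≠
          Sum.inl (false, i', a false i') := by
        simp [hii]
      exact (hcl (ha false i hi) (ha false i' hi') hne).2
  obtain ⟨x, hx⟩ := exists_point hn φ ψ (J true) (a true) hrow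
  obtain ⟨y, hy⟩ := exists_point hn φ ψ (J false) (a false) hcol
  -- the constraints covered by both sides are satisfied
  let C : Bool → Finset (Fin m) := fun b => (J b).biUnion fun i => univ.image (ψ i)
  have hC1 : B ≤ (C true).card := hcov _ hbig.1
  have hC2 : B ≤ (C false).card := hcov _ hbig.2
  have hsat : ∀ j ∈ C true ∩ C false, XSat φ rhs j (gval g x y) := by
    intro j hj
    rw [mem_inter] at hj
    obtain ⟨i, hi, hj1⟩ := mem_biUnion.1 hj.1
    obtain ⟨i', hi', hj2⟩ := mem_biUnion.1 hj.2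
    obtain ⟨c, -, hc⟩ := mem_image.1 hj1
    obtain ⟨c', -, hc'⟩ := mem_image.1 hj2
    obtain ⟨x', y', hx', hy', hs⟩ := hRC i hi i' hi'
    have hcc : ψ i c = ψ i' c' := by rw [hc, hc']
    have h1 := hs c c' hcc
    have h2 := xsat_congr_grp φ ψ rhs g hcc (x' := x) (y' := y)
      (by rw [← hx', ← hx i hi]) (by rw [← hy', ← hy i' hi']) h1
    rwa [hc] at h2
  have hlt := hun _ _ hsat
  have hun2 : (C true ∪ C false).card ≤ m := by
    have := Finset.card_le_univ (C true ∪ C false)
    rwa [Fintype.card_fin] at this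
  have hie := Finset.card_union_add_card_inter (C true) (C false)
  omega

/-- The vertex selected by the row `x` and the column `y` at a position. -/
def selVtx {q m K ℓ n e : ℕ} (φ : Fin m → Fin 5 → Fin q) (ψ : Fin K → Fin ℓ → Fin m)
    (x y : Pt q n) : Pos K e → Vtx K ℓ n e
  | Sum.inl (true, i) => Sum.inl (true, i, grp φ ψ i x)
  | Sum.inl (false, i) => Sum.inl (false, i, grp φ ψ i y)
  | Sum.inr u => Sum.inr u

theorem vpos_selVtx {q m K ℓ n e : ℕ} (φ : Fin m → Fin 5 → Fin q) (ψ : Fin K → Fin ℓ → Fin m)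
    (x y : Pt q n) (P : Pos K e) : vpos (selVtx φ ψ x y P) = P := by
  rcases P with ⟨b, j⟩ | u
  · cases b <;> rfl
  · rfl

/-- Two selected vertices at different positions are adjacent unless one of them is a row part
of a group containing a violated constraint. -/
theorem adj_selVtx {q m K ℓ n e : ℕ} (φ : Fin m → Fin 5 → Fin q) (ψ : Fin K → Fin ℓ → Fin m)
    (rhs : Fin m → Bool) (g : Fin q → Fin n → Fin n → Bool) (x y : Pt q n) {P Q : Pos K e}
    (hPQ : P ≠ Q)
    (h : ¬ (liftGraph e φ ψ rhs g).Adj (selVtx φ ψ x y P) (selVtx φ ψ x y Q)) :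
    ∃ i c, ¬ XSat φ rhs (ψ i c) (gval g x y) ∧
      (P = Sum.inl (true, i) ∨ Q = Sum.inl (true, i)) := by
  have hpos : vpos (selVtx φ ψ x y P) ≠ vpos (selVtx φ ψ x y Q) := by
    rwa [vpos_selVtx, vpos_selVtx]
  have hC : ¬ Compat φ ψ rhs g (selVtx φ ψ x y P) (selVtx φ ψ x y Q) := fun hc => h ⟨hpos, hc⟩
  rcases P with ⟨b, i⟩ | u <;> rcases Q with ⟨b', i'⟩ | v
  · cases b <;> cases b'
    · exact absurd ⟨y, rfl, rfl⟩ hC
    · by_contra hno
      push Not at hno
      refine hC ⟨x, y, rfl, rfl, fun c _ _ => ?_⟩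
      by_contra hs
      exact (hno i' c hs).2 rfl
    · by_contra hno
      push Not at hno
      refine hC ⟨x, y, rfl, rfl, fun c _ _ => ?_⟩
      by_contra hs
      exact (hno i c hs).1 rfl
    · exact absurd ⟨x, rfl, rfl⟩ hC
  · exact absurd (by cases b <;> trivial) hC
  · exact absurd (by cases b' <;> trivial) hC
  · exact absurd trivial hC

/-- The tuple of vertices given by a row and a column. -/
def selTup {q m K ℓ n e N k : ℕ} (φ : Fin m → Fin 5 → Fin q) (ψ : Fin K → Fin ℓ → Fin m)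
    (π : Fin k ≃ Pos K e) (ι : Vtx K ℓ n e ↪ Fin N) (x y : Pt q n) : Fin k → Fin N :=
  fun i => ι (selVtx φ ψ x y (π i))

theorem selTup_row {q m K ℓ n e N k : ℕ} (φ : Fin m → Fin 5 → Fin q)
    (ψ : Fin K → Fin ℓ → Fin m) (π : Fin k ≃ Pos K e) (ι : Vtx K ℓ n e ↪ Fin N)
    (x y y' : Pt q n) (i : Fin k) (hi : ∃ j, π i = Sum.inl (true, j)) :
    selTup φ ψ π ι x y i = selTup φ ψ π ι x y' i := by
  obtain ⟨j, hj⟩ := hi
  simp only [selTup, hj, selVtx]

theorem selTup_col {q m K ℓ n e N k : ℕ} (φ : Fin m → Fin 5 → Fin q)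
    (ψ : Fin K → Fin ℓ → Fin m) (π : Fin k ≃ Pos K e) (ι : Vtx K ℓ n e ↪ Fin N)
    (x x' y : Pt q n) (i : Fin k) (hi : ¬ ∃ j, π i = Sum.inl (true, j)) :
    selTup φ ψ π ι x y i = selTup φ ψ π ι x' y i := by
  rcases hp : π i with ⟨b, j⟩ | u
  · cases b
    · simp only [selTup, hp, selVtx]
    · exact absurd ⟨j, hp⟩ hi
  · simp only [selTup, hp, selVtx]

/-- The reduction. -/
theorem graph_reduction {q m K ℓ n e N θ A B : ℕ} (hn : 0 < n) (hθ : 1 ≤ θ) (hK : 0 < K)
    (hN : 2 * K * n ^ (5 * ℓ) + e ≤ N)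
    (φ : Fin m → Fin 5 → Fin q)
    (ψ : Fin K → Fin ℓ → Fin m) (rhs : Fin m → Bool)
    (hun : ∀ (z : Fin q → Bool) (T : Finset (Fin m)), (∀ j ∈ T, XSat φ rhs j z) → T.card < A)
    (hcov : ∀ I : Finset (Fin K), θ ≤ I.card →
      B ≤ (I.biUnion fun i => univ.image (ψ i)).card)
    (hAB : A + m ≤ 2 * B)
    (g : Fin q → Fin n → Fin n → Bool) :
    ∃ G : SimpleGraph (Fin N), G.CliqueFree (K + θ + e) ∧
      ∃ P : Finset (Fin (2 * K + e)), P.card = K ∧
      ∀ t s : ℕ, Nonempty (SplitRefutation G P t s) →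
        Nonempty (TDag g (XSat φ rhs) (ℓ * t) s) := by
  classical
  have hcardV : Fintype.card (Vtx K ℓ n e) = 2 * K * n ^ (5 * ℓ) + e := by
    simp [Fintype.card_sum, Fintype.card_prod, mul_assoc, pow_mul]
  have hcardP : Fintype.card (Pos K e) = 2 * K + e := by
    simp [Fintype.card_sum, Fintype.card_prod]
  obtain ⟨ι⟩ : Nonempty (Vtx K ℓ n e ↪ Fin N) := by
    apply Function.Embedding.nonempty_of_card_le
    rw [hcardV, Fintype.card_fin]
    exact hN
  obtain ⟨π⟩ : Nonempty (Fin (2 * K + e) ≃ Pos K e) := by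
    apply Fintype.card_eq.1
    rw [hcardP, Fintype.card_fin]
  have hPeq : (univ.filter fun i => ∃ j, π i = Sum.inl (true, j)) =
      (univ : Finset (Fin K)).image fun j => π.symm (Sum.inl (true, j)) := by
    ext i
    simp only [mem_filter, mem_univ, true_and, mem_image]
    constructor
    · rintro ⟨j, hj⟩
      exact ⟨j, by rw [← hj, Equiv.symm_apply_apply]⟩
    · rintro ⟨j, hj⟩
      exact ⟨j, by rw [← hj, Equiv.apply_symm_apply]⟩
  have hne : Nonempty (Vtx K ℓ n e) := ⟨Sum.inl (true, ⟨0, hK⟩, fun _ _ => ⟨0, hn⟩)⟩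
  have hfree : ((liftGraph e φ ψ rhs g).map ι).CliqueFree (K + θ + e) := by
    rw [SimpleGraph.cliqueFree_map_iff]
    exact liftGraph_cliqueFree hn hθ φ ψ rhs hun hcov hAB g
  refine ⟨(liftGraph e φ ψ rhs g).map ι, hfree, univ.filter fun i => ∃ j, π i = Sum.inl (true, j),
    ?_, ?_⟩
  · rw [hPeq, card_image_of_injective, card_univ, Fintype.card_fin]
    intro j j' hjj
    have := π.symm.injective hjj
    simpa using this
  · rintro t s ⟨R⟩
    set z0 : Pt q n := fun _ => ⟨0, hn⟩ with hz0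
    have hholds : ∀ (r : Fin s) (x y : Pt q n), (R.line r).Holds (selTup φ ψ π ι x y) ↔
        ¬ ((R.line r).f (selTup φ ψ π ι x z0) + (R.line r).h (selTup φ ψ π ι z0 y) < 0) := by
      intro r x y
      unfold SplitLine.Holds
      rw [(R.line r).f_dep (selTup φ ψ π ι x y) (selTup φ ψ π ι x z0)
        (fun i hi => selTup_row φ ψ π ι x y z0 i (mem_filter.mp hi).2),
        (R.line r).h_dep (selTup φ ψ π ι x y) (selTup φ ψ π ι z0 y)
        (fun i hi => selTup_col φ ψ π ι x z0 y i (fun h => hi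
          (mem_filter.mpr ⟨mem_univ _, h⟩))), not_lt]
    refine ⟨⟨fun r x => (R.line r).f (selTup φ ψ π ι x z0),
      fun r y => (R.line r).h (selTup φ ψ π ι z0 y), ?_, ?_⟩⟩
    · intro r
      rcases R.valid r with ⟨P, hPt, hP⟩ | ⟨a, b, ha, hb, hab⟩
      · left
        let J : Finset (Fin K) := univ.filter fun j => ∃ i ∈ P, π i = Sum.inl (true, j)
        have hJ : J.card ≤ t := by
          refine le_trans ?_ hPt
          have hsub : (J.image fun j => π.symm (Sum.inl (true, j))) ⊆ P := by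
            intro i hi
            simp only [J, mem_image, mem_filter, mem_univ, true_and] at hi
            obtain ⟨j, ⟨i', hi', hij⟩, hi⟩ := hi
            rw [← hij, Equiv.symm_apply_apply] at hi
            rwa [← hi]
          refine le_trans (le_of_eq ?_) (Finset.card_le_card hsub)
          rw [Finset.card_image_of_injective]
          intro j j' hjj
          have := π.symm.injective hjj
          simpa using this
        refine ⟨J.biUnion fun i => univ.image (ψ i), ?_, ?_⟩
        · calc (J.biUnion fun i => univ.image (ψ i)).card ≤ J.card * ℓ := by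
                apply Finset.card_biUnion_le_card_mul
                intro i _
                exact Finset.card_image_le.trans (by simp)
            _ ≤ t * ℓ := Nat.mul_le_mul_right _ hJ
            _ = ℓ * t := mul_comm _ _
        · intro x y hxy
          have hnot : ¬ (R.line r).Holds (selTup φ ψ π ι x y) := by
            rw [hholds]
            exact fun h => h hxy
          by_contra hno
          push Not at hno
          apply hnot
          apply hP
          intro i hi j hj hij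
          unfold selTup
          rw [SimpleGraph.map_adj_apply]
          by_contra hadj
          have hne : π i ≠ π j := fun h => hij (π.injective h)
          obtain ⟨i0, c, hc, hP'⟩ := adj_selVtx φ ψ rhs g x y hne hadj
          apply hc
          apply hno
          rw [mem_biUnion]
          rcases hP' with hP' | hP'
          · exact ⟨i0, mem_filter.2 ⟨mem_univ _, i, hi, hP'⟩, mem_image_of_mem _ (mem_univ _)⟩
          · exact ⟨i0, mem_filter.2 ⟨mem_univ _, j, hj, hP'⟩, mem_image_of_mem _ (mem_univ _)⟩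
      · right
        refine ⟨a, b, ha, hb, fun x y hxy => ?_⟩
        by_contra hno
        push Not at hno
        have h1 : (R.line a).Holds (selTup φ ψ π ι x y) := by
          rw [hholds]; exact not_lt.2 hno.1
        have h2 : (R.line b).Holds (selTup φ ψ π ι x y) := by
          rw [hholds]; exact not_lt.2 hno.2
        have h3 := hab _ h1 h2
        rw [hholds] at h3
        exact h3 hxy
    · obtain ⟨r, hr⟩ := R.contra
      refine ⟨r, fun x y => ?_⟩
      have := hr (selTup φ ψ π ι x y)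
      rw [hholds, not_not] at this
      exact this

end CliqueGap
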