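import Pool.Agent.Lib.MP_678664_lc_CP.Core
import Pool.Agent.Lib.MP_678664_lc_CP.Explicit
import Pool.Agent.Lib.MP_678664_lc_CP.GapExpander
import Pool.Agent.Lib.MP_678664_lc_CP.GapGraph
import Pool.Agent.Lib.MP_678664_lc_CP.GapEncode

/-!
# The choice of the parameters
-/

open Finset

namespace CliqueGap

open CliqueCP

/-- The arithmetic of the final bound. -/
theorem final_bound_gen {A C K n p lam s : ℕ} (hlam : 1 ≤ lam) (hK : n ≤ K * 2 ^ (A * p))
    (hn : C ^ (2 * A) * K ^ (2 * lam) ≤ n) (hC : 0 < C) (hK0 : 0 < K)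
    (hs : 2 ^ (p * lam) ≤ C * s) : n ^ lam ≤ s ^ (2 * A) := by
  have h1 : (2 ^ (p * lam)) ^ (2 * A) ≤ (C * s) ^ (2 * A) := Nat.pow_le_pow_left hs _
  have h2 : n ^ (2 * lam) ≤ (K * 2 ^ (A * p)) ^ (2 * lam) := Nat.pow_le_pow_left hK _
  have h3 : (K * 2 ^ (A * p)) ^ (2 * lam) = K ^ (2 * lam) * (2 ^ (p * lam)) ^ (2 * A) := by
    rw [mul_pow, ← pow_mul, ← pow_mul]
    congr 2
    ring
  have h4 : n ≤ n ^ lam := Nat.le_self_pow (by omega) n
  have h5 : (C ^ (2 * A) * K ^ (2 * lam)) * n ^ lam ≤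
      (C ^ (2 * A) * K ^ (2 * lam)) * s ^ (2 * A) := by
    calc (C ^ (2 * A) * K ^ (2 * lam)) * n ^ lam ≤ n ^ lam * n ^ lam :=
          Nat.mul_le_mul_right _ (hn.trans h4)
      _ = n ^ (2 * lam) := by rw [← pow_add]; congr 1; ring
      _ ≤ K ^ (2 * lam) * (2 ^ (p * lam)) ^ (2 * A) := h2.trans (le_of_eq h3)
      _ ≤ K ^ (2 * lam) * (C * s) ^ (2 * A) := Nat.mul_le_mul_left _ h1
      _ = (C ^ (2 * A) * K ^ (2 * lam)) * s ^ (2 * A) := by rw [mul_pow]; ring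
  exact Nat.le_of_mul_le_mul_left h5 (by positivity)

theorem rpow_le_gen {A n s lam : ℕ} {a : ℝ} (hA : 0 < A) (hn : 1 ≤ n)
    (ha : ((2 * A : ℕ) : ℝ) * a ≤ lam) (h : n ^ lam ≤ s ^ (2 * A)) : (n : ℝ) ^ a ≤ s := by
  have hn1 : (1 : ℝ) ≤ n := by exact_mod_cast hn
  have h1 : ((n : ℝ) ^ a) ^ (2 * A) ≤ (s : ℝ) ^ (2 * A) := by
    rw [← Real.rpow_natCast, ← Real.rpow_mul (by positivity)]
    calc (n : ℝ) ^ (a * ((2 * A : ℕ) : ℝ)) ≤ (n : ℝ) ^ (lam : ℝ) := by
          apply Real.rpow_le_rpow_of_exponent_le hn1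
          linarith
      _ = (n : ℝ) ^ lam := Real.rpow_natCast _ _
      _ ≤ (s : ℝ) ^ (2 * A) := by exact_mod_cast h
  exact le_of_pow_le_pow_left₀ (by omega) (by positivity) h1

theorem pow_aux (a b c : ℕ) : a * b * c = c * b * a := by ring

/-- The lower bound for split threshold lines. -/
theorem gap_core (E : ℕ) (hE : 0 < E) :
    ∃ c : ℝ, 0 < c ∧ ∃ C k₀ : ℕ, ∀ k ≥ k₀, ∀ n : ℕ, k ^ (C * k) ≤ n →
    ∃ G : SimpleGraph (Fin n), (∀ m, k / 2 + k / 2 / E + 2 ≤ m → G.CliqueFree m) ∧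
      ∃ P : Finset (Fin k), P.card = k / 2 ∧
      ∀ t s : ℕ, (t : ℝ) ≤ c * k → Nonempty (SplitRefutation G P t s) →
        (n : ℝ) ^ (c * k) ≤ s := by
  set A := 20 * (7 * E) with hA
  have hA0 : 0 < A := by omega
  refine ⟨1 / (A * (4 * 10 ^ 8)), by positivity, 100 * A, 10 ^ 9, fun k hk n hn => ?_⟩
  obtain ⟨κ, e, he, hkκ⟩ : ∃ κ e : ℕ, e ≤ 1 ∧ k = 2 * κ + e :=
    ⟨k / 2, k % 2, by omega, by omega⟩
  have hk2 : k / 2 = κ := by omega
  set q := κ / 32 with hq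
  have hq0 : 0 < q := by omega
  have hqκ : 32 * q ≤ κ := by omega
  obtain ⟨φ, hφ⟩ := exists_gap_expander q hq0
  obtain ⟨rhs, hrhs⟩ := exists_gap_rhs hq0 φ
  set θ := κ / E + 1 with hθ
  have hθE : κ ≤ E * θ := by
    have h1 := Nat.div_add_mod κ E
    have h2 := Nat.mod_lt κ hE
    rw [hθ, mul_add]
    omega
  obtain ⟨ψ, hψ⟩ := exists_groups (K := κ) (θ := θ) (ℓ := 7 * E) hq0 hqκ
    (by rw [mul_assoc]; exact Nat.mul_le_mul_left 7 hθE)
  set r := q / 50000 with hr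
  set lam := r / 16 with hlam
  have hlam1 : 1 ≤ lam := by omega
  have hlamk : k ≤ 200000000 * lam := by omega
  have hlamk' : 6 * lam ≤ k := by omega
  set Q := 2 * κ + 1 with hQ
  set K := Q * 2 ^ A with hKdef
  have hQ0 : 0 < Q := by omega
  have hk1 : 1 ≤ k := by omega
  have hQk : Q ≤ k ^ 2 := by nlinarith
  have hKk : K ≤ k ^ (A + 2) := by
    calc K = Q * 2 ^ A := rfl
      _ ≤ k ^ 2 * k ^ A := Nat.mul_le_mul hQk (Nat.pow_le_pow_left (by omega) A)
      _ = k ^ (A + 2) := by ring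
  have hAk : A ≤ A * k := Nat.le_mul_of_pos_right A (by omega)
  have hAlam : A * lam ≤ A * k := Nat.mul_le_mul_left A (by omega)
  have hlamA : lam ≤ A * k := by nlinarith
  set p := Nat.log (2 ^ A) (n / Q) with hp
  have h2A : 1 < 2 ^ A := Nat.one_lt_two_pow (by omega)
  have hQn : Q ≤ n := by
    refine hQk.trans (le_trans (Nat.pow_le_pow_right hk1 ?_) hn)
    nlinarith
  have hdiv0 : n / Q ≠ 0 := by
    have := Nat.div_pos hQn hQ0
    omega
  have hple : Q * (2 ^ A) ^ p ≤ n := by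
    have h1 : (2 ^ A) ^ p ≤ n / Q := Nat.pow_log_le_self _ hdiv0
    rw [Nat.le_div_iff_mul_le hQ0, mul_comm] at h1
    exact h1
  have hplt : n ≤ K * 2 ^ (A * p) := by
    have h1 : n / Q < (2 ^ A) ^ (p + 1) := Nat.lt_pow_succ_log_self h2A _
    rw [Nat.div_lt_iff_lt_mul hQ0] at h1
    refine h1.le.trans (le_of_eq ?_)
    rw [hKdef, pow_succ, pow_mul 2 A p]
    exact pow_aux _ _ _
  -- the size of `p`
  have hpk : k ^ (9 * k) ≤ 2 ^ p := by
    have h1 : k ^ (100 * A * k) ≤ k ^ (A + 2) * 2 ^ (A * p) :=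
      hn.trans (hplt.trans (Nat.mul_le_mul_right _ hKk))
    have h2 : k ^ (A + 2) * k ^ (9 * k * A) ≤ k ^ (100 * A * k) := by
      rw [← pow_add]
      apply Nat.pow_le_pow_right hk1
      nlinarith
    have h3 : k ^ (9 * k * A) ≤ 2 ^ (A * p) :=
      Nat.le_of_mul_le_mul_left (h2.trans h1) (by positivity)
    have h4 : (k ^ (9 * k)) ^ A ≤ (2 ^ p) ^ A := by
      rw [← pow_mul, ← pow_mul, mul_comm p A]
      exact h3
    exact le_of_pow_le_pow_left₀ (by omega) (by positivity) h4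
  have hp1 : 1 ≤ p := by
    rcases Nat.eq_zero_or_pos p with h | h
    · rw [h, pow_zero] at hpk
      have h1 : k ≤ k ^ (9 * k) := Nat.le_self_pow (by omega) k
      omega
    · exact h
  obtain ⟨g, hg⟩ := exists_gadget q p
  have hN : 2 * κ * (2 ^ (4 * p)) ^ (5 * (7 * E)) + e ≤ n := by
    refine le_trans ?_ hple
    have h1 : (2 ^ (4 * p)) ^ (5 * (7 * E)) = (2 ^ A) ^ p := by
      rw [← pow_mul, ← pow_mul]
      congr 1
      rw [hA]
      ring
    have h2 : 0 < (2 ^ A) ^ p := by positivity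
    rw [h1, hQ, add_mul]
    have h3 : e ≤ 1 * (2 ^ A) ^ p := by omega
    omega
  obtain ⟨G, hG, P, hP, hred⟩ := graph_reduction (N := n) (θ := θ) (A := 20 * q) (B := 26 * q)
    (by positivity) (Nat.le_add_left 1 _) (by omega) hN φ ψ rhs hrhs hψ (by omega) g
  have hroom := room (k := k) (q := q) (lam := lam) (p := p) (by omega) (by omega) (by omega) hpk
  have hn1 : 1 ≤ n := Nat.succ_le_of_lt (hQ0.trans_le hQn)
  have hconst : (2 * (4 * q + 5) ^ (12 * lam + 3)) ^ (2 * A) * K ^ (2 * lam) ≤ n := by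
    refine le_trans ?_ hn
    calc (2 * (4 * q + 5) ^ (12 * lam + 3)) ^ (2 * A) * K ^ (2 * lam)
        ≤ (k * (k ^ 2) ^ (12 * lam + 3)) ^ (2 * A) * (k ^ (A + 2)) ^ (2 * lam) := by
          have e1 : 2 ≤ k := by omega
          have e2 : 4 * q + 5 ≤ k ^ 2 := by nlinarith
          gcongr
      _ = k ^ ((24 * lam + 7) * (2 * A) + (A + 2) * (2 * lam)) := by
          rw [← pow_mul, ← pow_mul, ← pow_succ', ← pow_mul, ← pow_add]
          congr 2
          ring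
      _ ≤ k ^ (100 * A * k) := by
          apply Nat.pow_le_pow_right hk1
          nlinarith
  have hbound : ∀ t s : ℕ, 40 * (7 * E * t) ≤ lam → Nonempty (SplitRefutation G P t s) →
      (n : ℝ) ^ (1 / (A * (4 * 10 ^ 8)) * (k : ℝ)) ≤ s := by
    intro t s ht hR
    have hT := hred t s hR
    have hs := lifting_explicit q lam p hp1 hroom g hg (32 * q) φ rhs r (7 * E * t) s hφ
      (by omega) (by omega) hT
    have hfin := final_bound_gen (A := A) (C := 2 * (4 * q + 5) ^ (12 * lam + 3)) (K := K)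
      (n := n) (p := p) (lam := lam) (s := s) hlam1 hplt hconst (by positivity)
      (by positivity) hs
    refine rpow_le_gen hA0 hn1 ?_ hfin
    have h1 : (k : ℝ) ≤ 200000000 * lam := by exact_mod_cast hlamk
    have hA' : (0 : ℝ) < A := by exact_mod_cast hA0
    push_cast
    have h2 : 2 * (A : ℝ) * (1 / (A * (4 * 10 ^ 8)) * (k : ℝ)) = k / 200000000 := by
      field_simp
      norm_num
    rw [h2, div_le_iff₀ (by norm_num)]
    linarith
  subst hkκ
  refine ⟨G, fun m hm => hG.mono ?_, P, by omega, fun t s ht hR => hbound t s ?_ hR⟩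
  · rw [hk2] at hm
    omega
  · have h1 : ((2 * κ + e : ℕ) : ℝ) ≤ 200000000 * lam := by exact_mod_cast hlamk
    have hA' : (0 : ℝ) < A := by exact_mod_cast hA0
    have h3 : (t : ℝ) * (A * (4 * 10 ^ 8)) ≤ ((2 * κ + e : ℕ) : ℝ) := by
      have h4 : (t : ℝ) ≤ ((2 * κ + e : ℕ) : ℝ) / (A * (4 * 10 ^ 8)) := by
        rw [div_eq_mul_inv, mul_comm, inv_eq_one_div]
        exact ht
      rwa [le_div_iff₀ (by positivity)] at h4
    have h5 : (t : ℝ) * A * 2 ≤ lam := by nlinarith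
    have h6 : t * A * 2 ≤ lam := by exact_mod_cast h5
    rw [hA] at h6
    nlinarith

end CliqueGap
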