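import Pool.Agent.Lib.MP_678664_lc_CP.GapCore

/-! # The main theorem, with a gap and for all encodings -/

open Finset Filter Topology

namespace CliqueGap

theorem main_gap (ε : ℝ) (hε : 0 < ε) :
    ∃ c : ℝ, 0 < c ∧ ∃ C k₀ : ℕ, ∀ k ≥ k₀, ∀ n : ℕ, k ^ (C * k) ≤ n →
      ∃ G : SimpleGraph (Fin n), (∀ m : ℕ, (1 / 2 + ε) * k ≤ m → G.CliqueFree m) ∧
        (∀ s : ℕ, Nonempty (ResRefutation G k s) → (n : ℝ) ^ (c * k) ≤ s) ∧
        (∀ (B : ℕ) (enc : Fin n → Fin B → Bool) (t s : ℕ), (t : ℝ) ≤ c * k →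
          Nonempty (Refutation G enc k t s) → (n : ℝ) ^ (c * k) ≤ s) ∧
        (∃ P : Finset (Fin k), P.card = k / 2 ∧ ∀ t s : ℕ, (t : ℝ) ≤ c * k →
          Nonempty (SplitRefutation G P t s) → (n : ℝ) ^ (c * k) ≤ s) := by
  obtain ⟨E, hE⟩ := exists_nat_ge (1 / ε)
  have hE0 : (0 : ℝ) < E := (by positivity : (0 : ℝ) < 1 / ε).trans_le hE
  have hEpos : 0 < E := by exact_mod_cast hE0
  obtain ⟨c, hc, C, k₀, h⟩ := gap_core E hEpos
  obtain ⟨k₁, hk₁⟩ := exists_nat_ge (2 / c)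
  obtain ⟨k₂, hk₂⟩ := exists_nat_ge (4 / ε)
  refine ⟨c, hc, C, max (max k₀ k₁) k₂, fun k hk n hn => ?_⟩
  have hk0 : k₀ ≤ k := (le_max_left _ _).trans ((le_max_left _ _).trans hk)
  have hk1 : k₁ ≤ k := (le_max_right _ _).trans ((le_max_left _ _).trans hk)
  have hk2 : k₂ ≤ k := (le_max_right _ _).trans hk
  obtain ⟨G, hG, P, hP, hb⟩ := h k hk0 n hn
  have hck : (2 : ℝ) ≤ c * k := by
    have h1 : (k₁ : ℝ) ≤ k := by exact_mod_cast hk1
    have h2 : 2 / c ≤ k := hk₁.trans h1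
    rw [div_le_iff₀ hc] at h2
    linarith
  have hcp : ∀ (B : ℕ) (enc : Fin n → Fin B → Bool) (t s : ℕ), (t : ℝ) ≤ c * k →
      Nonempty (Refutation G enc k t s) → (n : ℝ) ^ (c * k) ≤ s := by
    rintro B enc t s ht ⟨R⟩
    exact hb t s ht (R.toSplit P)
  refine ⟨G, fun m hm => hG m ?_, ?_, hcp, P, hP, hb⟩
  · have h1 : ((k / 2 : ℕ) : ℝ) ≤ k / 2 := by
      simpa using (Nat.cast_div_le (α := ℝ) (m := k) (n := 2))
    have h2 : ((k / 2 / E : ℕ) : ℝ) ≤ ((k / 2 : ℕ) : ℝ) / E := Nat.cast_div_le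
    have h3 : (4 : ℝ) ≤ ε * k := by
      have h4 : (k₂ : ℝ) ≤ k := by exact_mod_cast hk2
      have h5 : 4 / ε ≤ k := hk₂.trans h4
      rw [div_le_iff₀ hε] at h5
      linarith
    have h6 : ((k / 2 : ℕ) : ℝ) / E ≤ ε * k / 2 := by
      rw [div_le_iff₀ hE0]
      have h7 : 1 ≤ ε * E := by
        rw [div_le_iff₀ hε] at hE
        linarith
      have hk' : (0 : ℝ) ≤ k := by positivity
      nlinarith
    have h8 : ((k / 2 + k / 2 / E + 2 : ℕ) : ℝ) ≤ m := by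
      push_cast
      linarith
    exact_mod_cast h8
  · rintro s ⟨R⟩
    exact hcp n (unary n) 2 s (by exact_mod_cast hck) R.toRefutation

end CliqueGap
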