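import Pool.Agent.Lib.MP_678664_lc_CP.Defs

/-!
# Module F: the graph of a lifted parity system, and the reduction

`Pos q e` are the positions (colours), `Vtx q n e` the vertices of the graph before padding with
isolated vertices.
-/

open Finset

namespace CliqueCP

/-- Positions: `inl (true, j)` is the part of the `x`-values of constraint `j`, `inl (false, j)`
that of the `y`-values, `inr u` the `u`-th universal vertex. -/
abbrev Pos (q e : ℕ) := (Bool × Fin (q + 1)) ⊕ Fin e

/-- Vertices. -/
abbrev Vtx (q n e : ℕ) := (Bool × Fin (q + 1) × (Fin 5 → Fin n)) ⊕ Fin e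

/-- The part of a vertex. -/
def vpos {q n e : ℕ} : Vtx q n e → Pos q e
  | Sum.inl (b, j, _) => Sum.inl (b, j)
  | Sum.inr u => Sum.inr u

/-- Whether two vertices in different parts are compatible. -/
def Compat {q n e : ℕ} (φ : Fin (q + 1) → Fin 5 → Fin q) (rhs : Fin (q + 1) → Bool)
    (g : Fin q → Fin n → Fin n → Bool) : Vtx q n e → Vtx q n e → Prop
  | Sum.inl (true, j, a), Sum.inl (true, j', a') => ∃ x : Pt q n, a = x ∘ φ j ∧ a' = x ∘ φ j'
  | Sum.inl (false, j, b), Sum.inl (false, j', b') => ∃ y : Pt q n, b = y ∘ φ j ∧ b' = y ∘ φ j'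
  | Sum.inl (true, j, a), Sum.inl (false, j', b) =>
      j = j' → ∃ x y : Pt q n, a = x ∘ φ j ∧ b = y ∘ φ j' ∧ XSat φ rhs j (gval g x y)
  | Sum.inl (false, j', b), Sum.inl (true, j, a) =>
      j = j' → ∃ x y : Pt q n, a = x ∘ φ j ∧ b = y ∘ φ j' ∧ XSat φ rhs j (gval g x y)
  | Sum.inr _, _ => True
  | Sum.inl _, Sum.inr _ => True

theorem Compat.symm {q n e : ℕ} {φ : Fin (q + 1) → Fin 5 → Fin q} {rhs : Fin (q + 1) → Bool}
    {g : Fin q → Fin n → Fin n → Bool} {u v : Vtx q n e} (h : Compat φ rhs g u v) :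
    Compat φ rhs g v u := by
  rcases u with ⟨b, j, a⟩ | u <;> rcases v with ⟨b', j', a'⟩ | v
  · cases b <;> cases b'
    · obtain ⟨x, h1, h2⟩ := h
      exact ⟨x, h2, h1⟩
    · exact h
    · exact h
    · obtain ⟨x, h1, h2⟩ := h
      exact ⟨x, h2, h1⟩
  · trivial
  · cases b' <;> trivial
  · trivial

/-- The graph before padding. -/
def liftGraph {q n : ℕ} (e : ℕ) (φ : Fin (q + 1) → Fin 5 → Fin q) (rhs : Fin (q + 1) → Bool)
    (g : Fin q → Fin n → Fin n → Bool) : SimpleGraph (Vtx q n e) where
  Adj u v := vpos u ≠ vpos v ∧ Compat φ rhs g u v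
  symm := ⟨fun _ _ h => ⟨h.1.symm, h.2.symm⟩⟩
  loopless := ⟨fun _ h => h.1 rfl⟩

/-- The parity constraint only depends on the values of its variables. -/
theorem xsat_congr_comp {q m n : ℕ} (φ : Fin m → Fin 5 → Fin q) (rhs : Fin m → Bool) (j : Fin m)
    (g : Fin q → Fin n → Fin n → Bool) {x y x' y' : Pt q n} (hx : x ∘ φ j = x' ∘ φ j)
    (hy : y ∘ φ j = y' ∘ φ j) (h : XSat φ rhs j (gval g x y)) :
    XSat φ rhs j (gval g x' y') := by
  have hval : ∀ p, gval g x y (φ j p) = gval g x' y' (φ j p) := by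
    intro p
    have h1 : x (φ j p) = x' (φ j p) := congrFun hx p
    have h2 : y (φ j p) = y' (φ j p) := congrFun hy p
    simp only [gval, h1, h2]
  unfold XSat at h ⊢
  simpa only [hval] using h

/-- A family of value tuples which are pairwise consistent comes from one point. -/
theorem exists_point {q m n : ℕ} (hn : 0 < n) (φ : Fin m → Fin 5 → Fin q)
    (a : Fin m → Fin 5 → Fin n)
    (h : ∀ j j', ∃ x : Pt q n, a j = x ∘ φ j ∧ a j' = x ∘ φ j') :
    ∃ x : Pt q n, ∀ j, a j = x ∘ φ j := by
  classical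
  refine ⟨fun i => if h : ∃ jp : Fin m × Fin 5, φ jp.1 jp.2 = i then
    a h.choose.1 h.choose.2 else ⟨0, hn⟩, fun j => ?_⟩
  funext p
  have hex : ∃ jp : Fin m × Fin 5, φ jp.1 jp.2 = φ j p := ⟨(j, p), rfl⟩
  simp only [Function.comp_apply, dif_pos hex]
  obtain ⟨x, h1, h2⟩ := h j hex.choose.1
  rw [h2, h1, Function.comp_apply, Function.comp_apply, hex.choose_spec]

/-- The graph has no clique that meets all parts. -/
theorem liftGraph_cliqueFree {q n e : ℕ} (hn : 0 < n) (φ : Fin (q + 1) → Fin 5 → Fin q)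
    (rhs : Fin (q + 1) → Bool) (hun : ∀ z, ∃ j, ¬ XSat φ rhs j z)
    (g : Fin q → Fin n → Fin n → Bool) :
    (liftGraph e φ rhs g).CliqueFree (2 * (q + 1) + e) := by
  classical
  intro S hS
  have hcl := hS.isClique
  have hcard := hS.card_eq
  -- the part map is injective on the clique
  have hinj : Set.InjOn (vpos (q := q) (n := n) (e := e)) (S : Set (Vtx q n e)) := by
    intro u hu v hv huv
    by_contra hne
    exact (hcl hu hv hne).1 huv
  have himg : S.image vpos = (univ : Finset (Pos q e)) := by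
    apply Finset.eq_univ_of_card
    rw [Finset.card_image_of_injOn hinj, hcard]
    simp [Fintype.card_sum, Fintype.card_prod]
  have hsel : ∀ P : Pos q e, ∃ v ∈ S, vpos v = P := by
    intro P
    have : P ∈ S.image vpos := by rw [himg]; exact mem_univ _
    simpa using this
  have hT : ∀ (b : Bool) (j : Fin (q + 1)), ∃ a : Fin 5 → Fin n, Sum.inl (b, j, a) ∈ S := by
    intro b j
    obtain ⟨v, hv, hp⟩ := hsel (Sum.inl (b, j))
    rcases v with ⟨b', j', a⟩ | u
    · simp only [vpos, Sum.inl.injEq, Prod.mk.injEq] at hp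
      obtain ⟨rfl, rfl⟩ := hp
      exact ⟨a, hv⟩
    · simp [vpos] at hp
  choose A hA using hT
  -- for `q = 0` there is no system at all
  have hUW : ∀ j, ∃ x y : Pt q n, A true j = x ∘ φ j ∧ A false j = y ∘ φ j ∧
      XSat φ rhs j (gval g x y) := by
    intro j
    have hne : (Sum.inl (true, j, A true j) : Vtx q n e) ≠ Sum.inl (false, j, A false j) := by
      simp
    exact (hcl (hA true j) (hA false j) hne).2 rfl
  have hUU : ∀ j j', ∃ x : Pt q n, A true j = x ∘ φ j ∧ A true j' = x ∘ φ j' := by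
    intro j j'
    by_cases hjj : j = j'
    · subst hjj
      obtain ⟨x, y, hx, -, -⟩ := hUW j
      exact ⟨x, hx, hx⟩
    · have hne : (Sum.inl (true, j, A true j) : Vtx q n e) ≠ Sum.inl (true, j', A true j') := by
        simp [hjj]
      exact (hcl (hA true j) (hA true j') hne).2
  have hWW : ∀ j j', ∃ y : Pt q n, A false j = y ∘ φ j ∧ A false j' = y ∘ φ j' := by
    intro j j'
    by_cases hjj : j = j'
    · subst hjj
      obtain ⟨x, y, -, hy, -⟩ := hUW j
      exact ⟨y, hy, hy⟩
    · have hne : (Sum.inl (false, j, A false j) : Vtx q n e) ≠ Sum.inl (false, j', A false j') := by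
        simp [hjj]
      exact (hcl (hA false j) (hA false j') hne).2
  obtain ⟨x, hx⟩ := exists_point hn φ (A true) hUU
  obtain ⟨y, hy⟩ := exists_point hn φ (A false) hWW
  obtain ⟨j, hj⟩ := hun (gval g x y)
  apply hj
  obtain ⟨x', y', hx', hy', hs⟩ := hUW j
  exact xsat_congr_comp φ rhs j g (by rw [← hx', ← hx]) (by rw [← hy', ← hy]) hs

/-- The vertex selected by the row `x` and the column `y` at a position. -/
def selVtx {q n e : ℕ} (φ : Fin (q + 1) → Fin 5 → Fin q) (x y : Pt q n) : Pos q e → Vtx q n e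
  | Sum.inl (true, j) => Sum.inl (true, j, x ∘ φ j)
  | Sum.inl (false, j) => Sum.inl (false, j, y ∘ φ j)
  | Sum.inr u => Sum.inr u

theorem vpos_selVtx {q n e : ℕ} (φ : Fin (q + 1) → Fin 5 → Fin q) (x y : Pt q n) (P : Pos q e) :
    vpos (selVtx φ x y P) = P := by
  rcases P with ⟨b, j⟩ | u
  · cases b <;> rfl
  · rfl

/-- Two selected vertices at different positions are adjacent unless they are the two parts of a
violated constraint. -/
theorem adj_selVtx {q n e : ℕ} (φ : Fin (q + 1) → Fin 5 → Fin q) (rhs : Fin (q + 1) → Bool)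
    (g : Fin q → Fin n → Fin n → Bool) (x y : Pt q n) {P Q : Pos q e} (hPQ : P ≠ Q)
    (h : ¬ (liftGraph e φ rhs g).Adj (selVtx φ x y P) (selVtx φ x y Q)) :
    ∃ j, ¬ XSat φ rhs j (gval g x y) ∧ (P = Sum.inl (true, j) ∨ Q = Sum.inl (true, j)) := by
  have hpos : vpos (selVtx φ x y P) ≠ vpos (selVtx φ x y Q) := by
    rwa [vpos_selVtx, vpos_selVtx]
  have hC : ¬ Compat φ rhs g (selVtx φ x y P) (selVtx φ x y Q) := fun hc => h ⟨hpos, hc⟩
  rcases P with ⟨b, j⟩ | u <;> rcases Q with ⟨b', j'⟩ | v
  · cases b <;> cases b'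
    · exact absurd ⟨y, rfl, rfl⟩ hC
    · refine ⟨j', fun hs => hC ?_, Or.inr rfl⟩
      intro hjj
      subst hjj
      exact ⟨x, y, rfl, rfl, hs⟩
    · refine ⟨j, fun hs => hC ?_, Or.inl rfl⟩
      intro hjj
      subst hjj
      exact ⟨x, y, rfl, rfl, hs⟩
    · exact absurd ⟨x, rfl, rfl⟩ hC
  · exact absurd (by cases b <;> trivial) hC
  · exact absurd (by cases b' <;> trivial) hC
  · exact absurd trivial hC

/-- The assignment given by a row and a column. -/
def selAssg {q n e N k : ℕ} (φ : Fin (q + 1) → Fin 5 → Fin q) (π : Fin k ≃ Pos q e)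
    (ι : Vtx q n e ↪ Fin N) (x y : Pt q n) : Assg k N :=
  fun i v => decide (v = ι (selVtx φ x y (π i)))

theorem selAssg_eq_true {q n e N k : ℕ} (φ : Fin (q + 1) → Fin 5 → Fin q) (π : Fin k ≃ Pos q e)
    (ι : Vtx q n e ↪ Fin N) (x y : Pt q n) (i : Fin k) (v : Fin N) :
    selAssg φ π ι x y i v = true ↔ v = ι (selVtx φ x y (π i)) := by
  simp [selAssg]

/-- The part of the sum that depends on the row. -/
def rowVal {q n e N k : ℕ} (φ : Fin (q + 1) → Fin 5 → Fin q) (π : Fin k ≃ Pos q e)
    (ι : Vtx q n e ↪ Fin N) (I : Ineq k N) (x : Pt q n) : ℝ :=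
  -I.rhs + ∑ i, match π i with
    | Sum.inl (true, j) => I.coef i (ι (Sum.inl (true, j, x ∘ φ j)))
    | Sum.inl (false, _) => 0
    | Sum.inr u => I.coef i (ι (Sum.inr u))

/-- The part of the sum that depends on the column. -/
def colVal {q n e N k : ℕ} (φ : Fin (q + 1) → Fin 5 → Fin q) (π : Fin k ≃ Pos q e)
    (ι : Vtx q n e ↪ Fin N) (I : Ineq k N) (y : Pt q n) : ℝ :=
  ∑ i, match π i with
    | Sum.inl (true, _) => 0
    | Sum.inl (false, j) => I.coef i (ι (Sum.inl (false, j, y ∘ φ j)))
    | Sum.inr _ => 0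

theorem holds_selAssg {q n e N k : ℕ} (φ : Fin (q + 1) → Fin 5 → Fin q) (π : Fin k ≃ Pos q e)
    (ι : Vtx q n e ↪ Fin N) (I : Ineq k N) (x y : Pt q n) :
    I.Holds (selAssg φ π ι x y) ↔ ¬ (rowVal φ π ι I x + colVal φ π ι I y < 0) := by
  have h1 : (∑ i, ∑ v, if selAssg φ π ι x y i v = true then I.coef i v else 0)
      = ∑ i, I.coef i (ι (selVtx φ x y (π i))) := by
    refine Finset.sum_congr rfl fun i _ => ?_
    simp only [selAssg_eq_true]
    rw [Finset.sum_ite_eq' univ]
    simp
  have h2 : rowVal φ π ι I x + colVal φ π ι I y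
      = -I.rhs + ∑ i, I.coef i (ι (selVtx φ x y (π i))) := by
    unfold rowVal colVal
    rw [add_assoc, ← Finset.sum_add_distrib]
    congr 1
    refine Finset.sum_congr rfl fun i _ => ?_
    rcases π i with ⟨b, j⟩ | u
    · cases b <;> simp [selVtx]
    · simp [selVtx]
  unfold Ineq.Holds
  rw [h1, h2]
  constructor
  · intro h; linarith
  · intro h; linarith

theorem cliqueOn_or_violated {q n e N k : ℕ} (φ : Fin (q + 1) → Fin 5 → Fin q)
    (rhs : Fin (q + 1) → Bool) (g : Fin q → Fin n → Fin n → Bool) (π : Fin k ≃ Pos q e)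
    (ι : Vtx q n e ↪ Fin N) (P : Finset (Fin k)) (x y : Pt q n)
    (h : ¬ CliqueOn ((liftGraph e φ rhs g).map ι) P (selAssg φ π ι x y)) :
    ∃ j, ¬ XSat φ rhs j (gval g x y) ∧ ∃ i ∈ P, π i = Sum.inl (true, j) := by
  by_contra hno
  push Not at hno
  apply h
  refine ⟨fun i _ => ⟨ι (selVtx φ x y (π i)), ?_, ?_⟩, ?_⟩
  · exact (selAssg_eq_true φ π ι x y i _).2 rfl
  · intro v hv
    exact (selAssg_eq_true φ π ι x y i v).1 hv
  · intro i hi j hj hij u v hu hv
    rw [selAssg_eq_true] at hu hv
    subst hu hv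
    rw [SimpleGraph.map_adj_apply]
    by_contra hadj
    have hne : π i ≠ π j := fun h => hij (π.injective h)
    obtain ⟨c, hc, hP⟩ := adj_selVtx φ rhs g x y hne hadj
    rcases hP with hP | hP
    · exact hno c hc i hi hP
    · exact hno c hc j hj hP

/-- **Module F.** -/
theorem graph_reduction {q n' e N : ℕ} (hn' : 0 < n') (hN : 2 * (q + 1) * n' ^ 5 + e ≤ N)
    (φ : Fin (q + 1) → Fin 5 → Fin q)
    (rhs : Fin (q + 1) → Bool) (hun : ∀ z, ∃ j, ¬ XSat φ rhs j z)
    (g : Fin q → Fin n' → Fin n' → Bool) :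
    ∃ G : SimpleGraph (Fin N), G.CliqueFree (2 * (q + 1) + e) ∧
      ∀ t s : ℕ, Nonempty (Refutation G (2 * (q + 1) + e) t s) →
        Nonempty (TDag g (XSat φ rhs) t s) := by
  classical
  have hcardV : Fintype.card (Vtx q n' e) = 2 * (q + 1) * n' ^ 5 + e := by
    simp [Fintype.card_sum, Fintype.card_prod, mul_assoc]
  have hcardP : Fintype.card (Pos q e) = 2 * (q + 1) + e := by
    simp [Fintype.card_sum, Fintype.card_prod]
  obtain ⟨ι⟩ : Nonempty (Vtx q n' e ↪ Fin N) := by
    apply Function.Embedding.nonempty_of_card_le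
    rw [hcardV, Fintype.card_fin]
    exact hN
  obtain ⟨π⟩ : Nonempty (Fin (2 * (q + 1) + e) ≃ Pos q e) := by
    apply Fintype.card_eq.1
    rw [hcardP, Fintype.card_fin]
  have hne : Nonempty (Vtx q n' e) := ⟨Sum.inl (true, 0, fun _ => ⟨0, hn'⟩)⟩
  refine ⟨(liftGraph e φ rhs g).map ι, ?_, ?_⟩
  · rw [SimpleGraph.cliqueFree_map_iff]
    exact liftGraph_cliqueFree hn' φ rhs hun g
  · rintro t s ⟨R⟩
    refine ⟨⟨fun m => rowVal φ π ι (R.line m), fun m => colVal φ π ι (R.line m), ?_, ?_⟩⟩
    · intro m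
      rcases R.valid m with ⟨P, hPt, hP⟩ | ⟨a, b, ha, hb, hab⟩
      · left
        refine ⟨univ.filter fun j => ∃ i ∈ P, π i = Sum.inl (true, j), ?_, ?_⟩
        · refine le_trans ?_ hPt
          have hsub : ((univ.filter fun j => ∃ i ∈ P, π i = Sum.inl (true, j)).image
              fun j => π.symm (Sum.inl (true, j))) ⊆ P := by
            intro i hi
            simp only [mem_image, mem_filter, mem_univ, true_and] at hi
            obtain ⟨j, ⟨i', hi', hij⟩, hi⟩ := hi
            rw [← hij, Equiv.symm_apply_apply] at hi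
            rwa [← hi]
          refine le_trans (le_of_eq ?_) (Finset.card_le_card hsub)
          rw [Finset.card_image_of_injective]
          intro j j' hjj
          have := π.symm.injective hjj
          simpa using this
        · intro x y hxy
          have hnot : ¬ (R.line m).Holds (selAssg φ π ι x y) := by
            rw [holds_selAssg]
            exact fun h => h hxy
          have hncl : ¬ CliqueOn ((liftGraph e φ rhs g).map ι) P (selAssg φ π ι x y) :=
            fun h => hnot (hP _ h)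
          obtain ⟨j, hj, i, hi, hij⟩ := cliqueOn_or_violated φ rhs g π ι P x y hncl
          exact ⟨j, by simp only [mem_filter, mem_univ, true_and]; exact ⟨i, hi, hij⟩, hj⟩
      · right
        refine ⟨a, b, ha, hb, fun x y hxy => ?_⟩
        by_contra hno
        push Not at hno
        have h1 : (R.line a).Holds (selAssg φ π ι x y) := by
          rw [holds_selAssg]; exact not_lt.2 hno.1
        have h2 : (R.line b).Holds (selAssg φ π ι x y) := by
          rw [holds_selAssg]; exact not_lt.2 hno.2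
        have h3 := hab _ h1 h2
        rw [holds_selAssg] at h3
        exact h3 hxy
    · obtain ⟨m, hm⟩ := R.contra
      refine ⟨m, fun x y => ?_⟩
      have := hm (selAssg φ π ι x y)
      rw [holds_selAssg, not_not] at this
      exact this

/-! ## Resolution -/

/-- The inequality of a clause. -/
def clauseIneq {k n : ℕ} (C : Clause k n) : Ineq k n where
  coef i v := (if (i, v, true) ∈ C then 1 else 0) - (if (i, v, false) ∈ C then 1 else 0)
  rhs := 1 - ∑ i, ∑ v, if (i, v, false) ∈ C then (1 : ℝ) else 0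

/-- The truth value of a clause. -/
def ClauseTrue {k n : ℕ} (C : Clause k n) (z : Assg k n) : Prop :=
  ∃ i v, (i, v, z i v) ∈ C

theorem clauseIneq_holds {k n : ℕ} (C : Clause k n) (z : Assg k n) :
    (clauseIneq C).Holds z ↔ ClauseTrue C z := by
  classical
  unfold Ineq.Holds clauseIneq
  simp only
  have hsum : (∑ i, ∑ v, if z i v = true then
        ((if (i, v, true) ∈ C then (1 : ℝ) else 0) - (if (i, v, false) ∈ C then 1 else 0)) else 0)
      + ∑ i, ∑ v, (if (i, v, false) ∈ C then (1 : ℝ) else 0)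
      = ∑ i, ∑ v, if (i, v, z i v) ∈ C then (1 : ℝ) else 0 := by
    rw [← Finset.sum_add_distrib]
    refine Finset.sum_congr rfl fun i _ => ?_
    rw [← Finset.sum_add_distrib]
    refine Finset.sum_congr rfl fun v _ => ?_
    cases z i v <;> simp
  have hnn : ∀ i v, (0 : ℝ) ≤ if (i, v, z i v) ∈ C then (1 : ℝ) else 0 := by
    intro i v; split_ifs <;> norm_num
  constructor
  · intro h
    by_contra hno
    unfold ClauseTrue at hno
    push Not at hno
    have h0 : (∑ i, ∑ v, if (i, v, z i v) ∈ C then (1 : ℝ) else 0) = 0 := by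
      refine Finset.sum_eq_zero fun i _ => Finset.sum_eq_zero fun v _ => ?_
      rw [if_neg (hno i v)]
    linarith
  · rintro ⟨i, v, hiv⟩
    have h1 : (1 : ℝ) ≤ ∑ i, ∑ v, if (i, v, z i v) ∈ C then (1 : ℝ) else 0 := by
      calc (1 : ℝ) = if (i, v, z i v) ∈ C then (1 : ℝ) else 0 := by rw [if_pos hiv]
        _ ≤ ∑ v, if (i, v, z i v) ∈ C then (1 : ℝ) else 0 :=
          Finset.single_le_sum (f := fun v => if (i, v, z i v) ∈ C then (1 : ℝ) else 0)
            (fun v _ => hnn i v) (mem_univ v)
        _ ≤ ∑ i, ∑ v, if (i, v, z i v) ∈ C then (1 : ℝ) else 0 :=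
          Finset.single_le_sum (f := fun i => ∑ v, if (i, v, z i v) ∈ C then (1 : ℝ) else 0)
            (fun i _ => Finset.sum_nonneg fun v _ => hnn i v) (mem_univ i)
    linarith

theorem ClauseTrue.mono {k n : ℕ} {C D : Clause k n} {z : Assg k n} (h : ClauseTrue C z)
    (hCD : C ⊆ D) : ClauseTrue D z := by
  obtain ⟨i, v, hiv⟩ := h
  exact ⟨i, v, hCD hiv⟩

theorem isAxiom_localAxiom {k n : ℕ} {G : SimpleGraph (Fin n)} {C : Clause k n}
    (h : IsAxiom G C) : LocalAxiom G 2 (clauseIneq C) := by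
  classical
  rcases h with ⟨i, rfl⟩ | ⟨i, u, v, huv, rfl⟩ | ⟨i, j, u, v, hij, hadj, rfl⟩
  · refine ⟨{i}, by simp, fun z hz => ?_⟩
    rw [clauseIneq_holds]
    obtain ⟨v, hv, -⟩ := hz.1 i (mem_singleton_self i)
    refine ⟨i, v, ?_⟩
    rw [hv]
    exact mem_image_of_mem _ (mem_univ v)
  · refine ⟨{i}, by simp, fun z hz => ?_⟩
    rw [clauseIneq_holds]
    by_contra hno
    unfold ClauseTrue at hno
    push Not at hno
    have h1 : z i u = true := by
      by_contra h
      have h' : z i u = false := by simpa using h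
      apply hno i u
      rw [h']
      exact mem_insert_self _ _
    have h2 : z i v = true := by
      by_contra h
      have h' : z i v = false := by simpa using h
      apply hno i v
      rw [h']
      exact mem_insert_of_mem (mem_singleton_self _)
    exact huv ((hz.1 i (mem_singleton_self i)).unique h1 h2)
  · refine ⟨{i, j}, Finset.card_le_two, fun z hz => ?_⟩
    rw [clauseIneq_holds]
    by_contra hno
    unfold ClauseTrue at hno
    push Not at hno
    have h1 : z i u = true := by
      by_contra h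
      have h' : z i u = false := by simpa using h
      apply hno i u
      rw [h']
      exact mem_insert_self _ _
    have h2 : z j v = true := by
      by_contra h
      have h' : z j v = false := by simpa using h
      apply hno j v
      rw [h']
      exact mem_insert_of_mem (mem_singleton_self _)
    exact hadj (hz.2 i (by simp) j (by simp) hij u v h1 h2)

/-- A resolution refutation is a cutting planes refutation with axioms of locality two. -/
theorem ResRefutation.toRefutation {n k s : ℕ} {G : SimpleGraph (Fin n)}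
    (R : ResRefutation G k s) : Nonempty (Refutation G k 2 s) := by
  classical
  refine ⟨⟨fun m => clauseIneq (R.line m), ?_, ?_⟩⟩
  · intro m
    rcases R.valid m with h | ⟨a, ha, hsub⟩ | ⟨a, b, ha, hb, i, v, h1, h2⟩
    · exact Or.inl (isAxiom_localAxiom h)
    · right
      refine ⟨a, a, ha, ha, fun z hz _ => ?_⟩
      rw [clauseIneq_holds] at hz ⊢
      exact hz.mono hsub
    · right
      refine ⟨a, b, ha, hb, fun z hz hz' => ?_⟩
      rw [clauseIneq_holds] at hz hz' ⊢
      cases hzv : z i v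
      · obtain ⟨i', v', h⟩ := hz.mono h1
        rw [mem_insert] at h
        rcases h with h | h
        · simp only [Prod.mk.injEq] at h
          obtain ⟨rfl, rfl, h⟩ := h
          rw [hzv] at h
          exact absurd h (by simp)
        · exact ⟨i', v', h⟩
      · obtain ⟨i', v', h⟩ := hz'.mono h2
        rw [mem_insert] at h
        rcases h with h | h
        · simp only [Prod.mk.injEq] at h
          obtain ⟨rfl, rfl, h⟩ := h
          rw [hzv] at h
          exact absurd h (by simp)
        · exact ⟨i', v', h⟩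
  · obtain ⟨m, hm⟩ := R.contra
    refine ⟨m, fun z hz => ?_⟩
    rw [clauseIneq_holds, hm] at hz
    obtain ⟨i, v, h⟩ := hz
    exact absurd h (by simp)

end CliqueCP
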