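import Pool.Agent.Lib.MP_678664_lc_CP.Walk

/-! # The lifting theorem (abstract form) -/

open Finset

namespace CliqueCP

theorem lifting_abs {q n N lam L M w m t s : ℕ} (hN : 2 ≤ N) (hn : n = N ^ 4)
    (hL : 12 * lam + 3 ≤ L)
    (hM : M * q * (2 * (4 * (q + 1)) ^ (6 * lam + 2)) < N)
    {g : Fin q → Fin n → Fin n → Bool} (hg : GadgetGood g M)
    (S : Fin m → (Fin q → Bool) → Prop) (V : Fin m → Finset (Fin q))
    (hV : ∀ j, (V j).card ≤ 5)
    (hS : ∀ j z z', (∀ i ∈ V j, z i = z' i) → S j z → S j z')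
    (H : Finset (Fin q) → (Fin q → Bool) → Prop) (H0 : ∃ ρ, H ∅ ρ)
    (Hmono : ∀ K K' ρ, H K ρ → K' ⊆ K → H K' ρ)
    (Hext : ∀ K K' ρ, H K ρ → K ⊆ K' → K'.card ≤ w →
      ∃ ρ' : Fin q → Bool, (∀ i ∈ K, ρ' i = ρ i) ∧ H K' ρ')
    (Hsat : ∀ K ρ j, H K ρ → V j ⊆ K → S j ρ)
    (hw : 4 * lam ≤ w) (hw' : 2 * lam + 5 * t ≤ w) (T : TDag g S t s) :
    (N : ℝ) ^ lam ≤ 2 * (1 + 2 * (Fintype.card (Step q) : ℝ)) ^ L * s := by
  classical
  by_contra hcon
  push Not at hcon
  set Λ : ℝ := (N : ℝ) ^ lam with hΛ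
  set D : ℝ := (1 + 2 * (Fintype.card (Step q) : ℝ)) ^ L with hD
  have hNr : (1 : ℝ) ≤ N := by exact_mod_cast (by omega : 1 ≤ N)
  have hΛ0 : 0 < Λ := by rw [hΛ]; positivity
  have hD0 : 0 ≤ D := by rw [hD]; positivity
  have hn0 : 0 < n := by rw [hn]; positivity
  have hnq : (0 : ℝ) < (n : ℝ) ^ q := by
    have : (0 : ℝ) < n := by exact_mod_cast hn0
    positivity
  set F : ℕ → Pt q n → ℝ := fun v => if hv : v < s then T.f ⟨v, hv⟩ else 0 with hF
  set G : ℕ → Pt q n → ℝ := fun v => if hv : v < s then T.h ⟨v, hv⟩ else 0 with hG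
  have hFv : ∀ (v : ℕ) (hv : v < s), F v = T.f ⟨v, hv⟩ := by
    intro v hv; simp only [hF]; rw [dif_pos hv]
  have hGv : ∀ (v : ℕ) (hv : v < s), G v = T.h ⟨v, hv⟩ := by
    intro v hv; simp only [hG]; rw [dif_pos hv]
  -- ground sets are large
  have hlarge : ∀ (E : ℕ → Pt q n → ℝ) (v : ℕ), v ≤ s → n ^ q ≤ 2 * (gset N L Λ E v).card := by
    intro E v hv
    have h1 := card_gset N L Λ E v
    rw [← hD] at h1
    have h2 : (v : ℝ) * (D * (n : ℝ) ^ q) ≤ s * (D * (n : ℝ) ^ q) := by
      have : (v : ℝ) ≤ s := by exact_mod_cast hv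
      gcongr
    have h3 : (s : ℝ) * (D * (n : ℝ) ^ q) * 2 < Λ * (n : ℝ) ^ q := by
      calc (s : ℝ) * (D * (n : ℝ) ^ q) * 2 = (2 * D * s) * (n : ℝ) ^ q := by ring
        _ < _ := by gcongr
    have h4 : Λ * (n : ℝ) ^ q < Λ * (2 * (gset N L Λ E v).card) := by
      nlinarith
    have h5 : (n : ℝ) ^ q < 2 * (gset N L Λ E v).card := lt_of_mul_lt_mul_left h4 hΛ0.le
    exact_mod_cast h5.le
  have hFpos : 0 < 2 * (4 * (q + 1)) ^ (6 * lam + 2) := by positivity
  -- no node has a state
  have key : ∀ (v : ℕ) (hv : v < s),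
      ¬ State N lam g H (T.f ⟨v, hv⟩) (T.h ⟨v, hv⟩) (gset N L Λ F v) (gset N L Λ G v) := by
    intro v
    induction v using Nat.strong_induction_on with
    | _ v ih =>
      rintro hv ⟨K, A, B, ρ, hA, hB, hAX, hBY, hT, hK, hdA, hdB, hKc, hH⟩
      -- descent to a child
      have child : ∀ (u : ℕ) (huv : u < v) (A₁ B₁ : Finset (Pt q n)), A₁ ⊆ A → B₁ ⊆ B →
          A.card ≤ 2 * A₁.card → B.card ≤ 2 * B₁.card →
          (∀ x ∈ A₁, ∀ y ∈ B₁, T.f ⟨u, huv.trans hv⟩ x + T.h ⟨u, huv.trans hv⟩ y < 0) →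
          False := by
        intro u huv A₁ B₁ hA₁ hB₁ hAc hBc hneg
        have hu : u < s := huv.trans hv
        have hXsub : A₁ ⊆ gset N L Λ F (u + 1) :=
          (hA₁.trans hAX).trans (gset_anti N L Λ F (by omega))
        have hYsub : B₁ ⊆ gset N L Λ G (u + 1) :=
          (hB₁.trans hBY).trans (gset_anti N L Λ G (by omega))
        apply ih u huv hu
        refine descend (L := L) hN hn hL hM hg Hmono Hext hw (hlarge F u hu.le)
          (hlarge G u hu.le) (A := A) (B := B) (A₁ := A₁) (B₁ := B₁) (ρ := ρ) (K := K)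
          ?_ ?_ (hXsub.trans (gset_succ_subset N L Λ F u))
          (hYsub.trans (gset_succ_subset N L Λ G u)) ?_ ?_ hA₁ hB₁ hAc hBc hneg hK hdA hdB
          hKc hH
        · rw [← card_pos]
          have := hA.card_pos
          omega
        · rw [← card_pos]
          have := hB.card_pos
          omega
        · intro x hx
          have := (mem_sdiff.mp (hXsub hx)).2
          rw [hFv u hu] at this
          exact this
        · intro y hy
          have := (mem_sdiff.mp (hYsub hy)).2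
          rw [hGv u hu] at this
          exact this
      rcases T.valid ⟨v, hv⟩ with ⟨P, hP, hleaf⟩ | ⟨a, b, ha, hb, hab⟩
      · -- leaf
        obtain ⟨ρ', hρ', hH'⟩ := Hext K (K ∪ P.biUnion V) ρ hH subset_union_left (by
          have h1 := card_union_le K (P.biUnion V)
          have h2 : (P.biUnion V).card ≤ P.card * 5 := card_biUnion_le_card_mul _ _ _
            (fun j _ => hV j)
          omega)
        have hAF : A.card ≤ (2 * (4 * (q + 1)) ^ (6 * lam + 2)) * A.card :=
          Nat.le_mul_of_pos_left _ hFpos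
        have hBF : B.card ≤ (2 * (4 * (q + 1)) ^ (6 * lam + 2)) * B.card :=
          Nat.le_mul_of_pos_left _ hFpos
        obtain ⟨x, hx, y, hy, hxy⟩ := exists_pair hg K A B
          (fun i hi b => dense_choice hdA (Subset.refl _) hAF hA hM i hi b)
          (fun i hi b => dense_choice hdB (Subset.refl _) hBF hB hM i hi b) hA hB ρ'
        obtain ⟨j, hj, hjn⟩ := hleaf x y (hT x hx y hy)
        apply hjn
        have hsub : V j ⊆ K ∪ P.biUnion V :=
          (subset_biUnion_of_mem V hj).trans subset_union_right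
        refine hS j ρ' _ ?_ (Hsat _ _ j hH' hsub)
        intro i hi
        unfold gval
        by_cases hiK : i ∈ K
        · rw [hK x hx y hy i hiK, hρ' i hiK]
        · rw [hxy i hiK]
      · -- internal node
        obtain ⟨A₁, hA₁, B₁, hB₁, hAc, hBc, hor⟩ := exists_halves A B hA hB (T.f a) (T.h a)
        rcases hor with hneg | hpos
        · exact child a.1 ha A₁ B₁ hA₁ hB₁ hAc hBc hneg
        · refine child b.1 hb A₁ B₁ hA₁ hB₁ hAc hBc ?_
          intro x hx y hy
          rcases hab x y (hT x (hA₁ hx) y (hB₁ hy)) with h1 | h1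
          · have := hpos x hx y hy
            linarith
          · exact h1
  -- the root
  obtain ⟨⟨v, hv⟩, hroot⟩ := T.root
  apply key v hv
  obtain ⟨ρ, hρ⟩ := H0
  have hlX := hlarge F (v + 1) hv
  have hlY := hlarge G (v + 1) hv
  have hnqN : 0 < n ^ q := by positivity
  have hdense : ∀ A : Finset (Pt q n), n ^ q ≤ 2 * A.card → Dense N ∅ A := by
    intro A hA i _ b
    have h1 := card_const (slice A i b) {i} (fun _ => b) (by
      intro x hx j hj
      rw [mem_singleton] at hj
      subst hj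
      exact (mem_slice.mp hx).2)
    rw [card_singleton, pow_one] at h1
    have h2 : (slice A i b).card * N ^ 4 ≤ 2 * A.card := by rw [← hn]; omega
    have h3 : N * 2 ≤ N ^ 4 := by
      calc N * 2 ≤ N * N ^ 3 := by
            apply Nat.mul_le_mul_left
            calc 2 ≤ 2 ^ 3 := by norm_num
              _ ≤ N ^ 3 := Nat.pow_le_pow_left hN 3
        _ = N ^ 4 := by ring
    have h4 : (slice A i b).card * (N * 2) ≤ (slice A i b).card * N ^ 4 :=
      Nat.mul_le_mul_left _ h3
    nlinarith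
  refine descend (L := L) hN hn hL hM hg Hmono Hext hw (hlarge F v hv.le)
    (hlarge G v hv.le) (A := gset N L Λ F (v + 1)) (B := gset N L Λ G (v + 1))
    (A₁ := gset N L Λ F (v + 1)) (B₁ := gset N L Λ G (v + 1)) (ρ := ρ) (K := ∅)
    ?_ ?_ (gset_succ_subset N L Λ F v)
    (gset_succ_subset N L Λ G v) ?_ ?_ (Subset.refl _) (Subset.refl _) (by omega) (by omega)
    (fun x _ y _ => hroot x y) (fun _ _ _ _ i hi => by simp at hi) (hdense _ hlX)
    (hdense _ hlY) (by simp) hρ
  · rw [← card_pos]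
    omega
  · rw [← card_pos]
    omega
  · intro x hx
    have := (mem_sdiff.mp hx).2
    rw [hFv v hv] at this
    exact this
  · intro y hy
    have := (mem_sdiff.mp hy).2
    rw [hGv v hv] at this
    exact this

end CliqueCP
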