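import Pool.Agent.Lib.MP_678664_lc_CP.GraphReduction

/-! # Split threshold lines: the reduction to triangle dags, and cutting planes as special case -/

open Finset

namespace CliqueCP

/-- Two selections agree at the row positions if the rows agree. -/
theorem selAssg_row {q n e N k : ℕ} (φ : Fin (q + 1) → Fin 5 → Fin q) (π : Fin k ≃ Pos q e)
    (ι : Vtx q n e ↪ Fin N) (x y y' : Pt q n) (i : Fin k)
    (hi : ∃ j, π i = Sum.inl (true, j)) :
    selAssg φ π ι x y i = selAssg φ π ι x y' i := by
  obtain ⟨j, hj⟩ := hi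
  funext v
  simp only [selAssg, hj, selVtx]

theorem selAssg_col {q n e N k : ℕ} (φ : Fin (q + 1) → Fin 5 → Fin q) (π : Fin k ≃ Pos q e)
    (ι : Vtx q n e ↪ Fin N) (x x' y : Pt q n) (i : Fin k)
    (hi : ¬ ∃ j, π i = Sum.inl (true, j)) :
    selAssg φ π ι x y i = selAssg φ π ι x' y i := by
  funext v
  rcases hp : π i with ⟨b, j⟩ | u
  · cases b
    · simp only [selAssg, hp, selVtx]
    · exact absurd ⟨j, hp⟩ hi
  · simp only [selAssg, hp, selVtx]

theorem graph_reduction_split {q n' e N : ℕ} (hn' : 0 < n')
    (hN : 2 * (q + 1) * n' ^ 5 + e ≤ N)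
    (φ : Fin (q + 1) → Fin 5 → Fin q)
    (rhs : Fin (q + 1) → Bool) (hun : ∀ z, ∃ j, ¬ XSat φ rhs j z)
    (g : Fin q → Fin n' → Fin n' → Bool) :
    ∃ G : SimpleGraph (Fin N), G.CliqueFree (2 * (q + 1) + e) ∧
      ∃ P : Finset (Fin (2 * (q + 1) + e)), P.card = q + 1 ∧
      ∀ t s : ℕ, Nonempty (SplitRefutation G P t s) → Nonempty (TDag g (XSat φ rhs) t s) := by
  classical
  have hcardV : Fintype.card (Vtx q n' e) = 2 * (q + 1) * n' ^ 5 + e := by
    simp [Fintype.card_sum, Fintype.card_prod, mul_assoc]
  have hcardP : Fintype.card (Pos q e) = 2 * (q + 1) + e := by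
    simp [Fintype.card_sum, Fintype.card_prod]
  obtain ⟨ι⟩ : Nonempty (Vtx q n' e ↪ Fin N) := by
    apply Function.Embedding.nonempty_of_card_le
    rw [hcardV, Fintype.card_fin]
    exact hN
  obtain ⟨π⟩ : Nonempty (Fin (2 * (q + 1) + e) ≃ Pos q e) := by
    apply Fintype.card_eq.1
    rw [hcardP, Fintype.card_fin]
  have hne : Nonempty (Vtx q n' e) := ⟨Sum.inl (true, 0, fun _ => ⟨0, hn'⟩)⟩
  have hPeq : (univ.filter fun i => ∃ j, π i = Sum.inl (true, j)) =
      (univ : Finset (Fin (q + 1))).image fun j => π.symm (Sum.inl (true, j)) := by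
    ext i
    simp only [mem_filter, mem_univ, true_and, mem_image]
    constructor
    · rintro ⟨j, hj⟩
      exact ⟨j, by rw [← hj, Equiv.symm_apply_apply]⟩
    · rintro ⟨j, hj⟩
      exact ⟨j, by rw [← hj, Equiv.apply_symm_apply]⟩
  refine ⟨(liftGraph e φ rhs g).map ι, ?_, univ.filter fun i => ∃ j, π i = Sum.inl (true, j),
    ?_, ?_⟩
  · rw [SimpleGraph.cliqueFree_map_iff]
    exact liftGraph_cliqueFree hn' φ rhs hun g
  · rw [hPeq, card_image_of_injective, card_univ, Fintype.card_fin]
    intro j j' hjj
    have := π.symm.injective hjj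
    simpa using this
  · rintro t s ⟨R⟩
    set z0 : Pt q n' := fun _ => ⟨0, hn'⟩ with hz0
    have hholds : ∀ (m : Fin s) (x y : Pt q n'), (R.line m).Holds (selAssg φ π ι x y) ↔
        ¬ ((R.line m).f (selAssg φ π ι x z0) + (R.line m).h (selAssg φ π ι z0 y) < 0) := by
      intro m x y
      unfold SplitLine.Holds
      rw [(R.line m).f_dep (selAssg φ π ι x y) (selAssg φ π ι x z0)
        (fun i hi => selAssg_row φ π ι x y z0 i (mem_filter.mp hi).2),
        (R.line m).h_dep (selAssg φ π ι x y) (selAssg φ π ι z0 y)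
        (fun i hi => selAssg_col φ π ι x z0 y i (fun h => hi
          (mem_filter.mpr ⟨mem_univ _, h⟩))), not_lt]
    refine ⟨⟨fun m x => (R.line m).f (selAssg φ π ι x z0),
      fun m y => (R.line m).h (selAssg φ π ι z0 y), ?_, ?_⟩⟩
    · intro m
      rcases R.valid m with ⟨P, hPt, hP⟩ | ⟨a, b, ha, hb, hab⟩
      · left
        refine ⟨univ.filter fun j => ∃ i ∈ P, π i = Sum.inl (true, j), ?_, ?_⟩
        · refine le_trans ?_ hPt
          have hsub : ((univ.filter fun j => ∃ i ∈ P, π i = Sum.inl (true, j)).image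
              fun j => π.symm (Sum.inl (true, j))) ⊆ P := by
            intro i hi
            simp only [mem_image, mem_filter, mem_univ, true_and] at hi
            obtain ⟨j, ⟨i', hi', hij⟩, hi⟩ := hi
            rw [← hij, Equiv.symm_apply_apply] at hi
            rwa [← hi]
          refine le_trans (le_of_eq ?_) (Finset.card_le_card hsub)
          rw [Finset.card_image_of_injective]
          intro j j' hjj
          have := π.symm.injective hjj
          simpa using this
        · intro x y hxy
          have hnot : ¬ (R.line m).Holds (selAssg φ π ι x y) := by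
            rw [hholds]
            exact fun h => h hxy
          have hncl : ¬ CliqueOn ((liftGraph e φ rhs g).map ι) P (selAssg φ π ι x y) :=
            fun h => hnot (hP _ h)
          obtain ⟨j, hj, i, hi, hij⟩ := cliqueOn_or_violated φ rhs g π ι P x y hncl
          exact ⟨j, by simp only [mem_filter, mem_univ, true_and]; exact ⟨i, hi, hij⟩, hj⟩
      · right
        refine ⟨a, b, ha, hb, fun x y hxy => ?_⟩
        by_contra hno
        push Not at hno
        have h1 : (R.line a).Holds (selAssg φ π ι x y) := by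
          rw [hholds]; exact not_lt.2 hno.1
        have h2 : (R.line b).Holds (selAssg φ π ι x y) := by
          rw [hholds]; exact not_lt.2 hno.2
        have h3 := hab _ h1 h2
        rw [hholds] at h3
        exact h3 hxy
    · obtain ⟨m, hm⟩ := R.contra
      refine ⟨m, fun x y => ?_⟩
      have := hm (selAssg φ π ι x y)
      rw [hholds, not_not] at this
      exact this

/-- A linear inequality as a split line. -/
noncomputable def Ineq.split {k n : ℕ} (I : Ineq k n) (P : Finset (Fin k)) :
    SplitLine k n P := by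
  classical
  exact
  { f := fun z => (∑ i ∈ P, ∑ v, if z i v = true then I.coef i v else 0) - I.rhs
    h := fun z => ∑ i ∈ Pᶜ, ∑ v, if z i v = true then I.coef i v else 0
    f_dep := by
      intro z z' h
      congr 1
      apply sum_congr rfl
      intro i hi
      rw [h i hi]
    h_dep := by
      intro z z' h
      apply sum_congr rfl
      intro i hi
      rw [h i (mem_compl.mp hi)] }

theorem Ineq.split_holds {k n : ℕ} (I : Ineq k n) (P : Finset (Fin k)) (z : Assg k n) :
    (I.split P).Holds z ↔ I.Holds z := by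
  classical
  unfold SplitLine.Holds Ineq.Holds Ineq.split
  simp only
  have h := sum_add_sum_compl P (fun i => ∑ v, if z i v = true then I.coef i v else 0)
  constructor
  · intro h1; linarith
  · intro h1; linarith

theorem Refutation.toSplit {n k t s : ℕ} {G : SimpleGraph (Fin n)}
    (R : Refutation G k t s) (P : Finset (Fin k)) : Nonempty (SplitRefutation G P t s) := by
  refine ⟨⟨fun m => (R.line m).split P, ?_, ?_⟩⟩
  · intro m
    rcases R.valid m with ⟨Q, hQ, h⟩ | ⟨a, b, ha, hb, hab⟩
    · left
      refine ⟨Q, hQ, fun z hz => ?_⟩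
      rw [Ineq.split_holds]
      exact h z hz
    · right
      refine ⟨a, b, ha, hb, fun z => ?_⟩
      simp only [Ineq.split_holds]
      exact hab z
  · obtain ⟨m, hm⟩ := R.contra
    refine ⟨m, fun z => ?_⟩
    rw [Ineq.split_holds]
    exact hm z

end CliqueCP
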