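import Pool.Agent.Lib.MP_678664_lc_CP.Core
import Pool.Agent.Lib.MP_678664_lc_CP.Explicit
import Pool.Agent.Lib.MP_678664_lc_CP.Split
import Pool.Agent.Lib.MP_678664_lc_CP.Parity

/-! # The main theorem on resolution and cutting planes refutations of the clique formula -/

open Finset Filter Topology

namespace CliqueCP

theorem core_bound : ∃ c : ℝ, 0 < c ∧ ∃ C k₀ : ℕ, ∀ k ≥ k₀, ∀ n : ℕ, k ^ (C * k) ≤ n →
    ∃ G : SimpleGraph (Fin n), G.CliqueFree k ∧ ∃ P : Finset (Fin k), P.card = k / 2 ∧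
      ∀ t s : ℕ, (t : ℝ) ≤ c * k → Nonempty (SplitRefutation G P t s) →
        (n : ℝ) ^ (c * k) ≤ s :=
  core_bound_of
    (fun q lam p hp1 hp g hg m φ rhs r t s hφ hr hr2 hT =>
      lifting_explicit q lam p hp1 hp g hg m φ rhs r t s hφ hr hr2 hT)
    (fun hn' hN φ rhs hun g => graph_reduction_split hn' hN φ rhs hun g)
    exists_unsat

theorem main_explicit : ∃ c : ℝ, 0 < c ∧ ∃ C k₀ : ℕ, ∀ k ≥ k₀, ∀ n : ℕ, k ^ (C * k) ≤ n →
    ∃ G : SimpleGraph (Fin n), G.CliqueFree k ∧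
      (∀ s : ℕ, Nonempty (ResRefutation G k s) → (n : ℝ) ^ (c * k) ≤ s) ∧
      (∀ t s : ℕ, (t : ℝ) ≤ c * k → Nonempty (Refutation G k t s) → (n : ℝ) ^ (c * k) ≤ s) ∧
      (∃ P : Finset (Fin k), P.card = k / 2 ∧ ∀ t s : ℕ, (t : ℝ) ≤ c * k →
        Nonempty (SplitRefutation G P t s) → (n : ℝ) ^ (c * k) ≤ s) := by
  obtain ⟨c, hc, C, k₀, h⟩ := core_bound
  obtain ⟨k₁, hk₁⟩ := exists_nat_ge (2 / c)
  refine ⟨c, hc, C, max k₀ k₁, fun k hk n hn => ?_⟩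
  obtain ⟨G, hG, P, hP, hb⟩ := h k (le_of_max_le_left hk) n hn
  have hk2 : (2 : ℝ) ≤ c * k := by
    have h1 : (k₁ : ℝ) ≤ k := by exact_mod_cast le_of_max_le_right hk
    have h2 : 2 / c ≤ k := hk₁.trans h1
    rw [div_le_iff₀ hc] at h2
    linarith
  have hcp : ∀ t s : ℕ, (t : ℝ) ≤ c * k → Nonempty (Refutation G k t s) →
      (n : ℝ) ^ (c * k) ≤ s := by
    rintro t s ht ⟨R⟩
    exact hb t s ht (R.toSplit P)
  refine ⟨G, hG, ?_, hcp, P, hP, hb⟩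
  rintro s ⟨R⟩
  exact hcp 2 s (by exact_mod_cast hk2) R.toRefutation

end CliqueCP
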