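import Pool.Agent.Lib.MP_678664_lc_CP.Defs

/-!
# Module D: existence of a good gadget (counting)
-/

open Finset

namespace CliqueCP

namespace ModD

theorem bern_aux (m k : ℕ) : m ^ (k + 1) + (k + 1) * m ^ k ≤ (m + 1) ^ (k + 1) := by
  induction k with
  | zero => simp
  | succ k ih =>
    calc m ^ (k + 1 + 1) + (k + 1 + 1) * m ^ (k + 1)
        ≤ (m ^ (k + 1) + (k + 1) * m ^ k) * (m + 1) := by
          have h : (m ^ (k + 1) + (k + 1) * m ^ k) * (m + 1)
              = m ^ (k + 1 + 1) + (k + 1 + 1) * m ^ (k + 1) + (k + 1) * m ^ k := by ring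
          rw [h]
          exact Nat.le_add_right _ _
      _ ≤ (m + 1) ^ (k + 1) * (m + 1) := Nat.mul_le_mul_right _ ih
      _ = (m + 1) ^ (k + 1 + 1) := by ring

theorem bern (c : ℕ) : (2 ^ c - 1) ^ (2 ^ c) * 2 ≤ (2 ^ c) ^ (2 ^ c) := by
  obtain ⟨m, hm⟩ : ∃ m, 2 ^ c = m + 1 :=
    ⟨2 ^ c - 1, by have := Nat.one_le_two_pow (n := c); omega⟩
  rw [hm]
  simp only [Nat.add_sub_cancel]
  have h := bern_aux m m
  calc m ^ (m + 1) * 2 ≤ m ^ (m + 1) + (m + 1) * m ^ m := by
        have : (m + 1) * m ^ m = m ^ (m + 1) + m ^ m := by ring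
        omega
    _ ≤ (m + 1) ^ (m + 1) := h

/-- The number of functions avoiding a pattern on each of several disjoint blocks. -/
theorem card_bad {J C I : Type*} [Fintype J] [Fintype C] [Fintype I]
    (e : J × C → I) (he : Function.Injective e) (ρ : C → Bool) (B : Finset (I → Bool))
    (hB : ∀ g ∈ B, ∀ j, ∃ i, g (e (j, i)) ≠ ρ i) :
    B.card * 2 ^ (Fintype.card J * Fintype.card C) ≤
      (2 ^ Fintype.card C - 1) ^ Fintype.card J * 2 ^ Fintype.card I := by
  classical
  let R : Finset I := univ.image e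
  have hR : R.card = Fintype.card J * Fintype.card C := by
    rw [Finset.card_image_of_injective _ he, Finset.card_univ, Fintype.card_prod]
  let F : {g // g ∈ B} → (J → {h : C → Bool // h ≠ ρ}) × ({i : I // i ∉ R} → Bool) :=
    fun g => (fun j => ⟨fun i => g.1 (e (j, i)), by
      obtain ⟨i, hi⟩ := hB g.1 g.2 j
      exact fun hh => hi (congrFun hh i)⟩, fun i => g.1 i.1)
  have hF : Function.Injective F := by
    intro g g' h
    apply Subtype.ext
    funext i
    by_cases hi : i ∈ R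
    · obtain ⟨⟨j, c⟩, -, rfl⟩ := Finset.mem_image.mp hi
      have h1 := congrArg Prod.fst h
      have h2 := congrArg Subtype.val (congrFun h1 j)
      exact congrFun h2 c
    · have h1 := congrArg Prod.snd h
      exact congrFun h1 ⟨i, hi⟩
  have h1 := Fintype.card_le_of_injective F hF
  rw [Fintype.card_coe, Fintype.card_prod, Fintype.card_fun, Fintype.card_fun,
    Fintype.card_bool] at h1
  have h2 : Fintype.card {h : C → Bool // h ≠ ρ} = 2 ^ Fintype.card C - 1 := by
    rw [Fintype.card_subtype_compl, Fintype.card_fun, Fintype.card_bool,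
      Fintype.card_subtype_eq]
  have h3 : Fintype.card {i : I // i ∉ R} = Fintype.card I - Fintype.card J * Fintype.card C := by
    rw [Fintype.card_subtype_compl, ← hR]
    congr 1
    exact Fintype.card_coe R
  have h4 : Fintype.card J * Fintype.card C ≤ Fintype.card I := by
    rw [← hR]; exact Finset.card_le_univ R
  rw [h2, h3] at h1
  calc B.card * 2 ^ (Fintype.card J * Fintype.card C)
      ≤ ((2 ^ Fintype.card C - 1) ^ Fintype.card J *
        2 ^ (Fintype.card I - Fintype.card J * Fintype.card C)) *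
        2 ^ (Fintype.card J * Fintype.card C) := Nat.mul_le_mul_right _ h1
    _ = (2 ^ Fintype.card C - 1) ^ Fintype.card J * 2 ^ Fintype.card I := by
      rw [mul_assoc, ← pow_add, Nat.sub_add_cancel h4]

/-- The arithmetic of the union bound. -/
theorem pow_ineq (q c L : ℕ) (hc : c ≤ q) :
    (2 ^ c - 1) ^ (2 ^ q * L * (2 ^ q * L)) * 2 ^ (L * (2 ^ q * L)) ≤
      2 ^ (2 ^ q * L * (2 ^ q * L) * c) := by
  have h1 : 2 ^ q * L * (2 ^ q * L) = 2 ^ c * (2 ^ (q - c) * (L * (2 ^ q * L))) := by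
    have : 2 ^ q = 2 ^ c * 2 ^ (q - c) := by rw [← pow_add]; congr 1; omega
    calc 2 ^ q * L * (2 ^ q * L) = 2 ^ q * (L * (2 ^ q * L)) := by ring
      _ = (2 ^ c * 2 ^ (q - c)) * (L * (2 ^ q * L)) := by rw [← this]
      _ = _ := by ring
  have h2 : L * (2 ^ q * L) ≤ 2 ^ (q - c) * (L * (2 ^ q * L)) :=
    Nat.le_mul_of_pos_left _ (Nat.two_pow_pos _)
  calc (2 ^ c - 1) ^ (2 ^ q * L * (2 ^ q * L)) * 2 ^ (L * (2 ^ q * L))
      ≤ (2 ^ c - 1) ^ (2 ^ c * (2 ^ (q - c) * (L * (2 ^ q * L)))) *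
        2 ^ (2 ^ (q - c) * (L * (2 ^ q * L))) := by
        rw [h1]
        exact Nat.mul_le_mul_left _ (Nat.pow_le_pow_right (by norm_num) h2)
    _ = ((2 ^ c - 1) ^ (2 ^ c) * 2) ^ (2 ^ (q - c) * (L * (2 ^ q * L))) := by
        rw [mul_pow, pow_mul]
    _ ≤ ((2 ^ c) ^ (2 ^ c)) ^ (2 ^ (q - c) * (L * (2 ^ q * L))) :=
        Nat.pow_le_pow_left (bern c) _
    _ = 2 ^ (2 ^ q * L * (2 ^ q * L) * c) := by
        rw [h1, ← pow_mul, ← pow_mul]
        congr 1
        ring

end ModD

open ModD in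
theorem exists_gadget (q p : ℕ) :
    ∃ g : Fin q → Fin (2 ^ (4 * p)) → Fin (2 ^ (4 * p)) → Bool,
      GadgetGood g (2 ^ q * (8 * p * q + 2 * q + 1)) := by
  classical
  by_contra hcon
  push Not at hcon
  set n := 2 ^ (4 * p) with hn
  set L := 8 * p * q + 2 * q + 1 with hL
  set M := 2 ^ q * L with hM
  have hMpos : 0 < M := Nat.mul_pos (Nat.two_pow_pos _) (by omega)
  -- index type of the gadget tables
  let I := Fin q × Fin n × Fin n
  let cur : (I → Bool) → (Fin q → Fin n → Fin n → Bool) := fun g i a b => g (i, a, b)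
  let K := Finset (Fin q) × (Fin M → Pt q n) × (Fin M → Pt q n) × (Fin q → Bool)
  let ok : K → Prop := fun k =>
    (∀ i ∈ k.1, Function.Injective fun a => k.2.1 a i) ∧
      (∀ i ∈ k.1, Function.Injective fun a => k.2.2.1 a i)
  let Bad : K → Finset (I → Bool) := fun k =>
    univ.filter fun g => ok k ∧ ∀ a b, ∃ i ∈ k.1, g (i, k.2.1 a i, k.2.2.1 b i) ≠ k.2.2.2 i
  have hcover : (univ : Finset (I → Bool)) ⊆ (univ : Finset K).biUnion Bad := by
    intro g _
    have h := hcon (cur g)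
    unfold GadgetGood at h
    push Not at h
    obtain ⟨C, x, y, ρ, hx, hy, hbad⟩ := h
    refine Finset.mem_biUnion.mpr ⟨(C, x, y, ρ), Finset.mem_univ _, ?_⟩
    exact Finset.mem_filter.mpr ⟨Finset.mem_univ _, ⟨hx, hy⟩, hbad⟩
  have hone : ∀ k : K, (Bad k).card * 2 ^ (L * M) ≤ 2 ^ Fintype.card I := by
    intro k
    by_cases hk : ok k
    · let e : (Fin M × Fin M) × {i // i ∈ k.1} → I := fun z =>
        (z.2.1, k.2.1 z.1.1 z.2.1, k.2.2.1 z.1.2 z.2.1)
      have he : Function.Injective e := by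
        rintro ⟨⟨a, b⟩, ⟨i, hi⟩⟩ ⟨⟨a', b'⟩, ⟨i', hi'⟩⟩ h
        have h0 : i = i' := congrArg (fun z : I => z.1) h
        subst h0
        have h1 : k.2.1 a i = k.2.1 a' i := congrArg (fun z : I => z.2.1) h
        have h2 : k.2.2.1 b i = k.2.2.1 b' i := congrArg (fun z : I => z.2.2) h
        have ha : a = a' := hk.1 i hi h1
        have hb : b = b' := hk.2 i hi h2
        subst ha; subst hb
        rfl
      have h1 := card_bad e he (fun i => k.2.2.2 i.1) (Bad k) (by
        rintro g hg ⟨a, b⟩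
        obtain ⟨i, hi, hne⟩ := (Finset.mem_filter.mp hg).2.2 a b
        exact ⟨⟨i, hi⟩, hne⟩)
      rw [Fintype.card_prod, Fintype.card_fin, Fintype.card_coe] at h1
      have hc : k.1.card ≤ q := by
        simpa using Finset.card_le_univ k.1
      have h2 := pow_ineq q k.1.card L hc
      rw [← hM] at h2
      have hpos : 0 < 2 ^ (M * M * k.1.card) := Nat.two_pow_pos _
      refine Nat.le_of_mul_le_mul_right ?_ hpos
      calc (Bad k).card * 2 ^ (L * M) * 2 ^ (M * M * k.1.card)
          = ((Bad k).card * 2 ^ (M * M * k.1.card)) * 2 ^ (L * M) := by ring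
        _ ≤ ((2 ^ k.1.card - 1) ^ (M * M) * 2 ^ Fintype.card I) * 2 ^ (L * M) :=
            Nat.mul_le_mul_right _ h1
        _ = ((2 ^ k.1.card - 1) ^ (M * M) * 2 ^ (L * M)) * 2 ^ Fintype.card I := by ring
        _ ≤ 2 ^ (M * M * k.1.card) * 2 ^ Fintype.card I := Nat.mul_le_mul_right _ h2
        _ = 2 ^ Fintype.card I * 2 ^ (M * M * k.1.card) := by ring
    · have : Bad k = ∅ := by
        apply Finset.filter_eq_empty_iff.mpr
        intro g _ hg
        exact hk hg.1
      rw [this]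
      simp
  have hcardK : Fintype.card K = 2 ^ (2 * q + 8 * p * q * M) := by
    simp only [K, Fintype.card_prod, Fintype.card_finset, Fintype.card_fun, Fintype.card_fin,
      Fintype.card_bool, Pt, hn]
    rw [← pow_mul, ← pow_mul, ← pow_add, ← pow_add, ← pow_add]
    congr 1
    ring
  have hsum : 2 ^ Fintype.card I * 2 ^ (L * M) ≤ 2 ^ (2 * q + 8 * p * q * M) * 2 ^ Fintype.card I := by
    have h1 : Fintype.card (I → Bool) ≤ ∑ k : K, (Bad k).card := by
      calc Fintype.card (I → Bool) = (univ : Finset (I → Bool)).card := (Finset.card_univ).symm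
        _ ≤ ((univ : Finset K).biUnion Bad).card := Finset.card_le_card hcover
        _ ≤ ∑ k : K, (Bad k).card := Finset.card_biUnion_le
    rw [Fintype.card_fun, Fintype.card_bool] at h1
    calc 2 ^ Fintype.card I * 2 ^ (L * M) ≤ (∑ k : K, (Bad k).card) * 2 ^ (L * M) :=
          Nat.mul_le_mul_right _ h1
      _ = ∑ k : K, (Bad k).card * 2 ^ (L * M) := Finset.sum_mul _ _ _
      _ ≤ ∑ k : K, 2 ^ Fintype.card I := Finset.sum_le_sum fun k _ => hone k
      _ = 2 ^ (2 * q + 8 * p * q * M) * 2 ^ Fintype.card I := by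
          rw [Finset.sum_const, Finset.card_univ, hcardK, smul_eq_mul]
  have h5 : 2 ^ (L * M) ≤ 2 ^ (2 * q + 8 * p * q * M) := by
    refine Nat.le_of_mul_le_mul_left ?_ (Nat.two_pow_pos (Fintype.card I))
    rw [mul_comm (2 ^ Fintype.card I) (2 ^ (2 * q + 8 * p * q * M))]
    exact hsum
  have h6 : L * M ≤ 2 * q + 8 * p * q * M := (Nat.pow_le_pow_iff_right (by norm_num)).mp h5
  have h7 : L * M = 8 * p * q * M + 2 * q * M + M := by rw [hL]; ring
  have h8 : 2 * q ≤ 2 * q * M := Nat.le_mul_of_pos_right _ hMpos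
  omega

end CliqueCP
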