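import Pool.Agent.Lib.MP_678664_lc_CP.GraphReduction
import Pool.Agent.Lib.MP_678664_lc_CP.Expander
import Pool.Agent.Lib.MP_678664_lc_CP.ModD

/-!
# Module G: choice of the parameters
-/

open Finset

namespace CliqueCP

/-- The conclusion of the lifting theorem, as a statement. -/
def LiftingStatement : Prop :=
  ∀ (q lam : ℕ), ∃ C : ℕ, ∃ p₀ : ℕ, ∀ p ≥ p₀,
    ∀ g : Fin q → Fin (2 ^ (4 * p)) → Fin (2 ^ (4 * p)) → Bool,
    GadgetGood g (2 ^ q * (8 * p * q + 2 * q + 1)) →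
    ∀ (m : ℕ) (φ : Fin m → Fin 5 → Fin q) (rhs : Fin m → Bool) (r t s : ℕ),
    Expands φ r → 2 * (4 * lam + 5 * t) ≤ r → 2 ≤ r →
    Nonempty (TDag g (XSat φ rhs) t s) → 2 ^ (p * lam) ≤ C * s

/-- The arithmetic of the final bound. -/
theorem final_bound {C K n p lam s : ℕ} (hlam : 1 ≤ lam) (hK : n ≤ K * 2 ^ (20 * p))
    (hn : C ^ 40 * K ^ (2 * lam) ≤ n) (hC : 0 < C) (hK0 : 0 < K)
    (hs : 2 ^ (p * lam) ≤ C * s) : n ^ lam ≤ s ^ 40 := by
  have h1 : (2 ^ (p * lam)) ^ 40 ≤ (C * s) ^ 40 := Nat.pow_le_pow_left hs 40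
  have h2 : n ^ (2 * lam) ≤ (K * 2 ^ (20 * p)) ^ (2 * lam) := Nat.pow_le_pow_left hK _
  have h3 : (K * 2 ^ (20 * p)) ^ (2 * lam) = K ^ (2 * lam) * (2 ^ (p * lam)) ^ 40 := by
    rw [mul_pow, ← pow_mul, ← pow_mul]
    congr 2
    ring
  have h4 : n ≤ n ^ lam := Nat.le_self_pow (by omega) n
  have h5 : (C ^ 40 * K ^ (2 * lam)) * n ^ lam ≤ (C ^ 40 * K ^ (2 * lam)) * s ^ 40 := by
    calc (C ^ 40 * K ^ (2 * lam)) * n ^ lam ≤ n ^ lam * n ^ lam :=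
          Nat.mul_le_mul_right _ (hn.trans h4)
      _ = n ^ (2 * lam) := by rw [← pow_add]; congr 1; ring
      _ ≤ K ^ (2 * lam) * (2 ^ (p * lam)) ^ 40 := h2.trans (le_of_eq h3)
      _ ≤ K ^ (2 * lam) * (C * s) ^ 40 := Nat.mul_le_mul_left _ h1
      _ = (C ^ 40 * K ^ (2 * lam)) * s ^ 40 := by rw [mul_pow]; ring
  exact Nat.le_of_mul_le_mul_left h5 (by positivity)

theorem rpow_le_of_pow_le {n s lam : ℕ} {a : ℝ} (hn : 1 ≤ n) (ha : 40 * a ≤ lam)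
    (h : n ^ lam ≤ s ^ 40) : (n : ℝ) ^ a ≤ s := by
  have hn1 : (1 : ℝ) ≤ n := by exact_mod_cast hn
  have h1 : ((n : ℝ) ^ a) ^ (40 : ℕ) ≤ (s : ℝ) ^ (40 : ℕ) := by
    rw [← Real.rpow_natCast, ← Real.rpow_mul (by positivity)]
    calc (n : ℝ) ^ (a * ((40 : ℕ) : ℝ)) ≤ (n : ℝ) ^ (lam : ℝ) := by
          apply Real.rpow_le_rpow_of_exponent_le hn1
          push_cast
          linarith
      _ = (n : ℝ) ^ lam := Real.rpow_natCast _ _
      _ ≤ (s : ℝ) ^ 40 := by exact_mod_cast h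
  exact le_of_pow_le_pow_left₀ (by norm_num) (by positivity) h1

/-- **Module G**, from the lifting theorem and the existence of an unsatisfiable right-hand
side. -/
theorem main_of (lifting : LiftingStatement)
    (exists_unsat : ∀ {q : ℕ} (φ : Fin (q + 1) → Fin 5 → Fin q),
      ∃ rhs : Fin (q + 1) → Bool, ∀ z, ∃ j, ¬ XSat φ rhs j z) :
    ∃ c : ℝ, 0 < c ∧ ∃ k₀ : ℕ, ∀ k ≥ k₀, ∃ n₀ : ℕ, ∀ n ≥ n₀,
    ∃ G : SimpleGraph (Fin n), G.CliqueFree k ∧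
      (∀ t s : ℕ, (t : ℝ) ≤ c * k → Nonempty (Refutation G k t s) → (n : ℝ) ^ (c * k) ≤ s) ∧
      (∀ s : ℕ, Nonempty (ResRefutation G k s) → (n : ℝ) ^ (c * k) ≤ s) := by
  obtain ⟨q₀, hexp⟩ := exists_expander
  refine ⟨1 / 10 ^ 7, by norm_num, 2 * q₀ + 10 ^ 6, fun k hk => ?_⟩
  obtain ⟨q, e, he, hq, hkq⟩ : ∃ q e : ℕ, e ≤ 1 ∧ q₀ ≤ q ∧ k = 2 * (q + 1) + e :=
    ⟨k / 2 - 1, k % 2, by omega, by omega, by omega⟩
  subst hkq
  obtain ⟨φ, hφ⟩ := hexp q hq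
  obtain ⟨rhs, hrhs⟩ := exists_unsat φ
  set r := q / 4000 with hr
  set lam := r / 18 with hlam
  have hlam1 : 2 ≤ lam := by omega
  have hlamk : 2 * (q + 1) + e ≤ 250000 * lam := by omega
  obtain ⟨C, p₀, hlift⟩ := lifting q lam
  set Q := 2 * (q + 1) + 1 with hQ
  set K := Q * 2 ^ 20 with hKdef
  refine ⟨C ^ 40 * K ^ (2 * lam) + Q * (2 ^ 20) ^ p₀ + 1, fun n hn => ?_⟩
  have hQ0 : 0 < Q := by omega
  set p := Nat.log (2 ^ 20) (n / Q) with hp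
  have hdiv : (2 ^ 20) ^ p₀ ≤ n / Q := by
    rw [Nat.le_div_iff_mul_le hQ0, mul_comm]
    omega
  have hdiv0 : n / Q ≠ 0 := by
    have : 0 < (2 ^ 20) ^ p₀ := by positivity
    omega
  have hpp : p₀ ≤ p := by
    rw [hp]
    exact Nat.le_log_of_pow_le (by norm_num) hdiv
  have hple : Q * (2 ^ 20) ^ p ≤ n := by
    have h1 : (2 ^ 20) ^ p ≤ n / Q := Nat.pow_log_le_self _ hdiv0
    rw [Nat.le_div_iff_mul_le hQ0, mul_comm] at h1
    exact h1
  have hplt : n ≤ K * 2 ^ (20 * p) := by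
    have h1 : n / Q < (2 ^ 20) ^ (p + 1) := Nat.lt_pow_succ_log_self (by norm_num) _
    rw [Nat.div_lt_iff_lt_mul hQ0] at h1
    refine h1.le.trans (le_of_eq ?_)
    rw [hKdef, pow_succ, pow_mul]
    ring
  obtain ⟨g, hg⟩ := exists_gadget q p
  have hN : 2 * (q + 1) * (2 ^ (4 * p)) ^ 5 + e ≤ n := by
    refine le_trans ?_ hple
    have h1 : (2 ^ (4 * p)) ^ 5 = (2 ^ 20) ^ p := by
      rw [← pow_mul, ← pow_mul]
      congr 1
      ring
    have h2 : 0 < (2 ^ 20) ^ p := by positivity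
    rw [h1, hQ, add_mul]
    have h3 : e ≤ 1 * (2 ^ 20) ^ p := by omega
    omega
  obtain ⟨G, hG, hred⟩ := graph_reduction (N := n) (by positivity) hN φ rhs hrhs g
  have hn1 : 1 ≤ n := by omega
  have hbound : ∀ t s : ℕ, t ≤ lam → Nonempty (Refutation G (2 * (q + 1) + e) t s) →
      (n : ℝ) ^ (1 / 10 ^ 7 * ((2 * (q + 1) + e : ℕ) : ℝ)) ≤ s := by
    intro t s ht hR
    have hT := hred t s hR
    have hs := hlift p hpp g hg (q + 1) φ rhs r t s hφ (by omega) (by omega) hT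
    have hC : 0 < C := by
      rcases Nat.eq_zero_or_pos C with h | h
      · rw [h, zero_mul] at hs
        have : 0 < 2 ^ (p * lam) := by positivity
        omega
      · exact h
    have hfin := final_bound (C := C) (K := K) (n := n) (p := p) (lam := lam) (s := s)
      (by omega) hplt (by omega) hC (by positivity) hs
    refine rpow_le_of_pow_le hn1 ?_ hfin
    have : ((2 * (q + 1) + e : ℕ) : ℝ) ≤ 250000 * lam := by exact_mod_cast hlamk
    linarith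
  refine ⟨G, hG, fun t s ht hR => hbound t s ?_ hR, fun s hR => ?_⟩
  · have h1 : ((2 * (q + 1) + e : ℕ) : ℝ) ≤ 250000 * lam := by exact_mod_cast hlamk
    have h2 : (t : ℝ) ≤ lam := by
      have h3 : (0 : ℝ) ≤ lam := by positivity
      linarith
    exact_mod_cast h2
  · obtain ⟨R⟩ := hR
    exact hbound 2 s hlam1 R.toRefutation

end CliqueCP
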