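import Pool.Agent.Lib.MP_678664_lc_CP.Evol

/-! # Lists of steps: sizes, costs and the error set -/

open Finset

namespace CliqueCP

/-- Number of successful peels. -/
def Step.pcn {q : ℕ} : Step q → ℕ
  | .peel (some _) => 1
  | _ => 0

/-- Number of fixings. -/
def Step.fcn {q : ℕ} : Step q → ℕ
  | .fix _ => 1
  | _ => 0

/-- Number of low steps. -/
def Step.lcn {q : ℕ} : Step q → ℕ
  | .low => 1
  | _ => 0

def pc {q : ℕ} (l : List (Step q)) : ℕ := (l.map Step.pcn).sum
def fc {q : ℕ} (l : List (Step q)) : ℕ := (l.map Step.fcn).sum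
def lc {q : ℕ} (l : List (Step q)) : ℕ := (l.map Step.lcn).sum

/-- The fixed coordinates after a list of steps. -/
def kset {q : ℕ} (K : Finset (Fin q)) (l : List (Step q)) : Finset (Fin q) :=
  l.foldl Step.upd K

/-- Evolution under a list of steps: final set and total cost. -/
noncomputable def ev {q n : ℕ} (N : ℕ) (f : Pt q n → ℝ) :
    List (Step q) → Finset (Fin q) → Finset (Pt q n) → Pt q n → Option (Finset (Pt q n) × ℝ)
  | [], _, A, _ => some (A, 1)
  | s :: l, K, A, x =>
    match next N f K A s x with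
    | none => none
    | some (A', c) => (ev N f l (s.upd K) A' x).map fun p => (p.1, c * p.2)

theorem ev_cons_some {q n : ℕ} {N : ℕ} {f : Pt q n → ℝ} {s : Step q} {l : List (Step q)}
    {K : Finset (Fin q)} {A : Finset (Pt q n)} {x : Pt q n} {B : Finset (Pt q n)} {c : ℝ} :
    ev N f (s :: l) K A x = some (B, c) ↔ ∃ A' c₁ c₂, next N f K A s x = some (A', c₁) ∧
      ev N f l (s.upd K) A' x = some (B, c₂) ∧ c = c₁ * c₂ := by
  constructor
  · intro h
    simp only [ev] at h
    rcases hn : next N f K A s x with _ | ⟨A', c₁⟩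
    · rw [hn] at h; simp at h
    · rw [hn] at h
      simp only at h
      rcases he : ev N f l (s.upd K) A' x with _ | ⟨B', c₂⟩
      · rw [he] at h; simp at h
      · rw [he] at h
        simp only [Option.map_some, Option.some.injEq, Prod.mk.injEq] at h
        obtain ⟨h1, h2⟩ := h
        subst h1
        exact ⟨A', c₁, c₂, rfl, he, h2.symm⟩
  · rintro ⟨A', c₁, c₂, h1, h2, h3⟩
    simp only [ev, h1, h2, Option.map_some, h3]

theorem kset_cons {q : ℕ} (K : Finset (Fin q)) (s : Step q) (l : List (Step q)) :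
    kset K (s :: l) = kset (s.upd K) l := rfl

theorem kset_append {q : ℕ} (K : Finset (Fin q)) (l l' : List (Step q)) :
    kset K (l ++ l') = kset (kset K l) l' := by
  unfold kset; rw [List.foldl_append]

theorem pc_append {q : ℕ} (l l' : List (Step q)) : pc (l ++ l') = pc l + pc l' := by
  unfold pc; rw [List.map_append, List.sum_append]

theorem fc_append {q : ℕ} (l l' : List (Step q)) : fc (l ++ l') = fc l + fc l' := by
  unfold fc; rw [List.map_append, List.sum_append]

theorem lc_append {q : ℕ} (l l' : List (Step q)) : lc (l ++ l') = lc l + lc l' := by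
  unfold lc; rw [List.map_append, List.sum_append]

theorem ev_append_single {q n : ℕ} {N : ℕ} {f : Pt q n → ℝ} {s : Step q} {l : List (Step q)}
    {K : Finset (Fin q)} {A : Finset (Pt q n)} {x : Pt q n} {B : Finset (Pt q n)} {c : ℝ}
    (h : ev N f l K A x = some (B, c)) {B' : Finset (Pt q n)} {c' : ℝ}
    (h' : next N f (kset K l) B s x = some (B', c')) :
    ev N f (l ++ [s]) K A x = some (B', c * c') := by
  induction l generalizing K A c with
  | nil =>
    simp only [ev, Option.some.injEq, Prod.mk.injEq] at h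
    obtain ⟨h1, h2⟩ := h
    subst h1; subst h2
    rw [List.nil_append, ev_cons_some]
    exact ⟨B', c', 1, h', rfl, by ring⟩
  | cons s' l ih =>
    rw [ev_cons_some] at h
    obtain ⟨A', c₁, c₂, h1, h2, h3⟩ := h
    rw [List.cons_append, ev_cons_some]
    refine ⟨A', c₁, c₂ * c', h1, ih h2 h', ?_⟩
    rw [h3]; ring

theorem ev_spec {q n : ℕ} {N : ℕ} (hN : 1 ≤ N) {f : Pt q n → ℝ} {l : List (Step q)}
    {K : Finset (Fin q)} {A : Finset (Pt q n)} {x : Pt q n} (hx : x ∈ A)
    {B : Finset (Pt q n)} {c : ℝ} (h : ev N f l K A x = some (B, c)) :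
    x ∈ B ∧ B ⊆ A ∧ 1 ≤ c ∧ (N : ℝ) ^ lc l ≤ c ^ 2 ∧
    (A.card : ℝ) ≤ c ^ 2 * B.card * ((N : ℝ) ^ 2) ^ pc l * (n : ℝ) ^ fc l ∧
    (∀ x' ∈ B, ∀ i ∈ kset K l, i ∈ K ∨ x' i = x i) := by
  induction l generalizing K A c with
  | nil =>
    simp only [ev, Option.some.injEq, Prod.mk.injEq] at h
    obtain ⟨h1, h2⟩ := h
    subst h1; subst h2
    refine ⟨hx, Subset.refl _, le_refl _, by simp [lc], by simp [pc, fc], ?_⟩
    intro x' _ i hi
    exact Or.inl hi
  | cons s l ih =>
    rw [ev_cons_some] at h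
    obtain ⟨A', c₁, c₂, h1, h2, h3⟩ := h
    obtain ⟨a1, a2, a3⟩ := next_mem hx h1
    obtain ⟨b1, b2, b3⟩ := one_le_cost hN hx h1
    obtain ⟨d1, d2, d3, d4, d5, d6⟩ := ih a1 h2
    have hNr : (1 : ℝ) ≤ N := by exact_mod_cast hN
    refine ⟨d1, d2.trans a2, ?_, ?_, ?_, ?_⟩
    · rw [h3]
      nlinarith
    · rw [h3, mul_pow]
      have hlc : lc (s :: l) = s.lcn + lc l := by simp [lc]
      rw [hlc, pow_add]
      apply mul_le_mul _ d4 (by positivity) (by positivity)
      rcases s with o | j | _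
      · simp only [Step.lcn, pow_zero]
        nlinarith
      · simp only [Step.lcn, pow_zero]
        nlinarith
      · simp only [Step.lcn, pow_one]
        exact b2 rfl
    · have hpc : pc (s :: l) = s.pcn + pc l := by simp [pc]
      have hfc : fc (s :: l) = s.fcn + fc l := by simp [fc]
      rw [hpc, hfc, h3, pow_add, pow_add, mul_pow]
      have hs : (A.card : ℝ) ≤ c₁ ^ 2 * A'.card * (((N : ℝ) ^ 2) ^ s.pcn * (n : ℝ) ^ s.fcn) := by
        rcases s with (_ | i) | j | _ <;> simpa [Step.pcn, Step.fcn] using b3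
      calc (A.card : ℝ) ≤ c₁ ^ 2 * A'.card * (((N : ℝ) ^ 2) ^ s.pcn * (n : ℝ) ^ s.fcn) := hs
        _ ≤ c₁ ^ 2 * (c₂ ^ 2 * B.card * ((N : ℝ) ^ 2) ^ pc l * (n : ℝ) ^ fc l) *
            (((N : ℝ) ^ 2) ^ s.pcn * (n : ℝ) ^ s.fcn) := by gcongr
        _ = _ := by ring
    · intro x' hx' i hi
      rw [kset_cons] at hi
      rcases d6 x' hx' i hi with h6 | h6
      · rcases next_const hx h1 x' (d2 hx') i h6 with h7 | h7
        · exact Or.inl h7
        · exact Or.inr h7
      · exact Or.inr h6

/-- The weighted value of an outcome. -/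
def wc {X : Type*} (o : Option (Finset X × ℝ)) (φ : Finset X → ℝ) : ℝ :=
  match o with
  | none => 0
  | some p => p.2 * φ p.1

/-- Sum of all costs of lists of length at most `L` (upper bound). -/
noncomputable def pot {q n : ℕ} (N : ℕ) (f : Pt q n → ℝ) :
    ℕ → Finset (Fin q) → Finset (Pt q n) → Pt q n → ℝ
  | 0, _, _, _ => 1
  | L + 1, K, A, x => 1 + ∑ s : Step q,
      wc (next N f K A s x) (fun A' => pot N f L (s.upd K) A' x)

theorem next_cost_nonneg {q n : ℕ} {N : ℕ} {f : Pt q n → ℝ} {K : Finset (Fin q)}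
    {A : Finset (Pt q n)} {s : Step q} {x : Pt q n} {A' : Finset (Pt q n)} {c : ℝ}
    (h : next N f K A s x = some (A', c)) : 0 ≤ c := by
  rcases s with o | j | _
  · simp only [next] at h
    split_ifs at h with h1
    obtain ⟨h2, h3⟩ := Prod.mk.inj (Option.some.inj h)
    rw [← h3]; exact Real.sqrt_nonneg _
  · simp only [next] at h
    obtain ⟨h2, h3⟩ := Prod.mk.inj (Option.some.inj h)
    rw [← h3]; exact Real.sqrt_nonneg _
  · simp only [next] at h
    split_ifs at h with h1
    obtain ⟨h2, h3⟩ := Prod.mk.inj (Option.some.inj h)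
    rw [← h3]; exact Real.sqrt_nonneg _

theorem wc_nonneg {q n : ℕ} {N : ℕ} {f : Pt q n → ℝ} {K : Finset (Fin q)}
    {A : Finset (Pt q n)} {s : Step q} {x : Pt q n} {φ : Finset (Pt q n) → ℝ}
    (hφ : ∀ A', 0 ≤ φ A') : 0 ≤ wc (next N f K A s x) φ := by
  rcases hn : next N f K A s x with _ | ⟨A', c⟩
  · exact le_refl _
  · simp only [wc]
    have h1 := next_cost_nonneg hn
    have h2 := hφ A'
    positivity

theorem one_le_pot {q n : ℕ} (N : ℕ) (f : Pt q n → ℝ) (L : ℕ) (K : Finset (Fin q))
    (A : Finset (Pt q n)) (x : Pt q n) : 1 ≤ pot N f L K A x := by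
  induction L generalizing K A with
  | zero => exact le_refl _
  | succ L ih =>
    simp only [pot]
    have : 0 ≤ ∑ s : Step q, wc (next N f K A s x)
        (fun A' => pot N f L (s.upd K) A' x) := by
      apply sum_nonneg
      intro s _
      apply wc_nonneg
      intro A'
      linarith [ih (s.upd K) A']
    linarith

theorem ev_le_pot {q n : ℕ} {N : ℕ} {f : Pt q n → ℝ} {l : List (Step q)} {L : ℕ}
    (hL : l.length ≤ L)
    {K : Finset (Fin q)} {A : Finset (Pt q n)} {x : Pt q n}
    {B : Finset (Pt q n)} {c : ℝ} (h : ev N f l K A x = some (B, c)) :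
    c ≤ pot N f L K A x := by
  induction l generalizing K A c L with
  | nil =>
    simp only [ev, Option.some.injEq, Prod.mk.injEq] at h
    rw [← h.2]
    exact one_le_pot _ _ _ _ _ _
  | cons s l ih =>
    rw [ev_cons_some] at h
    obtain ⟨A', c₁, c₂, h1, h2, h3⟩ := h
    rcases L with _ | L
    · simp at hL
    have hL' : l.length ≤ L := by simpa using hL
    simp only [pot]
    have hs : wc (next N f K A s x) (fun A' => pot N f L (s.upd K) A' x) ≤
        ∑ s : Step q, wc (next N f K A s x) (fun A' => pot N f L (s.upd K) A' x) := by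
      apply single_le_sum (f := fun s : Step q => wc (next N f K A s x)
        (fun A' => pot N f L (s.upd K) A' x)) _ (mem_univ s)
      intro s' _
      apply wc_nonneg
      intro A'
      linarith [one_le_pot N f L (s'.upd K) A' x]
    rw [h1] at hs
    simp only [wc] at hs
    have h4 := ih hL' h2
    have h5 := next_cost_nonneg h1
    simp only [wc] at *
    rw [h3]
    nlinarith

/-- Grouping of a sum over the classes of one step. -/
theorem sum_group {X : Type*} {A : Finset X} (F : X → Option (Finset X × ℝ))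
    (hF : ∀ x ∈ A, ∀ A' c, F x = some (A', c) → x ∈ A' ∧ A' ⊆ A ∧ ∀ x' ∈ A', F x' = some (A', c))
    (hc : ∀ x ∈ A, ∀ A' c, F x = some (A', c) → 0 ≤ c)
    (φ : Finset X → X → ℝ) (D : ℝ) (hφ : ∀ A', ∑ x ∈ A', φ A' x ≤ D * A'.card) :
    ∑ x ∈ A, wc (F x) (fun A' => φ A' x) ≤ D * ∑ x ∈ A, cost (F x) := by
  classical
  rw [← sum_fiberwise_of_maps_to (s := A) (t := A.image F) (g := F)
    (fun x hx => mem_image_of_mem F hx),
    ← sum_fiberwise_of_maps_to (s := A) (t := A.image F) (g := F)
    (fun x hx => mem_image_of_mem F hx) (fun x => cost (F x)), mul_sum]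
  apply sum_le_sum
  intro v hv
  obtain ⟨x₀, hx₀, hx₀v⟩ := mem_image.mp hv
  rcases v with _ | ⟨A', c⟩
  · have h1 : ∑ x ∈ A with F x = none, wc (F x) (fun A' => φ A' x) = 0 := by
      apply sum_eq_zero
      intro x hx
      rw [(mem_filter.mp hx).2]
      rfl
    have h2 : ∑ x ∈ A with F x = none, cost (F x) = 0 := by
      apply sum_eq_zero
      intro x hx
      rw [(mem_filter.mp hx).2]
      rfl
    rw [h1, h2, mul_zero]
  · obtain ⟨ha, hb, hcc⟩ := hF x₀ hx₀ A' c hx₀v
    have hfil : (A.filter fun x => F x = some (A', c)) = A' := by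
      ext x
      rw [mem_filter]
      constructor
      · rintro ⟨h1, h2⟩
        exact (hF x h1 A' c h2).1
      · intro h1
        exact ⟨hb h1, hcc x h1⟩
    rw [hfil]
    have h1 : ∑ x ∈ A', wc (F x) (fun A' => φ A' x) = c * ∑ x ∈ A', φ A' x := by
      rw [mul_sum]
      apply sum_congr rfl
      intro x hx
      rw [hcc x hx]
      rfl
    have h2 : ∑ x ∈ A', cost (F x) = c * A'.card := by
      have : ∀ x ∈ A', cost (F x) = c := by
        intro x hx
        rw [hcc x hx]; rfl
      rw [sum_congr rfl this, sum_const, nsmul_eq_mul, mul_comm]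
    rw [h1, h2]
    have := hc x₀ hx₀ A' c hx₀v
    calc c * ∑ x ∈ A', φ A' x ≤ c * (D * A'.card) := by
          gcongr
          exact hφ A'
      _ = _ := by ring

theorem sum_pot {q n : ℕ} (N : ℕ) (f : Pt q n → ℝ) (L : ℕ) (K : Finset (Fin q))
    (A : Finset (Pt q n)) :
    ∑ x ∈ A, pot N f L K A x ≤ (1 + 2 * (Fintype.card (Step q) : ℝ)) ^ L * A.card := by
  induction L generalizing K A with
  | zero => simp [pot]
  | succ L ih =>
    simp only [pot]
    rw [sum_add_distrib, sum_comm]
    set D : ℝ := (1 + 2 * (Fintype.card (Step q) : ℝ)) ^ L with hD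
    have hD1 : 1 ≤ D := by
      apply one_le_pow₀
      have : (0 : ℝ) ≤ (Fintype.card (Step q) : ℝ) := by positivity
      linarith
    have h1 : ∀ s : Step q, ∑ x ∈ A, wc (next N f K A s x)
        (fun A' => pot N f L (s.upd K) A' x) ≤ D * (2 * A.card) := by
      intro s
      refine le_trans (sum_group (fun x => next N f K A s x) ?_ ?_
        (fun A' x => pot N f L (s.upd K) A' x) D (fun A' => ih (s.upd K) A')) ?_
      · intro x hx A' c h
        exact next_mem hx h
      · intro x hx A' c h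
        exact next_cost_nonneg h
      · gcongr
        exact sum_cost_next N f K A s
    have h2 : ∑ s : Step q, ∑ x ∈ A, wc (next N f K A s x)
        (fun A' => pot N f L (s.upd K) A' x) ≤ (Fintype.card (Step q) : ℝ) *
          (D * (2 * A.card)) := by
      calc _ ≤ ∑ _s : Step q, D * (2 * (A.card : ℝ)) := sum_le_sum fun s _ => h1 s
        _ = _ := by rw [sum_const, nsmul_eq_mul, card_univ]
    have h3 : ∑ _x ∈ A, (1 : ℝ) = A.card := by simp
    have h4 : (0 : ℝ) ≤ (A.card : ℝ) := by positivity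
    rw [h3, pow_succ, ← hD]
    nlinarith

/-- The error rows. -/
noncomputable def errSet {q n : ℕ} (N L : ℕ) (Λ : ℝ) (f : Pt q n → ℝ) (X : Finset (Pt q n)) :
    Finset (Pt q n) := by
  classical
  exact X.filter fun x => Λ ≤ pot N f L ∅ X x

theorem card_errSet {q n : ℕ} (N L : ℕ) (Λ : ℝ) (f : Pt q n → ℝ)
    (X : Finset (Pt q n)) :
    Λ * (errSet N L Λ f X).card ≤ (1 + 2 * (Fintype.card (Step q) : ℝ)) ^ L * X.card := by
  classical
  calc Λ * (errSet N L Λ f X).card = ∑ _x ∈ errSet N L Λ f X, Λ := by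
        rw [sum_const, nsmul_eq_mul, mul_comm]
    _ ≤ ∑ x ∈ errSet N L Λ f X, pot N f L ∅ X x := by
        apply sum_le_sum
        intro x hx
        unfold errSet at hx
        exact (mem_filter.mp hx).2
    _ ≤ ∑ x ∈ X, pot N f L ∅ X x := by
        apply sum_le_sum_of_subset_of_nonneg
        · unfold errSet; exact filter_subset _ _
        · intro x _ _
          linarith [one_le_pot N f L ∅ X x]
    _ ≤ _ := sum_pot N f L ∅ X

theorem cost_lt_of_not_err {q n : ℕ} {N L : ℕ} {Λ : ℝ} {f : Pt q n → ℝ}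
    {X : Finset (Pt q n)} {x : Pt q n} (hx : x ∈ X) (hx' : x ∉ errSet N L Λ f X)
    {l : List (Step q)} (hl : l.length ≤ L) {B : Finset (Pt q n)} {c : ℝ}
    (h : ev N f l ∅ X x = some (B, c)) : c < Λ := by
  have h1 := ev_le_pot hl h
  have h2 : ¬ Λ ≤ pot N f L ∅ X x := by
    intro h3
    apply hx'
    unfold errSet
    classical
    exact mem_filter.mpr ⟨hx, h3⟩
  push Not at h2
  linarith

end CliqueCP
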