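import Pool.Agent.Lib.MP_678664_lc_CP.Defs

/-! # Quantiles, halves, dense sets, peeling -/

open Finset

namespace CliqueCP

/-- `1/t`-quantile. -/
theorem exists_quantile {ι : Type*} (A : Finset ι) (hA : A.Nonempty) (f : ι → ℝ) (t : ℕ)
    (ht : 1 ≤ t) : ∃ m : ℝ, A.card ≤ t * (A.filter fun x => f x ≤ m).card ∧
      t * (A.filter fun x => f x < m).card < A.card := by
  classical
  -- candidate values
  set V : Finset ℝ := (A.image f).filter
    (fun m => A.card ≤ t * (A.filter fun x => f x ≤ m).card) with hV
  have hVne : V.Nonempty := by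
    obtain ⟨x₀, hx₀, hmax⟩ := A.exists_max_image f hA
    refine ⟨f x₀, ?_⟩
    rw [hV, mem_filter]
    refine ⟨mem_image_of_mem f hx₀, ?_⟩
    have : (A.filter fun x => f x ≤ f x₀) = A := by
      apply filter_true_of_mem
      intro x hx
      exact hmax x hx
    rw [this]
    exact Nat.le_mul_of_pos_left _ ht
  refine ⟨V.min' hVne, ?_, ?_⟩
  · have hmem : ∀ y ∈ V, A.card ≤ t * (A.filter fun x => f x ≤ y).card := by
      intro y hy
      rw [hV, mem_filter] at hy
      exact hy.2
    exact hmem _ (V.min'_mem hVne)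
  · by_contra hcon
    push Not at hcon
    set B := A.filter fun x => f x < V.min' hVne with hB
    have hBne : B.Nonempty := by
      rw [← card_pos]
      by_contra h0
      have : B.card = 0 := by omega
      rw [this] at hcon
      have := hA.card_pos
      omega
    obtain ⟨x₁, hx₁, hmax⟩ := B.exists_max_image f hBne
    have hx₁' : x₁ ∈ A ∧ f x₁ < V.min' hVne := by
      rw [hB, mem_filter] at hx₁; exact hx₁
    have hmem : f x₁ ∈ V := by
      rw [hV, mem_filter]
      refine ⟨mem_image_of_mem f hx₁'.1, ?_⟩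
      refine le_trans hcon ?_
      apply Nat.mul_le_mul_left
      apply card_le_card
      intro x hx
      have hx' := hx
      rw [hB, mem_filter] at hx'
      rw [mem_filter]
      exact ⟨hx'.1, hmax x hx⟩
    have := V.min'_le _ hmem
    linarith [hx₁'.2]

/-- The chosen `1/t`-quantile. -/
noncomputable def quant {ι : Type*} (t : ℕ) (A : Finset ι) (f : ι → ℝ) : ℝ := by
  classical
  exact if h : A.Nonempty ∧ 1 ≤ t then (exists_quantile A h.1 f t h.2).choose else 0

theorem quant_le {ι : Type*} {t : ℕ} {A : Finset ι} (hA : A.Nonempty) (ht : 1 ≤ t)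
    (f : ι → ℝ) : A.card ≤ t * (A.filter fun x => f x ≤ quant t A f).card := by
  unfold quant
  rw [dif_pos ⟨hA, ht⟩]
  exact (exists_quantile A hA f t ht).choose_spec.1

theorem quant_lt {ι : Type*} {t : ℕ} {A : Finset ι} (hA : A.Nonempty) (ht : 1 ≤ t)
    (f : ι → ℝ) : t * (A.filter fun x => f x < quant t A f).card < A.card := by
  unfold quant
  rw [dif_pos ⟨hA, ht⟩]
  exact (exists_quantile A hA f t ht).choose_spec.2

/-- The comparison of two families of numbers is constant on halves. -/
theorem exists_halves {ι κ : Type*} (P : Finset ι) (Q : Finset κ) (hP : P.Nonempty)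
    (hQ : Q.Nonempty) (a : ι → ℝ) (b : κ → ℝ) :
    ∃ P' ⊆ P, ∃ Q' ⊆ Q, P.card ≤ 2 * P'.card ∧ Q.card ≤ 2 * Q'.card ∧
      ((∀ x ∈ P', ∀ y ∈ Q', a x + b y < 0) ∨ (∀ x ∈ P', ∀ y ∈ Q', 0 ≤ a x + b y)) := by
  classical
  obtain ⟨m, hm1, hm2⟩ := exists_quantile P hP a 2 (by norm_num)
  obtain ⟨m', hm1', hm2'⟩ := exists_quantile Q hQ b 2 (by norm_num)
  by_cases h : m + m' < 0
  · refine ⟨P.filter fun x => a x ≤ m, filter_subset _ _, Q.filter fun y => b y ≤ m',
      filter_subset _ _, hm1, hm1', Or.inl ?_⟩
    intro x hx y hy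
    rw [mem_filter] at hx hy
    linarith [hx.2, hy.2]
  · push Not at h
    have e1 : (P.filter fun x => a x < m).card + (P.filter fun x => ¬ a x < m).card = P.card :=
      card_filter_add_card_filter_not _
    have e2 : (Q.filter fun y => b y < m').card + (Q.filter fun y => ¬ b y < m').card = Q.card :=
      card_filter_add_card_filter_not _
    refine ⟨P.filter fun x => ¬ a x < m, filter_subset _ _, Q.filter fun y => ¬ b y < m',
      filter_subset _ _, by omega, by omega, Or.inr ?_⟩
    intro x hx y hy
    rw [mem_filter] at hx hy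
    have h1 := not_lt.mp hx.2
    have h2 := not_lt.mp hy.2
    linarith

/-- Pigeonhole: some value of `c` is popular. -/
theorem exists_popular {ι κ : Type*} [Fintype κ] [DecidableEq κ] (P : Finset ι)
    (hP : P.Nonempty) (c : ι → κ) :
    ∃ k, P.card ≤ Fintype.card κ * (P.filter fun x => c x = k).card ∧
      (P.filter fun x => c x = k).Nonempty := by
  classical
  have h : ∑ k : κ, (P.filter fun x => c x = k).card = P.card :=
    (card_eq_sum_card_fiberwise (f := c) (s := P) (t := univ) (by simp)).symm
  have hne : Nonempty κ := ⟨c hP.choose⟩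
  obtain ⟨k, -, hk⟩ := (univ : Finset κ).exists_max_image
    (fun k => (P.filter fun x => c x = k).card) univ_nonempty
  have hle : P.card ≤ Fintype.card κ * (P.filter fun x => c x = k).card := by
    rw [← h]
    calc ∑ k' : κ, (P.filter fun x => c x = k').card
        ≤ ∑ _k' : κ, (P.filter fun x => c x = k).card := sum_le_sum fun i hi => hk i hi
      _ = _ := by simp
  refine ⟨k, hle, ?_⟩
  rw [← card_pos]
  by_contra h0
  have : (P.filter fun x => c x = k).card = 0 := by omega
  rw [this] at hle
  have := hP.card_pos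
  omega

/-- The part of `A` with coordinate `i` equal to `b`. -/
def slice {q n : ℕ} (A : Finset (Pt q n)) (i : Fin q) (b : Fin n) : Finset (Pt q n) :=
  A.filter fun x => x i = b

theorem mem_slice {q n : ℕ} {A : Finset (Pt q n)} {i : Fin q} {b : Fin n} {x : Pt q n} :
    x ∈ slice A i b ↔ x ∈ A ∧ x i = b := by
  unfold slice; rw [mem_filter]

theorem slice_subset {q n : ℕ} (A : Finset (Pt q n)) (i : Fin q) (b : Fin n) :
    slice A i b ⊆ A := filter_subset _ _

theorem slice_mono {q n : ℕ} {A B : Finset (Pt q n)} (h : A ⊆ B) (i : Fin q) (b : Fin n) :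
    slice A i b ⊆ slice B i b := filter_subset_filter _ h

/-- No value is taken by a coordinate outside `K` on a fraction more than `1/t` of `A`. -/
def Dense {q n : ℕ} (t : ℕ) (K : Finset (Fin q)) (A : Finset (Pt q n)) : Prop :=
  ∀ i, i ∉ K → ∀ b, t * (slice A i b).card ≤ A.card

/-- The output of the peeling at a point: the outcome, the piece, the size of the rest from
which the piece was taken. -/
structure PeelOut (q n : ℕ) where
  o : Option (Fin q)
  S : Finset (Pt q n)
  U : ℕ

theorem exists_peel {q n : ℕ} (t : ℕ) (K : Finset (Fin q)) (A : Finset (Pt q n)) :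
    ∃ F : Pt q n → PeelOut q n,
      (∀ x ∈ A, x ∈ (F x).S ∧ (F x).S ⊆ A ∧ ∀ x' ∈ (F x).S, F x' = F x) ∧
      (∀ x ∈ A, ∀ i, (F x).o = some i →
        i ∉ K ∧ (∀ x' ∈ (F x).S, x' i = x i) ∧ (F x).U ≤ t * (F x).S.card) ∧
      (∀ x ∈ A, (F x).o = none → Dense t K (F x).S ∧ (F x).U = (F x).S.card) ∧
      (∀ x ∈ A, 0 < (F x).U ∧ (F x).U ≤ A.card) ∧
      ∑ x ∈ A, 1 / √((F x).U : ℝ) ≤ 2 * √(A.card : ℝ) := by
  classical
  induction' hc : A.card using Nat.strong_induction_on with c ih generalizing A
  by_cases hd : Dense t K A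
  · refine ⟨fun _ => ⟨none, A, A.card⟩, ?_, ?_, ?_, ?_, ?_⟩
    · intro x hx
      exact ⟨hx, Subset.refl _, fun _ _ => rfl⟩
    · intro x hx i hi
      simp at hi
    · intro x hx _
      exact ⟨hd, rfl⟩
    · intro x hx
      exact ⟨card_pos.mpr ⟨x, hx⟩, by rw [← hc]⟩
    · rw [sum_const, nsmul_eq_mul, ← hc]
      rcases Nat.eq_zero_or_pos A.card with h0 | h0
      · rw [h0]; simp
      · have h1 : (0 : ℝ) < A.card := by exact_mod_cast h0
        have h2 : 0 < √(A.card : ℝ) := Real.sqrt_pos.mpr h1
        rw [mul_one_div, div_le_iff₀ h2]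
        nlinarith [Real.mul_self_sqrt h1.le]
  · unfold Dense at hd
    push Not at hd
    obtain ⟨i, hiK, b, hib⟩ := hd
    set P := slice A i b with hPdef
    have hPA : P ⊆ A := slice_subset A i b
    have hPpos : 0 < P.card := by
      by_contra h0
      have : P.card = 0 := by omega
      rw [this] at hib
      omega
    have hcard : (A \ P).card + P.card = A.card := card_sdiff_add_card_eq_card hPA
    obtain ⟨F, h1, h2, h3, h4, h5⟩ := ih (A \ P).card (by omega) (A \ P) rfl
    refine ⟨fun x => if x ∈ P then ⟨some i, P, A.card⟩ else F x, ?_, ?_, ?_, ?_, ?_⟩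
    · intro x hx
      by_cases hxP : x ∈ P
      · simp only [hxP, if_true]
        refine ⟨trivial, hPA, ?_⟩
        intro x' hx'
        simp only [hx', if_true]
      · have hxAP : x ∈ A \ P := mem_sdiff.mpr ⟨hx, hxP⟩
        simp only [hxP, if_false]
        obtain ⟨ha, hb, hcc⟩ := h1 x hxAP
        refine ⟨ha, hb.trans sdiff_subset, ?_⟩
        intro x' hx'
        have : x' ∉ P := (mem_sdiff.mp (hb hx')).2
        simp only [this, if_false]
        exact hcc x' hx'
    · intro x hx j hj
      by_cases hxP : x ∈ P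
      · simp only [hxP, if_true] at hj ⊢
        have hj' : i = j := by simpa using hj
        subst hj'
        refine ⟨hiK, ?_, hib.le⟩
        intro x' hx'
        rw [hPdef, mem_slice] at hx' hxP
        rw [hx'.2, hxP.2]
      · have hxAP : x ∈ A \ P := mem_sdiff.mpr ⟨hx, hxP⟩
        simp only [hxP, if_false] at hj ⊢
        exact h2 x hxAP j hj
    · intro x hx hj
      by_cases hxP : x ∈ P
      · simp only [hxP, if_true] at hj
        simp at hj
      · have hxAP : x ∈ A \ P := mem_sdiff.mpr ⟨hx, hxP⟩
        simp only [hxP, if_false] at hj ⊢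
        exact h3 x hxAP hj
    · intro x hx
      by_cases hxP : x ∈ P
      · simp only [hxP, if_true]
        exact ⟨card_pos.mpr ⟨x, hx⟩, by rw [← hc]⟩
      · have hxAP : x ∈ A \ P := mem_sdiff.mpr ⟨hx, hxP⟩
        simp only [hxP, if_false]
        obtain ⟨ha, hb⟩ := h4 x hxAP
        exact ⟨ha, by omega⟩
    · have hsplit : ∑ x ∈ A, 1 / √(((if x ∈ P then (⟨some i, P, A.card⟩ : PeelOut q n)
          else F x).U : ℕ) : ℝ) = (∑ x ∈ A \ P, 1 / √((F x).U : ℝ)) +
          ∑ x ∈ P, 1 / √(A.card : ℝ) := by
        rw [← sum_sdiff hPA]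
        congr 1
        · apply sum_congr rfl
          intro x hx
          have : x ∉ P := (mem_sdiff.mp hx).2
          simp only [this, if_false]
        · apply sum_congr rfl
          intro x hx
          simp only [hx, if_true]
      rw [hsplit, sum_const, nsmul_eq_mul, ← hc]
      have hA1 : (0 : ℝ) < A.card := by
        have : 0 < A.card := by omega
        exact_mod_cast this
      set s := √(A.card : ℝ) with hs
      have hs0 : 0 < s := Real.sqrt_pos.mpr hA1
      have hss : s * s = A.card := Real.mul_self_sqrt hA1.le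
      set r := √((A \ P).card : ℝ) with hr
      have hr0 : 0 ≤ r := Real.sqrt_nonneg _
      have hrr : r * r = (A \ P).card := Real.mul_self_sqrt (by positivity)
      have hPc : (P.card : ℝ) = s * s - r * r := by
        rw [hss, hrr]
        have : ((A \ P).card : ℝ) + P.card = A.card := by exact_mod_cast hcard
        linarith
      have hle : r * 2 + (P.card : ℝ) * (1 / s) ≤ 2 * s := by
        rw [hPc, mul_one_div, ← sub_nonneg]
        have : 2 * s - (r * 2 + (s * s - r * r) / s) = (s - r) ^ 2 / s := by
          field_simp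
          ring
        rw [this]
        positivity
      linarith

end CliqueCP
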