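import Pool.Agent.Lib.MP_678664_lc_CP.Pot

/-! # The protocol: one round, and reaching a final configuration -/

open Finset

namespace CliqueCP

/-- A set which is constant on `K` is small. -/
theorem card_const {q n : ℕ} (B : Finset (Pt q n)) (K : Finset (Fin q)) (x₀ : Pt q n)
    (h : ∀ x ∈ B, ∀ i ∈ K, x i = x₀ i) : B.card * n ^ K.card ≤ n ^ q := by
  classical
  have h1 : (B ×ˢ (univ : Finset (K → Fin n))).card = B.card * n ^ K.card := by
    rw [card_product, card_univ, Fintype.card_fun, Fintype.card_fin, Fintype.card_coe]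
  have h2 : (univ : Finset (Pt q n)).card = n ^ q := by
    rw [card_univ, Fintype.card_fun, Fintype.card_fin, Fintype.card_fin]
  rw [← h1, ← h2]
  apply card_le_card_of_injOn
    (fun p : Pt q n × (K → Fin n) => fun i => if hi : i ∈ K then p.2 ⟨i, hi⟩ else p.1 i)
  · intro p _
    simp
  · rintro ⟨x, u⟩ hp ⟨x', u'⟩ hp' heq
    simp only [coe_product, Set.mem_prod, mem_coe] at hp hp'
    have hu : u = u' := by
      funext i
      have := congrFun heq i.1
      simp only [i.2, dif_pos] at this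
      exact this
    have hx : x = x' := by
      funext i
      by_cases hi : i ∈ K
      · rw [h x hp.1 i hi, h x' hp'.1 i hi]
      · have := congrFun heq i
        simp only [hi, dif_neg, not_false_eq_true] at this
        exact this
    rw [hu, hx]

/-- Bounds for the numbers of steps of a non-error row. -/
theorem row_bound {q n N lam L : ℕ} (hN : 2 ≤ N) (hn : n = N ^ 4) {f : Pt q n → ℝ}
    {X : Finset (Pt q n)} (hX : n ^ q ≤ 2 * X.card) {x : Pt q n} (hx : x ∈ X)
    (hx' : x ∉ errSet N L ((N : ℝ) ^ lam) f X) {l : List (Step q)} (hl : l.length ≤ L)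
    {B : Finset (Pt q n)} {c : ℝ} (h : ev N f l ∅ X x = some (B, c))
    (hk : (kset ∅ l).card = pc l + fc l) : pc l ≤ lam ∧ lc l < 2 * lam := by
  have hc := cost_lt_of_not_err hx hx' hl h
  obtain ⟨h1, h2, h3, h4, h5, h6⟩ := ev_spec (by omega) hx h
  have hNr : (1 : ℝ) < N := by exact_mod_cast (by omega : 1 < N)
  have hN0 : (0 : ℝ) < N := by linarith
  have hc2 : c ^ 2 < (N : ℝ) ^ (2 * lam) := by
    rw [mul_comm, pow_mul]
    exact pow_lt_pow_left₀ hc (by linarith) (by norm_num)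
  constructor
  · have hconst : ∀ x' ∈ B, ∀ i ∈ kset ∅ l, x' i = x i := by
      intro x' hx'' i hi
      rcases h6 x' hx'' i hi with h7 | h7
      · simp at h7
      · exact h7
    have h7 := card_const B (kset ∅ l) x hconst
    rw [hk] at h7
    have hnr : (n : ℝ) = (N : ℝ) ^ 4 := by rw [hn]; push_cast; ring
    have hn0 : (0 : ℝ) < n := by rw [hnr]; positivity
    have h7' : (B.card : ℝ) * (n : ℝ) ^ (pc l + fc l) ≤ (n : ℝ) ^ q := by exact_mod_cast h7
    have hX' : (n : ℝ) ^ q ≤ 2 * X.card := by exact_mod_cast hX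
    have h8 : (n : ℝ) ^ q * (n : ℝ) ^ (pc l + fc l) ≤
        (n : ℝ) ^ q * (2 * c ^ 2 * ((N : ℝ) ^ 2) ^ pc l * (n : ℝ) ^ fc l) := by
      calc (n : ℝ) ^ q * (n : ℝ) ^ (pc l + fc l)
          ≤ (2 * (c ^ 2 * B.card * ((N : ℝ) ^ 2) ^ pc l * (n : ℝ) ^ fc l)) *
            (n : ℝ) ^ (pc l + fc l) := by
              gcongr
              linarith
        _ = (B.card * (n : ℝ) ^ (pc l + fc l)) *
            (2 * c ^ 2 * ((N : ℝ) ^ 2) ^ pc l * (n : ℝ) ^ fc l) := by ring
        _ ≤ (n : ℝ) ^ q * (2 * c ^ 2 * ((N : ℝ) ^ 2) ^ pc l * (n : ℝ) ^ fc l) := by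
              gcongr
    have h9 : (n : ℝ) ^ (pc l + fc l) ≤ 2 * c ^ 2 * ((N : ℝ) ^ 2) ^ pc l * (n : ℝ) ^ fc l :=
      le_of_mul_le_mul_left h8 (by positivity)
    rw [pow_add] at h9
    have h10 : (n : ℝ) ^ pc l ≤ 2 * c ^ 2 * ((N : ℝ) ^ 2) ^ pc l :=
      le_of_mul_le_mul_right h9 (by positivity)
    have h11 : ((N : ℝ) ^ 2) ^ pc l * ((N : ℝ) ^ 2) ^ pc l ≤
        (2 * c ^ 2) * ((N : ℝ) ^ 2) ^ pc l := by
      have : (n : ℝ) ^ pc l = ((N : ℝ) ^ 2) ^ pc l * ((N : ℝ) ^ 2) ^ pc l := by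
        rw [← mul_pow, hnr]; ring
      rw [← this]; exact h10
    have h12 : ((N : ℝ) ^ 2) ^ pc l ≤ 2 * c ^ 2 := le_of_mul_le_mul_right h11 (by positivity)
    have h13 : (N : ℝ) ^ (2 * pc l) < (N : ℝ) ^ (2 * lam + 1) := by
      calc (N : ℝ) ^ (2 * pc l) = ((N : ℝ) ^ 2) ^ pc l := by rw [pow_mul]
        _ ≤ 2 * c ^ 2 := h12
        _ < 2 * (N : ℝ) ^ (2 * lam) := by linarith
        _ ≤ N * (N : ℝ) ^ (2 * lam) := by
            have : (2 : ℝ) ≤ N := by exact_mod_cast hN
            gcongr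
        _ = (N : ℝ) ^ (2 * lam + 1) := by rw [pow_succ]; ring
    have := (pow_lt_pow_iff_right₀ hNr).mp h13
    omega
  · have : (N : ℝ) ^ lc l < (N : ℝ) ^ (2 * lam) := lt_of_le_of_lt h4 hc2
    exact (pow_lt_pow_iff_right₀ hNr).mp this

/-- The final set of the evolution. -/
noncomputable def evS {q n : ℕ} (N : ℕ) (f : Pt q n → ℝ) (l : List (Step q))
    (X : Finset (Pt q n)) (x : Pt q n) : Finset (Pt q n) :=
  match ev N f l ∅ X x with
  | none => ∅
  | some p => p.1

theorem evS_eq {q n : ℕ} {N : ℕ} {f : Pt q n → ℝ} {l : List (Step q)}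
    {X : Finset (Pt q n)} {x : Pt q n} {S : Finset (Pt q n)} {c : ℝ}
    (h : ev N f l ∅ X x = some (S, c)) : evS N f l X x = S := by
  unfold evS; rw [h]

theorem ev_evS {q n : ℕ} {N : ℕ} {f : Pt q n → ℝ} {l : List (Step q)}
    {X : Finset (Pt q n)} {x : Pt q n} (h : ∃ S c, ev N f l ∅ X x = some (S, c)) :
    ∃ c, ev N f l ∅ X x = some (evS N f l X x, c) := by
  obtain ⟨S, c, h⟩ := h
  exact ⟨c, by rw [evS_eq h, h]⟩

theorem mem_evS {q n : ℕ} {N : ℕ} (hN : 1 ≤ N) {f : Pt q n → ℝ} {l : List (Step q)}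
    {X : Finset (Pt q n)} {x : Pt q n} (hx : x ∈ X) (h : ∃ S c, ev N f l ∅ X x = some (S, c)) :
    x ∈ evS N f l X x := by
  obtain ⟨c, h⟩ := ev_evS h
  exact (ev_spec hN hx h).1

/-- A configuration of the protocol at a node. -/
structure Cfg {q n : ℕ} (N : ℕ) (f h : Pt q n → ℝ) (X Y : Finset (Pt q n))
    (lX lY : List (Step q)) (A B : Finset (Pt q n)) : Prop where
  neA : A.Nonempty
  neB : B.Nonempty
  evA : ∀ x ∈ A, ∃ S c, ev N f lX ∅ X x = some (S, c)
  evB : ∀ y ∈ B, ∃ S c, ev N h lY ∅ Y y = some (S, c)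
  ks : kset ∅ lX = kset ∅ lY
  pf : pc lX = fc lY
  fp : fc lX = pc lY
  kc : (kset ∅ lX).card = pc lX + fc lX

/-- The progress measure. -/
def prog {q : ℕ} (lX lY : List (Step q)) : ℕ := pc lX + fc lX + lc lX + lc lY

/-- A final configuration. -/
structure Fin' {q n : ℕ} (N : ℕ) (f h : Pt q n → ℝ) (X Y : Finset (Pt q n))
    (lX lY : List (Step q)) (A B : Finset (Pt q n)) : Prop where
  cfg : Cfg N f h X Y lX lY A B
  dA : ∀ x ∈ A, Dense (N ^ 2) (kset ∅ lX) (evS N f lX X x)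
  dB : ∀ y ∈ B, Dense (N ^ 2) (kset ∅ lY) (evS N h lY Y y)
  lt : ∀ x ∈ A, ∀ y ∈ B,
    quant N (evS N f lX X x) f + quant N (evS N h lY Y y) h < 0

theorem kset_single {q : ℕ} (K : Finset (Fin q)) (l : List (Step q)) (s : Step q) :
    kset K (l ++ [s]) = s.upd (kset K l) := by
  rw [kset_append]; rfl

theorem pc_single {q : ℕ} (l : List (Step q)) (s : Step q) : pc (l ++ [s]) = pc l + s.pcn := by
  rw [pc_append]; simp [pc]

theorem fc_single {q : ℕ} (l : List (Step q)) (s : Step q) : fc (l ++ [s]) = fc l + s.fcn := by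
  rw [fc_append]; simp [fc]

theorem lc_single {q : ℕ} (l : List (Step q)) (s : Step q) : lc (l ++ [s]) = lc l + s.lcn := by
  rw [lc_append]; simp [lc]

/-- Appending a peel step. -/
theorem ev_peel {q n : ℕ} {N : ℕ} {f : Pt q n → ℝ} {l : List (Step q)}
    {X : Finset (Pt q n)} {x : Pt q n} (h : ∃ S c, ev N f l ∅ X x = some (S, c))
    {o : Option (Fin q)} (ho : (peelF (N ^ 2) (kset ∅ l) (evS N f l X x) x).o = o) :
    ∃ c, ev N f (l ++ [.peel o]) ∅ X x =
      some ((peelF (N ^ 2) (kset ∅ l) (evS N f l X x) x).S, c) := by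
  obtain ⟨c, h⟩ := ev_evS h
  have h' : next N f (kset ∅ l) (evS N f l X x) (.peel o) x =
      some ((peelF (N ^ 2) (kset ∅ l) (evS N f l X x) x).S,
        √(((evS N f l X x).card : ℝ) /
          ((peelF (N ^ 2) (kset ∅ l) (evS N f l X x) x).U : ℝ))) := by
    simp only [next]
    rw [if_pos ho]
  exact ⟨_, ev_append_single h h'⟩

theorem ev_fix {q n : ℕ} {N : ℕ} {f : Pt q n → ℝ} {l : List (Step q)}
    {X : Finset (Pt q n)} {x : Pt q n} (h : ∃ S c, ev N f l ∅ X x = some (S, c))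
    (j : Fin q) : ∃ S c, ev N f (l ++ [.fix j]) ∅ X x = some (S, c) := by
  obtain ⟨c, h⟩ := ev_evS h
  exact ⟨_, _, ev_append_single h (s := .fix j) rfl⟩

theorem ev_low {q n : ℕ} {N : ℕ} {f : Pt q n → ℝ} {l : List (Step q)}
    {X : Finset (Pt q n)} {x : Pt q n} (h : ∃ S c, ev N f l ∅ X x = some (S, c))
    (hl : x ∈ lowS N f (evS N f l X x)) :
    ∃ S c, ev N f (l ++ [.low]) ∅ X x = some (S, c) := by
  obtain ⟨c, h⟩ := ev_evS h
  have h' : next N f (kset ∅ l) (evS N f l X x) .low x =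
      some (lowS N f (evS N f l X x),
        √(((evS N f l X x).card : ℝ) / ((lowS N f (evS N f l X x)).card : ℝ))) := by
    simp only [next]
    rw [if_pos hl]
  exact ⟨_, _, ev_append_single h h'⟩

theorem popular_peel {q n : ℕ} (N : ℕ) (f : Pt q n → ℝ) (l : List (Step q))
    (X A : Finset (Pt q n)) (hA : A.Nonempty) :
    ∃ o : Option (Fin q), ∃ A' ⊆ A, A'.Nonempty ∧ A.card ≤ (q + 1) * A'.card ∧
      ∀ x ∈ A', (peelF (N ^ 2) (kset ∅ l) (evS N f l X x) x).o = o := by
  classical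
  obtain ⟨o, ho, hne⟩ := exists_popular A hA
    (fun x => (peelF (N ^ 2) (kset ∅ l) (evS N f l X x) x).o)
  refine ⟨o, _, filter_subset _ _, hne, ?_, ?_⟩
  · rw [Fintype.card_option, Fintype.card_fin] at ho
    exact ho
  · intro x hx
    exact (mem_filter.mp hx).2

theorem round {q n : ℕ} {N : ℕ} (hN : 1 ≤ N) {f h : Pt q n → ℝ} {X Y : Finset (Pt q n)}
    {lX lY : List (Step q)} {A B : Finset (Pt q n)} (hc : Cfg N f h X Y lX lY A B)
    (hAX : A ⊆ X) (hBY : B ⊆ Y) (hT : ∀ x ∈ A, ∀ y ∈ B, f x + h y < 0) :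
    (∃ lX' lY', ∃ A' ⊆ A, ∃ B' ⊆ B, Fin' N f h X Y lX' lY' A' B' ∧
      prog lX' lY' = prog lX lY ∧ lX'.length ≤ lX.length + 1 ∧ lY'.length ≤ lY.length + 1 ∧
      A.card ≤ (4 * (q + 1)) * A'.card ∧ B.card ≤ (4 * (q + 1)) * B'.card) ∨
    (∃ lX' lY', ∃ A' ⊆ A, ∃ B' ⊆ B, Cfg N f h X Y lX' lY' A' B' ∧
      prog lX' lY' = prog lX lY + 1 ∧ lX'.length ≤ lX.length + 2 ∧
      lY'.length ≤ lY.length + 2 ∧
      A.card ≤ (4 * (q + 1)) * A'.card ∧ B.card ≤ (4 * (q + 1)) * B'.card) := by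
  classical
  obtain ⟨oX, A', hA'A, hA'ne, hA'c, hoX⟩ := popular_peel N f lX X A hc.neA
  rcases oX with _ | i
  · obtain ⟨oY, B', hB'B, hB'ne, hB'c, hoY⟩ := popular_peel N h lY Y B hc.neB
    rcases oY with _ | j
    · -- both none
      obtain ⟨lX1, hlX1⟩ : ∃ l, l = lX ++ [Step.peel none] := ⟨_, rfl⟩
      obtain ⟨lY1, hlY1⟩ : ∃ l, l = lY ++ [Step.peel none] := ⟨_, rfl⟩
      have hevA : ∀ x ∈ A', ∃ S c, ev N f lX1 ∅ X x = some (S, c) := by
        intro x hx
        obtain ⟨c, h1⟩ := ev_peel (hc.evA x (hA'A hx)) (hoX x hx)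
        rw [hlX1]
        exact ⟨_, c, h1⟩
      have hevB : ∀ y ∈ B', ∃ S c, ev N h lY1 ∅ Y y = some (S, c) := by
        intro y hy
        obtain ⟨c, h1⟩ := ev_peel (hc.evB y (hB'B hy)) (hoY y hy)
        rw [hlY1]
        exact ⟨_, c, h1⟩
      have hkX : kset ∅ lX1 = kset ∅ lX := by rw [hlX1, kset_single]; rfl
      have hkY : kset ∅ lY1 = kset ∅ lY := by rw [hlY1, kset_single]; rfl
      have hpX : pc lX1 = pc lX := by rw [hlX1, pc_single]; rfl
      have hfX : fc lX1 = fc lX := by rw [hlX1, fc_single]; rfl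
      have hlX : lc lX1 = lc lX := by rw [hlX1, lc_single]; rfl
      have hpY : pc lY1 = pc lY := by rw [hlY1, pc_single]; rfl
      have hfY : fc lY1 = fc lY := by rw [hlY1, fc_single]; rfl
      have hlY : lc lY1 = lc lY := by rw [hlY1, lc_single]; rfl
      have hdA : ∀ x ∈ A', Dense (N ^ 2) (kset ∅ lX1) (evS N f lX1 X x) := by
        intro x hx
        obtain ⟨c, h1⟩ := ev_peel (hc.evA x (hA'A hx)) (hoX x hx)
        rw [hkX, hlX1, evS_eq h1]
        exact (peelF_none (mem_evS hN (hAX (hA'A hx)) (hc.evA x (hA'A hx))) (hoX x hx)).1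
      have hdB : ∀ y ∈ B', Dense (N ^ 2) (kset ∅ lY1) (evS N h lY1 Y y) := by
        intro y hy
        obtain ⟨c, h1⟩ := ev_peel (hc.evB y (hB'B hy)) (hoY y hy)
        rw [hkY, hlY1, evS_eq h1]
        exact (peelF_none (mem_evS hN (hBY (hB'B hy)) (hc.evB y (hB'B hy))) (hoY y hy)).1
      obtain ⟨A2, hA2, B2, hB2, hA2c, hB2c, hor⟩ := exists_halves A' B' hA'ne hB'ne
        (fun x => quant N (evS N f lX1 X x) f) (fun y => quant N (evS N h lY1 Y y) h)
      have hA2ne : A2.Nonempty := by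
        rw [← card_pos]
        have := hA'ne.card_pos
        omega
      have hB2ne : B2.Nonempty := by
        rw [← card_pos]
        have := hB'ne.card_pos
        omega
      have hcardA : A.card ≤ (4 * (q + 1)) * A2.card := by
        calc A.card ≤ (q + 1) * A'.card := hA'c
          _ ≤ (q + 1) * (2 * A2.card) := Nat.mul_le_mul_left _ hA2c
          _ ≤ _ := by nlinarith
      have hcardB : B.card ≤ (4 * (q + 1)) * B2.card := by
        calc B.card ≤ (q + 1) * B'.card := hB'c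
          _ ≤ (q + 1) * (2 * B2.card) := Nat.mul_le_mul_left _ hB2c
          _ ≤ _ := by nlinarith
      rcases hor with hneg | hpos
      · left
        refine ⟨lX1, lY1, A2, hA2.trans hA'A, B2, hB2.trans hB'B, ⟨⟨hA2ne, hB2ne, ?_, ?_, ?_,
          ?_, ?_, ?_⟩, ?_, ?_, hneg⟩, ?_, ?_, ?_, hcardA, hcardB⟩
        · exact fun x hx => hevA x (hA2 hx)
        · exact fun y hy => hevB y (hB2 hy)
        · rw [hkX, hkY, hc.ks]
        · rw [hpX, hfY, hc.pf]
        · rw [hfX, hpY, hc.fp]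
        · rw [hkX, hpX, hfX, hc.kc]
        · exact fun x hx => hdA x (hA2 hx)
        · exact fun y hy => hdB y (hB2 hy)
        · unfold prog; rw [hpX, hfX, hlX, hlY]
        · simp [hlX1]
        · simp [hlY1]
      · right
        have hor2 : ∀ x ∈ A2, ∀ y ∈ B2, x ∈ lowS N f (evS N f lX1 X x) ∨
            y ∈ lowS N h (evS N h lY1 Y y) := by
          intro x hx y hy
          have h1 := hpos x hx y hy
          have h2 := hT x (hA'A (hA2 hx)) y (hB'B (hB2 hy))
          have h3 := mem_evS hN (hAX (hA'A (hA2 hx))) (hevA x (hA2 hx))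
          have h4 := mem_evS hN (hBY (hB'B (hB2 hy))) (hevB y (hB2 hy))
          by_cases h5 : f x < quant N (evS N f lX1 X x) f
          · left
            exact mem_filter.mpr ⟨h3, h5⟩
          · right
            refine mem_filter.mpr ⟨h4, ?_⟩
            linarith
        by_cases hlow : ∀ x ∈ A2, x ∈ lowS N f (evS N f lX1 X x)
        · refine ⟨lX1 ++ [.low], lY1, A2, hA2.trans hA'A, B2, hB2.trans hB'B, ⟨hA2ne, hB2ne,
            ?_, ?_, ?_, ?_, ?_, ?_⟩, ?_, ?_, ?_, hcardA, hcardB⟩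
          · exact fun x hx => ev_low (hevA x (hA2 hx)) (hlow x hx)
          · exact fun y hy => hevB y (hB2 hy)
          · rw [kset_single, hkY, ← hc.ks, ← hkX]; rfl
          · rw [pc_single, hpX, hfY, hc.pf]; rfl
          · rw [fc_single, hfX, hpY, hc.fp]; rfl
          · rw [kset_single, pc_single, fc_single, hpX, hfX]
            simp only [Step.upd, Step.pcn, Step.fcn, add_zero]
            rw [hkX, hc.kc]
          · unfold prog
            rw [pc_single, fc_single, lc_single, hpX, hfX, hlX, hlY]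
            simp only [Step.pcn, Step.fcn, Step.lcn]
            ring
          · simp [hlX1]
          · simp [hlY1]
        · push Not at hlow
          -- the rows that are not low
          obtain ⟨x₀, hx₀, hx₀l⟩ := hlow
          have hlowY : ∀ y ∈ B2, y ∈ lowS N h (evS N h lY1 Y y) := by
            intro y hy
            rcases hor2 x₀ hx₀ y hy with h1 | h1
            · exact absurd h1 hx₀l
            · exact h1
          refine ⟨lX1, lY1 ++ [.low], A2, hA2.trans hA'A, B2, hB2.trans hB'B, ⟨hA2ne, hB2ne,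
            ?_, ?_, ?_, ?_, ?_, ?_⟩, ?_, ?_, ?_, hcardA, hcardB⟩
          · exact fun x hx => hevA x (hA2 hx)
          · exact fun y hy => ev_low (hevB y (hB2 hy)) (hlowY y hy)
          · rw [kset_single, hkX, hc.ks, ← hkY]; rfl
          · rw [fc_single, hpX, hfY, hc.pf]; rfl
          · rw [pc_single, hfX, hpY, hc.fp]; rfl
          · rw [hkX, hpX, hfX, hc.kc]
          · unfold prog
            rw [lc_single, hpX, hfX, hlX, hlY]
            simp only [Step.lcn]
            ring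
          · simp [hlX1]
          · simp [hlY1]
    · -- column peels j
      right
      obtain ⟨y₀, hy₀⟩ := hB'ne
      have hjK : j ∉ kset ∅ lY :=
        (peelF_some (mem_evS hN (hBY (hB'B hy₀)) (hc.evB y₀ (hB'B hy₀))) (hoY y₀ hy₀)).1
      refine ⟨lX ++ [.fix j], lY ++ [.peel (some j)], A, Subset.refl _, B', hB'B,
        ⟨hc.neA, ⟨y₀, hy₀⟩, ?_, ?_, ?_, ?_, ?_, ?_⟩, ?_, ?_, ?_, ?_, ?_⟩
      · exact fun x hx => ev_fix (hc.evA x hx) j
      · intro y hy
        obtain ⟨c, h1⟩ := ev_peel (hc.evB y (hB'B hy)) (hoY y hy)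
        exact ⟨_, c, h1⟩
      · rw [kset_single, kset_single, hc.ks]; rfl
      · rw [pc_single, fc_single, hc.pf]; rfl
      · rw [pc_single, fc_single, hc.fp]; rfl
      · rw [kset_single, pc_single, fc_single]
        simp only [Step.upd, Step.pcn, Step.fcn]
        rw [card_insert_of_notMem (by rw [hc.ks]; exact hjK), hc.kc]
        ring
      · unfold prog
        rw [pc_single, fc_single, lc_single, lc_single]
        simp only [Step.pcn, Step.fcn, Step.lcn]
        ring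
      · simp
      · simp
      · nlinarith [hc.neA.card_pos]
      · nlinarith
  · -- row peels i
    right
    obtain ⟨x₀, hx₀⟩ := hA'ne
    have hiK : i ∉ kset ∅ lX :=
      (peelF_some (mem_evS hN (hAX (hA'A hx₀)) (hc.evA x₀ (hA'A hx₀))) (hoX x₀ hx₀)).1
    refine ⟨lX ++ [.peel (some i)], lY ++ [.fix i], A', hA'A, B, Subset.refl _,
      ⟨⟨x₀, hx₀⟩, hc.neB, ?_, ?_, ?_, ?_, ?_, ?_⟩, ?_, ?_, ?_, ?_, ?_⟩
    · intro x hx
      obtain ⟨c, h1⟩ := ev_peel (hc.evA x (hA'A hx)) (hoX x hx)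
      exact ⟨_, c, h1⟩
    · exact fun y hy => ev_fix (hc.evB y hy) i
    · rw [kset_single, kset_single, hc.ks]; rfl
    · rw [pc_single, fc_single, hc.pf]; rfl
    · rw [pc_single, fc_single, hc.fp]; rfl
    · rw [kset_single, pc_single, fc_single]
      simp only [Step.upd, Step.pcn, Step.fcn]
      rw [card_insert_of_notMem hiK, hc.kc]
      ring
    · unfold prog
      rw [pc_single, fc_single, lc_single, lc_single]
      simp only [Step.pcn, Step.fcn, Step.lcn]
      ring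
    · simp
    · simp
    · nlinarith
    · nlinarith [hc.neB.card_pos]

end CliqueCP
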