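import Pool.Agent.Lib.MP_678664_lc_CP.Quant

/-! # Choosing a row and a column with prescribed gadget values -/

open Finset

namespace CliqueCP

theorem exists_fresh {q n M r : ℕ} (K : Finset (Fin q)) (A : Finset (Pt q n))
    (hA : ∀ i, i ∉ K → ∀ b, M * q * (slice A i b).card < A.card) (hA0 : A.Nonempty)
    (hr : r ≤ M) (x : Fin r → Pt q n) :
    ∃ x₀ ∈ A, ∀ a, ∀ i, i ∉ K → x₀ i ≠ x a i := by
  classical
  by_contra hcon
  push Not at hcon
  have hsub : A ⊆ (univ ×ˢ Kᶜ : Finset (Fin r × Fin q)).biUnion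
      fun p => slice A p.2 (x p.1 p.2) := by
    intro y hy
    obtain ⟨a, i, hi, hyi⟩ := hcon y hy
    rw [mem_biUnion]
    exact ⟨(a, i), mem_product.mpr ⟨mem_univ _, mem_compl.mpr hi⟩, mem_slice.mpr ⟨hy, hyi⟩⟩
  have h1 : A.card ≤ ∑ p ∈ (univ ×ˢ Kᶜ : Finset (Fin r × Fin q)),
      (slice A p.2 (x p.1 p.2)).card := (card_le_card hsub).trans card_biUnion_le
  rcases (univ ×ˢ Kᶜ : Finset (Fin r × Fin q)).eq_empty_or_nonempty with h0 | h0
  · rw [h0, sum_empty] at h1
    have := hA0.card_pos
    omega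
  · have h2 : ∑ p ∈ (univ ×ˢ Kᶜ : Finset (Fin r × Fin q)),
        M * q * (slice A p.2 (x p.1 p.2)).card <
        ∑ _p ∈ (univ ×ˢ Kᶜ : Finset (Fin r × Fin q)), A.card := by
      apply sum_lt_sum_of_nonempty h0
      intro p hp
      exact hA p.2 (mem_compl.mp (mem_product.mp hp).2) _
    rw [← mul_sum, sum_const, smul_eq_mul, card_product, card_univ, Fintype.card_fin] at h2
    have h3 : r * (Kᶜ : Finset (Fin q)).card ≤ M * q := by
      apply Nat.mul_le_mul hr
      have := card_le_univ (Kᶜ : Finset (Fin q))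
      rwa [Fintype.card_fin] at this
    have h4 := Nat.mul_le_mul_left (M * q) h1
    have h5 := Nat.mul_le_mul_right A.card h3
    omega

theorem exists_family {q n M : ℕ} (K : Finset (Fin q)) (A : Finset (Pt q n))
    (hA : ∀ i, i ∉ K → ∀ b, M * q * (slice A i b).card < A.card) (hA0 : A.Nonempty)
    (r : ℕ) (hr : r ≤ M) :
    ∃ x : Fin r → Pt q n, (∀ a, x a ∈ A) ∧ ∀ i, i ∉ K → Function.Injective fun a => x a i := by
  induction r with
  | zero => exact ⟨fun a => a.elim0, fun a => a.elim0, fun i _ a => a.elim0⟩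
  | succ r ih =>
    obtain ⟨x, hx, hinj⟩ := ih (by omega)
    obtain ⟨x₀, hx₀, hne⟩ := exists_fresh K A hA hA0 (by omega : r ≤ M) x
    refine ⟨Fin.cons x₀ x, ?_, ?_⟩
    · intro a
      refine Fin.cases ?_ (fun a => ?_) a
      · simpa using hx₀
      · simpa using hx a
    · intro i hi a b hab
      refine Fin.cases (fun hab => ?_) (fun a hab => ?_) a hab
      · revert hab
        refine Fin.cases (fun _ => rfl) (fun b hab => ?_) b
        simp only [Fin.cons_zero, Fin.cons_succ] at hab
        exact absurd hab (hne b i hi)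
      · revert hab
        refine Fin.cases (fun hab => ?_) (fun b hab => ?_) b
        · simp only [Fin.cons_zero, Fin.cons_succ] at hab
          exact absurd hab.symm (hne a i hi)
        · simp only [Fin.cons_succ] at hab
          rw [hinj i hi hab]

/-- In two sets without popular coordinates outside `K` there are a row and a column with any
prescribed gadget values outside `K`. -/
theorem exists_pair {q n M : ℕ} {g : Fin q → Fin n → Fin n → Bool} (hg : GadgetGood g M)
    (K : Finset (Fin q)) (A B : Finset (Pt q n))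
    (hA : ∀ i, i ∉ K → ∀ b, M * q * (slice A i b).card < A.card)
    (hB : ∀ i, i ∉ K → ∀ b, M * q * (slice B i b).card < B.card)
    (hA0 : A.Nonempty) (hB0 : B.Nonempty) (ρ : Fin q → Bool) :
    ∃ x ∈ A, ∃ y ∈ B, ∀ i, i ∉ K → g i (x i) (y i) = ρ i := by
  classical
  obtain ⟨x, hx, hxi⟩ := exists_family K A hA hA0 M le_rfl
  obtain ⟨y, hy, hyi⟩ := exists_family K B hB hB0 M le_rfl
  obtain ⟨a, b, hab⟩ := hg Kᶜ x y ρ (fun i hi => hxi i (mem_compl.mp hi))
    (fun i hi => hyi i (mem_compl.mp hi))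
  exact ⟨x a, hx a, y b, hy b, fun i hi => hab i (mem_compl.mpr hi)⟩

end CliqueCP
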