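import Pool.Agent.Lib.MP_678664_lc_CP.Round
import Pool.Agent.Lib.MP_678664_lc_CP.Select

/-! # Reaching a final configuration, and the descent through the dag -/

open Finset

namespace CliqueCP

/-- Iterating rounds. -/
theorem iterate {q n : ℕ} {N : ℕ} (hN : 1 ≤ N) {f h : Pt q n → ℝ} {X Y : Finset (Pt q n)}
    {A B : Finset (Pt q n)} (hA : A.Nonempty) (hB : B.Nonempty)
    (hAX : A ⊆ X) (hBY : B ⊆ Y) (hT : ∀ x ∈ A, ∀ y ∈ B, f x + h y < 0) (r : ℕ) :
    (∃ lX lY, ∃ A' ⊆ A, ∃ B' ⊆ B, Fin' N f h X Y lX lY A' B' ∧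
      lX.length ≤ 2 * r + 1 ∧ lY.length ≤ 2 * r + 1 ∧
      A.card ≤ (4 * (q + 1)) ^ (r + 1) * A'.card ∧
      B.card ≤ (4 * (q + 1)) ^ (r + 1) * B'.card) ∨
    (∃ lX lY, ∃ A' ⊆ A, ∃ B' ⊆ B, Cfg N f h X Y lX lY A' B' ∧ prog lX lY = r ∧
      lX.length ≤ 2 * r ∧ lY.length ≤ 2 * r ∧
      A.card ≤ (4 * (q + 1)) ^ r * A'.card ∧ B.card ≤ (4 * (q + 1)) ^ r * B'.card) := by
  induction r with
  | zero =>
    right
    refine ⟨[], [], A, Subset.refl _, B, Subset.refl _, ⟨hA, hB, ?_, ?_, rfl, rfl, rfl, ?_⟩,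
      ?_, ?_, ?_, ?_, ?_⟩
    · intro x _; exact ⟨X, 1, rfl⟩
    · intro y _; exact ⟨Y, 1, rfl⟩
    · simp [kset, pc, fc]
    · simp [prog, pc, fc, lc]
    · simp
    · simp
    · simp
    · simp
  | succ r ih =>
    have hC : 1 ≤ 4 * (q + 1) := by omega
    rcases ih with ⟨lX, lY, A', hA', B', hB', hF, h1, h2, h3, h4⟩ |
      ⟨lX, lY, A', hA', B', hB', hc, hr, h1, h2, h3, h4⟩
    · left
      refine ⟨lX, lY, A', hA', B', hB', hF, by omega, by omega, ?_, ?_⟩
      · refine h3.trans (Nat.mul_le_mul_right _ ?_)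
        exact Nat.pow_le_pow_right hC (by omega)
      · refine h4.trans (Nat.mul_le_mul_right _ ?_)
        exact Nat.pow_le_pow_right hC (by omega)
    · have hmul : ∀ {a b c : ℕ}, a ≤ (4 * (q + 1)) ^ r * b → b ≤ (4 * (q + 1)) * c →
          a ≤ (4 * (q + 1)) ^ (r + 1) * c := by
        intro a b c hab hbc
        calc a ≤ (4 * (q + 1)) ^ r * b := hab
          _ ≤ (4 * (q + 1)) ^ r * ((4 * (q + 1)) * c) := Nat.mul_le_mul_left _ hbc
          _ = _ := by rw [pow_succ]; ring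
      rcases round hN hc (hA'.trans hAX) (hB'.trans hBY)
        (fun x hx y hy => hT x (hA' hx) y (hB' hy)) with
        ⟨lX', lY', A2, hA2, B2, hB2, hF, hp, g1, g2, g3, g4⟩ |
        ⟨lX', lY', A2, hA2, B2, hB2, hc', hp, g1, g2, g3, g4⟩
      · left
        refine ⟨lX', lY', A2, hA2.trans hA', B2, hB2.trans hB', hF, by omega, by omega, ?_, ?_⟩
        · refine (hmul h3 g3).trans (Nat.mul_le_mul_right _ ?_)
          exact Nat.pow_le_pow_right hC (by omega)
        · refine (hmul h4 g4).trans (Nat.mul_le_mul_right _ ?_)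
          exact Nat.pow_le_pow_right hC (by omega)
      · right
        exact ⟨lX', lY', A2, hA2.trans hA', B2, hB2.trans hB', hc', by omega, by omega,
          by omega, hmul h3 g3, hmul h4 g4⟩

/-- Non-error rows and columns reach a final configuration with few fixed coordinates. -/
theorem reach {q n N lam L : ℕ} (hN : 2 ≤ N) (hn : n = N ^ 4) (hL : 12 * lam + 3 ≤ L)
    {f h : Pt q n → ℝ} {X Y : Finset (Pt q n)} (hX : n ^ q ≤ 2 * X.card)
    (hY : n ^ q ≤ 2 * Y.card) {A B : Finset (Pt q n)} (hA : A.Nonempty) (hB : B.Nonempty)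
    (hAX : A ⊆ X) (hBY : B ⊆ Y)
    (hAe : ∀ x ∈ A, x ∉ errSet N L ((N : ℝ) ^ lam) f X)
    (hBe : ∀ y ∈ B, y ∉ errSet N L ((N : ℝ) ^ lam) h Y)
    (hT : ∀ x ∈ A, ∀ y ∈ B, f x + h y < 0) :
    ∃ lX lY, ∃ A' ⊆ A, ∃ B' ⊆ B, Fin' N f h X Y lX lY A' B' ∧
      (kset ∅ lX).card ≤ 2 * lam ∧
      A.card ≤ (4 * (q + 1)) ^ (6 * lam + 2) * A'.card ∧
      B.card ≤ (4 * (q + 1)) ^ (6 * lam + 2) * B'.card := by
  have hbound : ∀ lX lY (A' B' : Finset (Pt q n)), A' ⊆ A → B' ⊆ B →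
      Cfg N f h X Y lX lY A' B' → lX.length ≤ L → lY.length ≤ L →
      pc lX ≤ lam ∧ lc lX < 2 * lam ∧ pc lY ≤ lam ∧ lc lY < 2 * lam := by
    intro lX lY A' B' hA' hB' hc hl1 hl2
    obtain ⟨x, hx⟩ := hc.neA
    obtain ⟨y, hy⟩ := hc.neB
    obtain ⟨S, c, hS⟩ := hc.evA x hx
    obtain ⟨S', c', hS'⟩ := hc.evB y hy
    have h1 := row_bound hN hn hX (hAX (hA' hx)) (hAe x (hA' hx)) hl1 hS hc.kc
    have hkc' : (kset ∅ lY).card = pc lY + fc lY := by
      rw [← hc.ks, hc.kc, hc.pf, hc.fp, add_comm]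
    have h2 := row_bound hN hn hY (hBY (hB' hy)) (hBe y (hB' hy)) hl2 hS' hkc'
    exact ⟨h1.1, h1.2, h2.1, h2.2⟩
  rcases iterate (N := N) (by omega) hA hB hAX hBY hT (6 * lam + 1) with
    ⟨lX, lY, A', hA', B', hB', hF, h1, h2, h3, h4⟩ |
    ⟨lX, lY, A', hA', B', hB', hc, hr, h1, h2, h3, h4⟩
  · obtain ⟨b1, b2, b3, b4⟩ := hbound lX lY A' B' hA' hB' hF.cfg (by omega) (by omega)
    refine ⟨lX, lY, A', hA', B', hB', hF, ?_, h3, h4⟩
    rw [hF.cfg.kc, hF.cfg.fp]
    omega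
  · exfalso
    obtain ⟨b1, b2, b3, b4⟩ := hbound lX lY A' B' hA' hB' hc (by omega) (by omega)
    unfold prog at hr
    rw [hc.fp] at hr
    omega

/-- Ground set of a node: all error rows of earlier nodes are removed. -/
noncomputable def gset {q n : ℕ} (N L : ℕ) (Λ : ℝ) (F : ℕ → Pt q n → ℝ) :
    ℕ → Finset (Pt q n)
  | 0 => univ
  | v + 1 => gset N L Λ F v \ errSet N L Λ (F v) (gset N L Λ F v)

theorem gset_succ_subset {q n : ℕ} (N L : ℕ) (Λ : ℝ) (F : ℕ → Pt q n → ℝ) (v : ℕ) :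
    gset N L Λ F (v + 1) ⊆ gset N L Λ F v := sdiff_subset

theorem gset_anti {q n : ℕ} (N L : ℕ) (Λ : ℝ) (F : ℕ → Pt q n → ℝ) {u v : ℕ} (h : u ≤ v) :
    gset N L Λ F v ⊆ gset N L Λ F u := by
  induction h with
  | refl => exact Subset.refl _
  | step _ ih => exact (gset_succ_subset N L Λ F _).trans ih

theorem card_univ_pt (q n : ℕ) : (univ : Finset (Pt q n)).card = n ^ q := by
  rw [card_univ, Fintype.card_fun, Fintype.card_fin, Fintype.card_fin]

theorem card_gset {q n : ℕ} (N L : ℕ) (Λ : ℝ) (F : ℕ → Pt q n → ℝ) (v : ℕ) :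
    Λ * ((n : ℝ) ^ q - (gset N L Λ F v).card) ≤
      v * ((1 + 2 * (Fintype.card (Step q) : ℝ)) ^ L * (n : ℝ) ^ q) := by
  induction v with
  | zero =>
    simp only [gset]
    rw [card_univ_pt]
    push_cast
    simp
  | succ v ih =>
    have h1 := card_errSet N L Λ (F v) (gset N L Λ F v)
    have hsub : errSet N L Λ (F v) (gset N L Λ F v) ⊆ gset N L Λ F v := by
      unfold errSet; exact filter_subset _ _
    have h2 : ((gset N L Λ F (v + 1)).card : ℝ) + (errSet N L Λ (F v) (gset N L Λ F v)).card =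
        (gset N L Λ F v).card := by
      exact_mod_cast card_sdiff_add_card_eq_card hsub
    have h3 : ((gset N L Λ F v).card : ℝ) ≤ (n : ℝ) ^ q := by
      have := card_le_univ (gset N L Λ F v)
      rw [← card_univ, card_univ_pt] at this
      exact_mod_cast this
    have hD : (0 : ℝ) ≤ (1 + 2 * (Fintype.card (Step q) : ℝ)) ^ L := by positivity
    have h4 : (1 + 2 * (Fintype.card (Step q) : ℝ)) ^ L * ((gset N L Λ F v).card : ℝ) ≤
        (1 + 2 * (Fintype.card (Step q) : ℝ)) ^ L * (n : ℝ) ^ q :=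
      mul_le_mul_of_nonneg_left h3 hD
    push_cast
    have h5 : Λ * ((n : ℝ) ^ q - (gset N L Λ F (v + 1)).card) =
        Λ * ((n : ℝ) ^ q - (gset N L Λ F v).card) +
          Λ * (errSet N L Λ (F v) (gset N L Λ F v)).card := by
      have : ((gset N L Λ F (v + 1)).card : ℝ) = (gset N L Λ F v).card -
          (errSet N L Λ (F v) (gset N L Λ F v)).card := by linarith
      rw [this]; ring
    rw [h5]
    linarith

/-- The invariant of the descent. -/
def State {q n : ℕ} (N lam : ℕ) (g : Fin q → Fin n → Fin n → Bool)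
    (H : Finset (Fin q) → (Fin q → Bool) → Prop) (f h : Pt q n → ℝ) (X Y : Finset (Pt q n)) :
    Prop :=
  ∃ (K : Finset (Fin q)) (A B : Finset (Pt q n)) (ρ : Fin q → Bool),
    A.Nonempty ∧ B.Nonempty ∧ A ⊆ X ∧ B ⊆ Y ∧ (∀ x ∈ A, ∀ y ∈ B, f x + h y < 0) ∧
    (∀ x ∈ A, ∀ y ∈ B, ∀ i ∈ K, g i (x i) (y i) = ρ i) ∧
    Dense N K A ∧ Dense N K B ∧ K.card ≤ 2 * lam ∧ H K ρ

theorem dense_choice {q n N M F : ℕ} {K : Finset (Fin q)} {A A' : Finset (Pt q n)}
    (hd : Dense N K A) (hA : A' ⊆ A) (hF : A.card ≤ F * A'.card) (hne : A'.Nonempty)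
    (hM : M * q * F < N) (i : Fin q) (hi : i ∉ K) (b : Fin n) :
    M * q * (slice A' i b).card < A'.card := by
  by_contra hcon
  push Not at hcon
  have h1 : N * (slice A' i b).card ≤ F * A'.card := by
    calc N * (slice A' i b).card ≤ N * (slice A i b).card :=
          Nat.mul_le_mul_left _ (card_le_card (slice_mono hA i b))
      _ ≤ A.card := hd i hi b
      _ ≤ _ := hF
  have h2 : N * (slice A' i b).card ≤ (M * q * F) * (slice A' i b).card := by
    calc N * (slice A' i b).card ≤ F * A'.card := h1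
      _ ≤ F * (M * q * (slice A' i b).card) := Nat.mul_le_mul_left _ hcon
      _ = _ := by ring
  have h3 : (slice A' i b).card = 0 := by
    by_contra h0
    have : 0 < (slice A' i b).card := Nat.pos_of_ne_zero h0
    have := Nat.le_of_mul_le_mul_right h2 this
    omega
  rw [h3, mul_zero] at hcon
  have := hne.card_pos
  omega

/-- One descent step: from a rectangle inside the triangle of the node `(f, h)` with good
invariants to a state of this node. -/
theorem descend {q n N lam L M : ℕ} (hN : 2 ≤ N) (hn : n = N ^ 4) (hL : 12 * lam + 3 ≤ L)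
    (hM : M * q * (2 * (4 * (q + 1)) ^ (6 * lam + 2)) < N)
    {g : Fin q → Fin n → Fin n → Bool} (hg : GadgetGood g M)
    {H : Finset (Fin q) → (Fin q → Bool) → Prop} {w : ℕ}
    (Hmono : ∀ K K' ρ, H K ρ → K' ⊆ K → H K' ρ)
    (Hext : ∀ K K' ρ, H K ρ → K ⊆ K' → K'.card ≤ w →
      ∃ ρ' : Fin q → Bool, (∀ i ∈ K, ρ' i = ρ i) ∧ H K' ρ')
    (hw : 4 * lam ≤ w)
    {f h : Pt q n → ℝ} {X Y : Finset (Pt q n)} (hX : n ^ q ≤ 2 * X.card)
    (hY : n ^ q ≤ 2 * Y.card) {K : Finset (Fin q)} {A B A₁ B₁ : Finset (Pt q n)}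
    {ρ : Fin q → Bool} (hA : A₁.Nonempty) (hB : B₁.Nonempty)
    (hAX : A₁ ⊆ X) (hBY : B₁ ⊆ Y)
    (hAe : ∀ x ∈ A₁, x ∉ errSet N L ((N : ℝ) ^ lam) f X)
    (hBe : ∀ y ∈ B₁, y ∉ errSet N L ((N : ℝ) ^ lam) h Y)
    (hA₁ : A₁ ⊆ A) (hB₁ : B₁ ⊆ B) (hA₁c : A.card ≤ 2 * A₁.card) (hB₁c : B.card ≤ 2 * B₁.card)
    (hT : ∀ x ∈ A₁, ∀ y ∈ B₁, f x + h y < 0)
    (hK : ∀ x ∈ A, ∀ y ∈ B, ∀ i ∈ K, g i (x i) (y i) = ρ i)
    (hdA : Dense N K A) (hdB : Dense N K B) (hKc : K.card ≤ 2 * lam) (hH : H K ρ) :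
    State N lam g H f h X Y := by
  classical
  obtain ⟨lX, lY, A', hA', B', hB', hF, hkc, hA'c, hB'c⟩ :=
    reach hN hn hL hX hY hA hB hAX hBY hAe hBe hT
  obtain ⟨ρ', hρ', hH'⟩ := Hext K (K ∪ kset ∅ lX) ρ hH subset_union_left
    (by have := card_union_le K (kset ∅ lX); omega)
  have hcA : A.card ≤ (2 * (4 * (q + 1)) ^ (6 * lam + 2)) * A'.card := by
    calc A.card ≤ 2 * A₁.card := hA₁c
      _ ≤ 2 * ((4 * (q + 1)) ^ (6 * lam + 2) * A'.card) := Nat.mul_le_mul_left _ hA'c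
      _ = _ := by ring
  have hcB : B.card ≤ (2 * (4 * (q + 1)) ^ (6 * lam + 2)) * B'.card := by
    calc B.card ≤ 2 * B₁.card := hB₁c
      _ ≤ 2 * ((4 * (q + 1)) ^ (6 * lam + 2) * B'.card) := Nat.mul_le_mul_left _ hB'c
      _ = _ := by ring
  obtain ⟨x, hx, y, hy, hxy⟩ := exists_pair hg K A' B'
    (fun i hi b => dense_choice hdA (hA'.trans hA₁) hcA hF.cfg.neA hM i hi b)
    (fun i hi b => dense_choice hdB (hB'.trans hB₁) hcB hF.cfg.neB hM i hi b)
    hF.cfg.neA hF.cfg.neB ρ'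
  -- the values on the new coordinates
  have hval : ∀ i ∈ kset ∅ lX, g i (x i) (y i) = ρ' i := by
    intro i hi
    by_cases hiK : i ∈ K
    · rw [hρ' i hiK]
      exact hK x (hA₁ (hA' hx)) y (hB₁ (hB' hy)) i hiK
    · exact hxy i hiK
  obtain ⟨c, hev⟩ := ev_evS (hF.cfg.evA x hx)
  obtain ⟨c', hev'⟩ := ev_evS (hF.cfg.evB y hy)
  have hxX : x ∈ X := hAX (hA' hx)
  have hyY : y ∈ Y := hBY (hB' hy)
  obtain ⟨s1, s2, -, -, -, s6⟩ := ev_spec (by omega) hxX hev
  obtain ⟨t1, t2, -, -, -, t6⟩ := ev_spec (by omega) hyY hev'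
  set S := evS N f lX X x with hS
  set T := evS N h lY Y y with hTdef
  have hSne : S.Nonempty := ⟨x, s1⟩
  have hTne : T.Nonempty := ⟨y, t1⟩
  have hN1 : 1 ≤ N := by omega
  have hq1 := quant_le hSne hN1 f
  have hq2 := quant_le hTne hN1 h
  have hdense : ∀ (Z : Finset (Pt q n)) (k : Pt q n → ℝ), Z.card ≤ N *
      (Z.filter fun x => k x ≤ quant N Z k).card → Dense (N ^ 2) (kset ∅ lX) Z →
      Dense N (kset ∅ lX) (Z.filter fun x => k x ≤ quant N Z k) := by
    intro Z k hZ hdZ i hi b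
    have h1 := hdZ i hi b
    have h2 : (slice (Z.filter fun x => k x ≤ quant N Z k) i b).card ≤ (slice Z i b).card :=
      card_le_card (slice_mono (filter_subset _ _) i b)
    have h3 : N * (N * (slice (Z.filter fun x => k x ≤ quant N Z k) i b).card) ≤
        N * (Z.filter fun x => k x ≤ quant N Z k).card := by
      calc N * (N * (slice (Z.filter fun x => k x ≤ quant N Z k) i b).card)
          ≤ N * (N * (slice Z i b).card) := by gcongr
        _ = N ^ 2 * (slice Z i b).card := by ring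
        _ ≤ Z.card := h1
        _ ≤ _ := hZ
    exact Nat.le_of_mul_le_mul_left h3 (by omega)
  refine ⟨kset ∅ lX, S.filter fun x => f x ≤ quant N S f, T.filter fun y => h y ≤ quant N T h,
    ρ', ?_, ?_, (filter_subset _ _).trans s2, (filter_subset _ _).trans t2, ?_, ?_, ?_, ?_, hkc,
    Hmono _ _ _ hH' subset_union_right⟩
  · rw [← card_pos]
    by_contra h0
    have : (S.filter fun x => f x ≤ quant N S f).card = 0 := by omega
    rw [this, mul_zero] at hq1
    have := hSne.card_pos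
    omega
  · rw [← card_pos]
    by_contra h0
    have : (T.filter fun x => h x ≤ quant N T h).card = 0 := by omega
    rw [this, mul_zero] at hq2
    have := hTne.card_pos
    omega
  · intro x' hx' y' hy'
    have h1 := (mem_filter.mp hx').2
    have h2 := (mem_filter.mp hy').2
    have h3 := hF.lt x hx y hy
    rw [← hS, ← hTdef] at h3
    linarith
  · intro x' hx' y' hy' i hi
    have h1 : x' i = x i := by
      rcases s6 x' (mem_filter.mp hx').1 i hi with h | h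
      · simp at h
      · exact h
    have h2 : y' i = y i := by
      rcases t6 y' (mem_filter.mp hy').1 i (by rw [← hF.cfg.ks]; exact hi) with h | h
      · simp at h
      · exact h
    rw [h1, h2]
    exact hval i hi
  · exact hdense S f hq1 (hF.dA x hx)
  · refine hdense T h hq2 ?_
    have := hF.dB y hy
    rw [← hF.cfg.ks] at this
    exact this

end CliqueCP
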